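import Mathlib
import Pool.Agent.Work.MP_787500_nt.LA.FDefs
import Pool.Agent.Work.MP_787500_nt.GP.StDefs

/-!
Congruent conjugate self-dual representations: definitions used in the statement of the theorem. The other
definitions are in `PA/ParityDefs.lean`, `GP/FinDefs.lean`, `GP/StDefs.lean`, `HP/BKDefs.lean` and
`LA/FDefs.lean`.
-/

set_option autoImplicit false

namespace Pool.Agent.Work.MP_787500_nt.Parity

open NumberField Matrix

section lattice

variable {E : Type*} [NormedField E] {n : ℕ}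

/-- `Λ` is a lattice in `E ^ n` that is its own dual for the bilinear form with matrix `b`. -/
structure SelfDual (b : Matrix (Fin n) (Fin n) E) (Λ : Set (Fin n → E)) : Prop where
  dual : ∀ x, x ∈ Λ ↔ ∀ y ∈ Λ, ‖x ⬝ᵥ (b *ᵥ y)‖ ≤ 1
  bounded : ∃ R : ℝ, ∀ x ∈ Λ, ‖x‖ ≤ R
  nhds_zero : ∃ r : ℝ, 0 < r ∧ ∀ x : Fin n → E, ‖x‖ < r → x ∈ Λ

/-- `A` and `B` are congruent on `Λ` modulo the maximal ideal of the ring of integers of `E`. -/
def CongruentOn (Λ : Set (Fin n → E)) (A B : Matrix (Fin n) (Fin n) E) : Prop :=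
  ∀ x ∈ Λ, ∃ a : E, ‖a‖ < 1 ∧ ∃ y ∈ Λ, A *ᵥ x - B *ᵥ x = a • y

/-- The lattice `Λ` is its own dual for `b` and for `b'`, it is stable under all `A g` and all `A' g`, and on
`Λ` the forms `b` and `b'`, and for all `g` the matrices `A g` and `A' g`, are congruent modulo the maximal
ideal. -/
structure IsCongruent {G : Type*} (Λ : Set (Fin n → E)) (A A' : G → Matrix (Fin n) (Fin n) E)
    (b b' : Matrix (Fin n) (Fin n) E) : Prop where
  selfDual : SelfDual b Λ
  selfDual' : SelfDual b' Λ
  stable : ∀ g, ∀ x ∈ Λ, A g *ᵥ x ∈ Λ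
  stable' : ∀ g, ∀ x ∈ Λ, A' g *ᵥ x ∈ Λ
  congr : ∀ g, CongruentOn Λ (A g) (A' g)
  form : ∀ x ∈ Λ, ∀ y ∈ Λ, ‖x ⬝ᵥ (b *ᵥ y) - x ⬝ᵥ (b' *ᵥ y)‖ < 1

end lattice

section group

variable {G : Type*} [Group G] [TopologicalSpace G]
variable {E : Type*} [NormedField E]
variable {n : ℕ}

/-- The dimension of the Selmer space modulo coboundaries, plus the dimension of the space of vectors fixed
by `G`, plus the dimension of `L` modulo coboundaries, plus the dimension of the space of vectors fixed by
`D`. -/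
noncomputable def selmerNumber (N : Set (Subgroup G)) (χ : G → E) (κ : G → G)
    (ρ : G →* Matrix (Fin n) (Fin n) E) (b : Matrix (Fin n) (Fin n) E) (D : Subgroup G)
    (L : Submodule E (D → Fin n → E)) : ℕ :=
  dimModulo (selmerBK N χ κ ρ b D L) (coboundaries ρ) + Module.finrank E (fixedBy (fun σ : G => ρ σ)) +
    dimModulo L (coboundaries (fun σ : D => ρ σ)) + Module.finrank E (fixedBy (fun σ : D => ρ σ))

end group

section galois

universe u

variable {K : Type u} [Field K] {E : Type*} [NormedField E] {n : ℕ}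

/-- For an odd prime number `l`: it is inert in the field generated by a square root of `-D`. -/
def Inert (D l : ℕ) : Prop := ∀ A : ℤ, ¬ (l : ℤ) ∣ A ^ 2 + D

/-- The dimension of the space of vectors fixed by the inertia group at `Q`. -/
noncomputable def dimInertia (ρ : AbsGal K →* Matrix (Fin n) (Fin n) E)
    (Q : Ideal (𝓞 (AlgebraicClosure K))) : ℕ :=
  Module.finrank E (fixedBy (fun σ : Q.inertia (AbsGal K) => ρ σ))

end galois

end Pool.Agent.Work.MP_787500_nt.Parity
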