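import Mathlib
import Pool.Agent.Work.MP_787500_nt.CP.FDefs
import Pool.Agent.Work.MP_787500_nt.ER.FDefs

/-!
Congruent conjugate self-dual representations: more definitions used in the statement of the theorem. The other
definitions are in `CP/FDefs.lean`, `ER/FDefs.lean`, `QX/FDefs.lean`, `PA/ParityDefs.lean`, `GP/FinDefs.lean`,
`GP/StDefs.lean`, `HP/BKDefs.lean` and `LA/FDefs.lean`.
-/

set_option autoImplicit false

namespace Pool.Agent.Work.MP_787500_nt.Parity

open NumberField Matrix
open Pool.Agent.Work.MP_787500_nt.GP (stabD)

section group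

variable {G : Type*} [Group G] [TopologicalSpace G]
variable {E : Type*} [NormedField E]
variable {n : ℕ}

/-- The space `L` and the Selmer space are finite dimensional, and the Selmer space contains the coboundaries. -/
def IsFinSelmer (N : Set (Subgroup G)) (χ : G → E) (κ : G → G) (ρ : G →* Matrix (Fin n) (Fin n) E)
    (b : Matrix (Fin n) (Fin n) E) (D : Subgroup G) (L : Submodule E (D → Fin n → E)) : Prop :=
  FiniteDimensional E L ∧ FiniteDimensional E (selmerBK N χ κ ρ b D L) ∧
    coboundaries ρ ≤ selmerBK N χ κ ρ b D L

end group

section galois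

universe u

variable {K : Type u} [Field K] {E : Type*} [NormedField E] {n : ℕ}

open scoped Classical in
/-- The sum over the inert prime numbers in `T` of the dimensions of the spaces of vectors fixed by inertia, plus the
sum over the divisors of `D` in `T` of the dimensions of the spaces of the vectors of `V` modulo the vectors fixed by
inertia that are fixed by the decomposition group. -/
noncomputable def localNumber (D : ℕ) (T : Finset ℕ) (R : ℕ → Ideal (𝓞 (AlgebraicClosure K)))
    (ρ : AbsGal K →* Matrix (Fin n) (Fin n) E) : ℕ :=
  ∑ l ∈ T.filter (Inert D), dimInertia ρ (R l) +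
    ∑ l ∈ T.filter (fun l => l ∣ D), quotDim (stabD (R l)) ((R l).inertia (AbsGal K)) ρ

/-- Both representations are semistable on the inertia group at `Q`, or there is a matrix that is congruent to 1 on `Λ`
modulo the maximal ideal and that is an isomorphism of the representations of the decomposition group at `Q`. -/
def SemistableOrIso (Λ : Set (Fin n → E)) (ρ ρ' : AbsGal K →* Matrix (Fin n) (Fin n) E)
    (Q : Ideal (𝓞 (AlgebraicClosure K))) : Prop :=
  (SemistableOn (Q.inertia (AbsGal K)) ρ ∧ SemistableOn (Q.inertia (AbsGal K)) ρ') ∨
    ∃ U : Matrix (Fin n) (Fin n) E, CongruentOn Λ U 1 ∧ ∀ g ∈ stabD Q, U * ρ g = ρ' g * U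

end galois

end Pool.Agent.Work.MP_787500_nt.Parity
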