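import Mathlib
import Pool.Agent.Work.MP_787500_nt.QV.Grow
import Pool.Agent.Work.MP_787500_nt.QS.Change

/-!
Two quadratic representations with the same finite level 1: the dimensions of the two Selmer spaces differ modulo 2
by a sum of local numbers.
-/

set_option autoImplicit false
set_option linter.unusedSectionVars false

namespace Pool.Agent.Work.MP_787500_nt.CP

open Matrix
open Pool.Agent.Work.MP_787500_nt.GP (A0 IsAct d0 d1 d2 tw cup11 cup21 cup12 cup01 cup02 EvPow IsPow OE MN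
  actN actQ bN bil mq lft mq_lft mq_eq mq_add mq_smul Wq Lat pr0 lamN mem_OE)
open Pool.Agent.Work.MP_787500_nt.KR (FSys Sm1 Sm2 IsChar Smooth Z1 Z2 B2 LocH LocD Pair LDual GlobH Mid Sha2
  IsTr zM z1s b1s h1 LocRep ZV PerpV zV)
open Pool.Agent.Work.MP_787500_nt.QS (QM Lag selQ HQ Flag pB Zq indY redY)
open Pool.Agent.Work.MP_787500_nt.QV
open Pool.Agent.Work.MP_787500_nt.PA (toE)

universe v

variable {E : Type v} [NormedField E] [NormedAlgebra ℚ_[2] E] [FiniteDimensional ℚ_[2] E] {n : ℕ}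
  {Γ : Type*} [Group Γ] {S : FSys Γ} {χ : Γ → ℤ_[2]} {l : OE E} {t : E →ₗ[ℚ_[2]] ℚ_[2]}
  {T : Submodule (OE E) (Fin n → E)} {β Sm J β' Sm' J' : Matrix (Fin n) (Fin n) E}
  {ρ ρ' : Γ → Matrix (Fin n) (Fin n) E}

variable {I : Type*} [Fintype I] {D : I → Type*} [∀ i, Group (D i)] {SD : ∀ i, FSys (D i)}
  {j : ∀ i, D i →* Γ} {inv : ∀ i, (D i → D i → A0) → A0}
  {tr : ((Γ → Γ → Γ → A0) × (∀ i, D i → D i → A0)) →+ A0}
  {L L' : ∀ i, Submodule E (D i → Fin n → E)}

/-- the exponents of the numbers in `change_Q` -/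
private theorem exp_change [IsLocalRing (OE E)] (H : HQ.{v} S SD j χ inv tr)
    (h : QRep S χ l t T β Sm J ρ)
    {Y Y0 : ∀ i, Submodule (OE E) (D i → MN T l 1)}
    (hY : ∀ i, Lag (SD i) (inv i) (fun d => actN l 1 ρ h.rep.st (j i d)) (beN h 1)
      (fun a d => laN χ l t β ρ T 1 a (j i d)) (Y i))
    (hY0 : ∀ i, Lag (SD i) (inv i) (fun d => actN l 1 ρ h.rep.st (j i d)) (beN h 1)
      (fun a d => laN χ l t β ρ T 1 a (j i d)) (Y0 i))
    {d : I → ℕ}
    (hd : ∀ i, EvPow (Nat.card (IsLocalRing.ResidueField (OE E)))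
      (Nat.card ↥(Y i ⊓ Y0 i) * Nat.card (Y i) *
        Nat.card (IsLocalRing.ResidueField (OE E)) ^ d i)) {a z : ℕ}
    (ha : Nat.card (selQ S j (qm_N h H.glob.char 1).act (qm_N h H.glob.char 1).lin Y) =
      Nat.card (IsLocalRing.ResidueField (OE E)) ^ a)
    (hz : Nat.card (selQ S j (qm_N h H.glob.char 1).act (qm_N h H.glob.char 1).lin Y0) =
      Nat.card (IsLocalRing.ResidueField (OE E)) ^ z) : Even (a + z + ∑ i, d i) := by
  classical
  have hres : Finite (IsLocalRing.ResidueField (OE E)) := GP.res_finite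
  have hf : Finite (MN T l 1) := GP.MN_finite h.lat 1
  set q := Nat.card (IsLocalRing.ResidueField (OE E)) with hq
  have hq2 : 1 < q := Finite.one_lt_card
  have hinj := Nat.pow_right_injective hq2
  have key := QS.change_Q H (qm_N h H.glob.char 1) hY hY0
  rw [← hq, ha, hz] at key
  -- the local numbers
  have hfin : ∀ i, Finite (Y i) := fun i => by
    have hZ : Finite (zM (O := OE E) (SD i) ((qm_N h H.glob.char 1).comp (H.glob.jsm i)).act
      ((qm_N h H.glob.char 1).comp (H.glob.jsm i)).lin) := (H.ld i (qm_N h H.glob.char 1).pair).fin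
    exact Finite.of_injective (fun x : Y i =>
      (⟨x.1, (hY i).coc _ x.2⟩ : zM (O := OE E) (SD i)
        ((qm_N h H.glob.char 1).comp (H.glob.jsm i)).act
        ((qm_N h H.glob.char 1).comp (H.glob.jsm i)).lin)) fun x y hxy =>
          Subtype.ext (by simpa using hxy)
  have hfin' : ∀ i, Finite ↥(Y i ⊓ Y0 i) := fun i =>
    Finite.of_injective (fun x : ↥(Y i ⊓ Y0 i) => (⟨x.1, x.2.1⟩ : Y i)) fun x y hxy =>
      Subtype.ext (by simpa using hxy)
  have hex : ∀ i, ∃ e : ℕ, Nat.card ↥(Y i ⊓ Y0 i) * Nat.card (Y i) = q ^ e := fun i => by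
    obtain ⟨e1, h1⟩ := GP.card_pow (O := OE E) ↥(Y i ⊓ Y0 i)
    obtain ⟨e2, h2⟩ := GP.card_pow (O := OE E) (Y i)
    exact ⟨e1 + e2, by rw [h1, h2, pow_add]⟩
  choose e he using hex
  have hed : ∀ i, ∃ m, e i + d i = 2 * m := fun i => by
    obtain ⟨m, hm⟩ := hd i
    rw [he i, ← pow_add] at hm
    exact ⟨m, hinj hm⟩
  choose m hm using hed
  obtain ⟨k, hk⟩ := key
  simp only [he] at hk
  rw [Finset.prod_pow_eq_pow_sum, ← pow_add, ← pow_add] at hk
  have h1 : a + z + ∑ i, e i = 2 * k := hinj hk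
  have h2 : ∑ i, (e i + d i) = 2 * ∑ i, m i := by
    rw [Finset.mul_sum]
    exact Finset.sum_congr rfl fun i _ => hm i
  rw [Finset.sum_add_distrib] at h2
  rw [Nat.even_iff]
  omega

/-- **Congruent representations.** -/
theorem cong_abs [IsLocalRing (OE E)] (H : HQ.{v} S SD j χ inv tr)
    (hgen : ∃ X : Finset Γ, ∀ U : Subgroup Γ, (∃ W, S.mem W ∧ W ≤ U) → (∀ g ∈ X, g ∈ U) → U = ⊤)
    (h : QRep S χ l t T β Sm J ρ) (h' : QRep S χ l t T β' Sm' J' ρ')
    (hact : ∀ g (m : MN T l 1), actN l 1 ρ' h'.rep.st g m = actN l 1 ρ h.rep.st g m)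
    (hla : ∀ (a : OE E) g (m : MN T l 1), laN χ l t β' ρ' T 1 a g m = laN χ l t β ρ T 1 a g m)
    (hbe : ∀ x y : MN T l 1, beN h' 1 x y = beN h 1 x y)
    (hfd : ∀ i, FiniteDimensional E (L i)) (hfd' : ∀ i, FiniteDimensional E (L' i))
    (hL : ∀ i, ∀ X ∈ L i, ZV (SD i) (fun d => ρ (j i d)) X)
    (hL' : ∀ i, ∀ X ∈ L' i, ZV (SD i) (fun d => ρ' (j i d)) X)
    (hcob : ∀ i v, (fun d => ρ (j i d) *ᵥ v - v) ∈ L i)
    (hcob' : ∀ i v, (fun d => ρ' (j i d) *ᵥ v - v) ∈ L' i)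
    (hlag : ∀ N i, Lag (SD i) (inv i) (fun d => actN l N ρ h.rep.st (j i d)) (beN h N)
      (fun a d => laN χ l t β ρ T N a (j i d)) (lamN T l N (L i)))
    (hlag' : ∀ N i, Lag (SD i) (inv i) (fun d => actN l N ρ' h'.rep.st (j i d)) (beN h' N)
      (fun a d => laN χ l t β' ρ' T N a (j i d)) (lamN T l N (L' i)))
    {Y0 : ∀ i, Submodule (OE E) (D i → MN T l 1)}
    (hY0 : ∀ i, Lag (SD i) (inv i) (fun d => actN l 1 ρ h.rep.st (j i d)) (beN h 1)
      (fun a d => laN χ l t β ρ T 1 a (j i d)) (Y0 i))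
    {d d' : I → ℕ}
    (hd : ∀ i, EvPow (Nat.card (IsLocalRing.ResidueField (OE E)))
      (Nat.card ↥(lamN T l 1 (L i) ⊓ Y0 i) * Nat.card (lamN T l 1 (L i)) *
        Nat.card (IsLocalRing.ResidueField (OE E)) ^ d i))
    (hd' : ∀ i, EvPow (Nat.card (IsLocalRing.ResidueField (OE E)))
      (Nat.card ↥(lamN T l 1 (L' i) ⊓ Y0 i) * Nat.card (lamN T l 1 (L' i)) *
        Nat.card (IsLocalRing.ResidueField (OE E)) ^ d' i)) :
    FiniteDimensional E (selE S j ρ L) ∧ FiniteDimensional E (selE S j ρ' L') ∧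
      Even (Module.finrank E (selE S j ρ L) + Module.finrank E (selE S j ρ' L') +
        ∑ i, (d i + d' i)) := by
  classical
  have hres : Finite (IsLocalRing.ResidueField (OE E)) := GP.res_finite
  have hf : Finite (MN T l 1) := GP.MN_finite h.lat 1
  have hχ : IsChar S χ := H.glob.char
  have hfZ : Finite (zM (O := OE E) S (qm_N h hχ 1).act (qm_N h hχ 1).lin) :=
    H.fin (qm_N h hχ 1).pair
  -- the Selmer groups at the level 1
  have fsel : ∀ Y : ∀ i, Submodule (OE E) (D i → MN T l 1),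
      Finite (selQ S j (qm_N h hχ 1).act (qm_N h hχ 1).lin Y) := fun Y =>
    Finite.of_injective (fun x : selQ S j (qm_N h hχ 1).act (qm_N h hχ 1).lin Y =>
      (⟨x.1, x.2.1⟩ : zM (O := OE E) S (qm_N h hχ 1).act (qm_N h hχ 1).lin)) fun x y hxy =>
        Subtype.ext (by simpa using hxy)
  have e1 : Nat.card (selNQ S j ρ L h 1) =
      Nat.card (selQ S j (qm_N h hχ 1).act (qm_N h hχ 1).lin fun i => lamN T l 1 (L i)) := rfl
  have e2 : Nat.card (selNQ S j ρ' L' h' 1) =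
      Nat.card (selQ S j (qm_N h hχ 1).act (qm_N h hχ 1).lin fun i => lamN T l 1 (L' i)) := by
    have e3 : actN l 1 ρ' h'.rep.st = actN l 1 ρ h.rep.st := by
      funext g m
      exact hact g m
    refine Nat.card_congr (Equiv.subtypeEquivRight fun x => ?_)
    show Z1 S (actN l 1 ρ' h'.rep.st) x ∧ _ ↔ Z1 S (actN l 1 ρ h.rep.st) x ∧ _
    rw [e3]
  have hlag1 : ∀ i, Lag (SD i) (inv i) (fun d => actN l 1 ρ h.rep.st (j i d)) (beN h 1)
      (fun a d => laN χ l t β ρ T 1 a (j i d)) (lamN T l 1 (L' i)) := fun i => by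
    have h3 := hlag' 1 i
    have e3 : (fun d => actN l 1 ρ' h'.rep.st (j i d)) = fun d => actN l 1 ρ h.rep.st (j i d) := by
      funext d m
      exact hact _ m
    have e4 : (fun (a : OE E) (d : D i) => laN χ l t β' ρ' T 1 a (j i d)) =
        fun a d => laN χ l t β ρ T 1 a (j i d) := by
      funext a d m
      exact hla a _ m
    have e5 : beN h' 1 = beN h 1 := by
      ext x y
      exact hbe x y
    rw [e3, e4, e5] at h3
    exact h3
  set q := Nat.card (IsLocalRing.ResidueField (OE E)) with hq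
  obtain ⟨a, ha⟩ := GP.card_pow (O := OE E)
    (selQ S j (qm_N h hχ 1).act (qm_N h hχ 1).lin fun i => lamN T l 1 (L i))
  obtain ⟨a', ha'⟩ := GP.card_pow (O := OE E)
    (selQ S j (qm_N h hχ 1).act (qm_N h hχ 1).lin fun i => lamN T l 1 (L' i))
  obtain ⟨z, hz⟩ := GP.card_pow (O := OE E)
    (selQ S j (qm_N h hχ 1).act (qm_N h hχ 1).lin Y0)
  obtain ⟨k1, k2⟩ := parity_E (δ := a) H hgen h hfd hL hcob hlag ⟨a, by
    rw [e1, ha, ← pow_add, two_mul]⟩
  obtain ⟨k3, k4⟩ := parity_E (δ := a') H hgen h' hfd' hL' hcob' hlag' ⟨a', by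
    rw [e2, ha', ← pow_add, two_mul]⟩
  have k5 := exp_change H h (hlag 1) hY0 hd ha hz
  have k6 := exp_change H h hlag1 hY0 hd' ha' hz
  refine ⟨k1, k3, ?_⟩
  rw [Finset.sum_add_distrib]
  rw [Nat.even_iff] at k2 k4 k5 k6 ⊢
  omega

end Pool.Agent.Work.MP_787500_nt.CP
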