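import Mathlib
import Pool.Agent.Work.MP_787500_nt.QV.App

/-!
Congruent representations have the same finite level 1, for `V` and for `V × V`.
-/

set_option autoImplicit false
set_option linter.unusedSectionVars false

namespace Pool.Agent.Work.MP_787500_nt.CP

open Matrix
open Pool.Agent.Work.MP_787500_nt.GP (A0 OE MN actN actQ bil bN mq lft mq_lft mq_eq mq_smul Wq Lat pr0 lamN
  bil_smul_left bil_smul_right pr0_zero_of_norm)
open Pool.Agent.Work.MP_787500_nt.KR (FSys)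
open Pool.Agent.Work.MP_787500_nt.QS (Two)
open Pool.Agent.Work.MP_787500_nt.QV
open Pool.Agent.Work.MP_787500_nt.PA (toE)

variable {E : Type*} [NormedField E] [NormedAlgebra ℚ_[2] E] {n : ℕ}

/-- `A` and `B` are congruent on the lattice `T` modulo `l`. -/
def Cg (l : OE E) (T : Submodule (OE E) (Fin n → E)) (A B : Matrix (Fin n) (Fin n) E) : Prop :=
  ∀ x ∈ T, ∃ y ∈ T, A *ᵥ x - B *ᵥ x = (l : E) • y

variable {l : OE E} {T : Submodule (OE E) (Fin n → E)} {A B : Matrix (Fin n) (Fin n) E}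

theorem Cg.symm (h : Cg l T A B) : Cg l T B A := fun x hx => by
  obtain ⟨y, hy, h1⟩ := h x hx
  exact ⟨-y, T.neg_mem hy, by rw [smul_neg, ← h1, neg_sub]⟩

/-- the difference on vectors `x` with `l x ∈ T` -/
theorem Cg.diff (h : Cg l T A B) (hl : (l : E) ≠ 0) {x : Fin n → E} (hx : (l : E) • x ∈ T) :
    A *ᵥ x - B *ᵥ x ∈ T := by
  obtain ⟨y, hy, h1⟩ := h _ hx
  rw [mulVec_smul, mulVec_smul, ← smul_sub] at h1
  rw [smul_right_injective _ hl h1]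
  exact hy

theorem lft_one (m : MN T l 1) : (l : E) • lft (m : Wq T) ∈ T := by
  have h := m.lft_mem
  rwa [pow_one] at h

/-- the finite level 1 -/
theorem actN_cg {X : Type*} {ρ ρ' : X → Matrix (Fin n) (Fin n) E} (hl : (l : E) ≠ 0)
    (h : ∀ g, Cg l T (ρ g) (ρ' g)) (hst : ∀ d, ∀ x ∈ T, ρ d *ᵥ x ∈ T)
    (hst' : ∀ d, ∀ x ∈ T, ρ' d *ᵥ x ∈ T) (g : X) (m : MN T l 1) :
    actN l 1 ρ' hst' g m = actN l 1 ρ hst g m := by
  apply Subtype.ext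
  rw [GP.coe_actN, GP.coe_actN]
  show mq T (ρ' g *ᵥ lft (m : Wq T)) = mq T (ρ g *ᵥ lft (m : Wq T))
  rw [mq_eq]
  exact (h g).symm.diff hl (lft_one m)

/-- The forms `b` and `b'` are congruent on the lattice `T` modulo `l`. -/
def CgF (l : OE E) (T : Submodule (OE E) (Fin n → E)) (b b' : Matrix (Fin n) (Fin n) E) : Prop :=
  ∀ x ∈ T, ∀ y ∈ T, ‖bil b' x y - bil b x y‖ ≤ ‖(l : E)‖

variable {b b' : Matrix (Fin n) (Fin n) E} {t : E →ₗ[ℚ_[2]] ℚ_[2]}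

theorem CgF.symm (h : CgF l T b b') : CgF l T b' b := fun x hx y hy => by
  rw [norm_sub_rev]
  exact h x hx y hy

/-- the values at the level 1 -/
theorem CgF.val (h : CgF l T b b') (hl : (l : E) ≠ 0)
    (ht : ∀ x : E, ‖x‖ ≤ 1 → ‖t x‖ ≤ 1) {x y : Fin n → E} (hx : (l : E) • x ∈ T)
    (hy : (l : E) • y ∈ T) {a : E} (ha : ‖a‖ ≤ 1) :
    pr0 (t ((l : E) ^ 1 * (a * bil b' x y))) = pr0 (t ((l : E) ^ 1 * (a * bil b x y))) := by
  rw [← sub_eq_zero, ← map_sub, ← map_sub]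
  refine pr0_zero_of_norm (ht _ ?_)
  have h1 := h _ hx _ hy
  rw [bil_smul_left, bil_smul_right, bil_smul_left, bil_smul_right, ← mul_sub, ← mul_sub, norm_mul,
    norm_mul] at h1
  have h2 : 0 < ‖(l : E)‖ := norm_pos_iff.2 hl
  have h3 : ‖(l : E)‖ * ‖bil b' x y - bil b x y‖ ≤ 1 := by
    have h4 := (mul_le_iff_le_one_right h2).1 h1
    exact h4
  rw [pow_one, ← mul_sub, ← mul_sub, norm_mul, norm_mul]
  calc ‖(l : E)‖ * (‖a‖ * ‖bil b' x y - bil b x y‖)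
      = ‖a‖ * (‖(l : E)‖ * ‖bil b' x y - bil b x y‖) := by ring
    _ ≤ 1 * 1 := mul_le_mul ha h3 (by positivity) zero_le_one
    _ = 1 := one_mul 1

/-- the pairings at the level 1 -/
theorem bN_cg (hl : Lat b l t T) (hl' : Lat b' l t T) (h : CgF l T b b') : bN hl' 1 = bN hl 1 := by
  ext x y
  have h1 := h.val hl.lne hl.tint (lft_one x) (lft_one y) (a := 1) (by rw [norm_one])
  rw [one_mul, one_mul] at h1
  exact h1

section two

variable {G Γ : Type*} [Group G] [Group Γ] {e : G →* Γ} {c : Γ} {κ : G →* G}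
  {ρ ρ' : G → Matrix (Fin n) (Fin n) E} {χ : G → ℤ_[2]} {χq : Γ → ℤ_[2]}

/-- `V × V` -/
theorem cg2 (X : Two e c κ) (h : ∀ g, Cg l T (ρ g) (ρ' g)) (σ : Γ) :
    Cg l (T2 T) (rho2 e c κ ρ σ) (rho2 e c κ ρ' σ) := by
  intro v hv
  rcases X.cases σ with ⟨g, rfl⟩ | ⟨g, rfl⟩
  · obtain ⟨y, hy, h1⟩ := h g _ hv.1
    obtain ⟨z, hz, h2⟩ := h (κ g) _ hv.2
    refine ⟨ap y z, mem_T2.2 ⟨by rwa [v1_ap], by rwa [v2_ap]⟩, ?_⟩
    apply ap_ext
    · show v1 (rho2 e c κ ρ (e g) *ᵥ v) - v1 (rho2 e c κ ρ' (e g) *ᵥ v) = (l : E) • v1 (ap y z)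
      rw [v1_rho X, v1_rho X, v1_ap]
      exact h1
    · show v2 (rho2 e c κ ρ (e g) *ᵥ v) - v2 (rho2 e c κ ρ' (e g) *ᵥ v) = (l : E) • v2 (ap y z)
      rw [v2_rho X, v2_rho X, v2_ap]
      exact h2
  · obtain ⟨y, hy, h1⟩ := h g _ hv.2
    obtain ⟨z, hz, h2⟩ := h (κ g) _ hv.1
    refine ⟨ap y z, mem_T2.2 ⟨by rwa [v1_ap], by rwa [v2_ap]⟩, ?_⟩
    apply ap_ext
    · show v1 (rho2 e c κ ρ (e g * c) *ᵥ v) - v1 (rho2 e c κ ρ' (e g * c) *ᵥ v) =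
        (l : E) • v1 (ap y z)
      rw [v1_rhoc X, v1_rhoc X, v1_ap]
      exact h1
    · show v2 (rho2 e c κ ρ (e g * c) *ᵥ v) - v2 (rho2 e c κ ρ' (e g * c) *ᵥ v) =
        (l : E) • v2 (ap y z)
      rw [v2_rhoc X, v2_rhoc X, v2_ap]
      exact h2

theorem norm_toE (a : ℤ_[2]) : ‖toE E a‖ ≤ 1 := by
  have h6 : ‖toE E a‖ = ‖a‖ := by
    show ‖algebraMap ℚ_[2] E ((a : ℤ_[2]) : ℚ_[2])‖ = _
    rw [norm_algebraMap']
    rfl
  rw [h6]
  exact a.2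

/-- the correction at the level 1 does not depend on the representation -/
theorem laN_indep (X : Two e c κ) (hχ : ∀ g, χq (e g) = χ g) (hc : χq c = -1)
    (hm : ∀ σ τ, χq (σ * τ) = χq σ * χq τ) (hb : bᵀ = b) (hb' : b'ᵀ = b') (hl : (l : E) ≠ 0)
    (ht : ∀ x : E, ‖x‖ ≤ 1 → ‖t x‖ ≤ 1) (h : CgF l T b b')
    (hd : ∀ g x y, bil b (ρ g *ᵥ x) (ρ (κ g) *ᵥ y) = toE E (χ g) * bil b x y)
    (hd' : ∀ g x y, bil b' (ρ' g *ᵥ x) (ρ' (κ g) *ᵥ y) = toE E (χ g) * bil b' x y)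
    (a : OE E) (σ : Γ) (m : MN (T2 T) l 1) :
    laN χq l t (blk 0 b' 0 0) (rho2 e c κ ρ') (T2 T) 1 a σ m =
      laN χq l t (blk 0 b 0 0) (rho2 e c κ ρ) (T2 T) 1 a σ m := by
  rw [laN, laN]
  rcases X.cases σ with ⟨g, rfl⟩ | ⟨g, rfl⟩
  · rw [lam2_e X hχ hd, lam2_e X hχ hd']
  · rw [lam2_ec X hχ hc hm hb hd, lam2_ec X hχ hc hm hb' hd', hd, hd', ← mul_assoc (a : E),
      ← mul_assoc (a : E)]
    have h1 : (l : E) • lft (m : Wq (T2 T)) ∈ T2 T := lft_one m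
    refine h.val hl ht h1.2 h1.1 ?_
    rw [norm_mul]
    exact mul_le_one₀ a.2 (norm_nonneg _) (norm_toE _)

/-- the form at the level 1 does not depend on the representation -/
theorem beN_indep {S : FSys Γ} {χ : Γ → ℤ_[2]} {Sm Sm' J J' : Matrix (Fin (n + n)) (Fin (n + n)) E}
    {r r' : Γ → Matrix (Fin (n + n)) (Fin (n + n)) E} (hl : (l : E) ≠ 0)
    (ht : ∀ x : E, ‖x‖ ≤ 1 → ‖t x‖ ≤ 1) (h : CgF l T b b')
    (hq : QRep S χ l t (T2 T) (blk 0 b 0 0) Sm J r)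
    (hq' : QRep S χ l t (T2 T) (blk 0 b' 0 0) Sm' J' r') (x y : MN (T2 T) l 1) :
    beN hq' 1 x y = beN hq 1 x y := by
  show pr0 (t ((l : E) ^ 1 * bil (blk 0 b' 0 0) (lft (x : Wq (T2 T))) (lft (y : Wq (T2 T))))) =
    pr0 (t ((l : E) ^ 1 * bil (blk 0 b 0 0) (lft (x : Wq (T2 T))) (lft (y : Wq (T2 T)))))
  have h1 : (l : E) • lft (x : Wq (T2 T)) ∈ T2 T := lft_one x
  have h2 : (l : E) • lft (y : Wq (T2 T)) ∈ T2 T := lft_one y
  have h3 := h.val hl ht h1.1 h2.2 (a := 1) (by rw [norm_one])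
  rw [one_mul, one_mul] at h3
  rw [bil_B, bil_B]
  exact h3

end two

end Pool.Agent.Work.MP_787500_nt.CP
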