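import Mathlib
import Pool.Agent.Work.MP_787500_nt.CP.Lev
import Pool.Agent.Work.MP_787500_nt.QU.UrV
import Pool.Agent.Work.MP_787500_nt.QS.KQ

/-!
A place that does not split: an isomorphism of the two representations of the local group of `K`, congruent to 1,
gives the same local condition at the level 1.
-/

set_option autoImplicit false
set_option linter.unusedSectionVars false

namespace Pool.Agent.Work.MP_787500_nt.CP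

open Matrix
open Pool.Agent.Work.MP_787500_nt.GP (A0 OE MN actN actQ bil mq lft mq_lft mq_eq mq_smul Wq Lat pr0 lamN cup11)
open Pool.Agent.Work.MP_787500_nt.KR (FSys ZV zV Z1)
open Pool.Agent.Work.MP_787500_nt.QS (Two Lag pB)
open Pool.Agent.Work.MP_787500_nt.QV
open Pool.Agent.Work.MP_787500_nt.QU (urV mem_urV)
open Pool.Agent.Work.MP_787500_nt.PA (toE)

/-- two Lagrangian conditions, one contained in the other, are equal -/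
theorem lag_eq {X : Type*} [Group X] {TX : FSys X} {iv : (X → X → A0) → A0} {O : Type*} [CommRing O]
    {V : Type*} [AddCommGroup V] [Module O V] {σ : X → V → V} {β : V →+ V →+ A0}
    {la : O → X → V → A0} {Y Y' : Submodule O (X → V)} (hY : Lag TX iv σ β la Y)
    (hY' : Lag TX iv σ β la Y') (hle : Y ≤ Y') : Y = Y' :=
  le_antisymm hle fun x hx => (hY.self x (hY'.coc x hx)).2 fun y hy =>
    ((hY'.self x (hY'.coc x hx)).1 hx) y (hle hy)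

variable {E : Type*} [NormedField E] [NormedAlgebra ℚ_[2] E] {n : ℕ}

theorem mulVec_bd {m : ℕ} (A : Matrix (Fin m) (Fin m) E) :
    ∃ C : ℝ, 0 < C ∧ ∀ v : Fin m → E, ‖A *ᵥ v‖ ≤ C * ‖v‖ := by
  have h0 : 0 ≤ ∑ i, ∑ j, ‖A i j‖ := Finset.sum_nonneg fun i _ =>
    Finset.sum_nonneg fun j _ => norm_nonneg _
  refine ⟨∑ i, ∑ j, ‖A i j‖ + 1, by linarith, fun v => ?_⟩
  refine (pi_norm_le_iff_of_nonneg (mul_nonneg (by linarith) (norm_nonneg v))).2 fun i => ?_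
  show ‖∑ j, A i j * v j‖ ≤ _
  calc ‖∑ j, A i j * v j‖ ≤ ∑ j, ‖A i j * v j‖ := norm_sum_le _ _
    _ ≤ ∑ j, ‖A i j‖ * ‖v‖ := Finset.sum_le_sum fun j _ => by
        rw [norm_mul]
        exact mul_le_mul_of_nonneg_left (norm_le_pi_norm v j) (norm_nonneg _)
    _ = (∑ j, ‖A i j‖) * ‖v‖ := (Finset.sum_mul _ _ _).symm
    _ ≤ (∑ i, ∑ j, ‖A i j‖ + 1) * ‖v‖ := by
        refine mul_le_mul_of_nonneg_right ?_ (norm_nonneg _)
        have h1 : ∑ j, ‖A i j‖ ≤ ∑ i, ∑ j, ‖A i j‖ :=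
          Finset.single_le_sum (f := fun i => ∑ j, ‖A i j‖)
            (fun i _ => Finset.sum_nonneg fun j _ => norm_nonneg _) (Finset.mem_univ i)
        linarith

/-- transport of cocycles by a matrix -/
theorem zv_mul {m : ℕ} {D : Type*} [Group D] {S : FSys D} {A A' : D → Matrix (Fin m) (Fin m) E}
    {W : Matrix (Fin m) (Fin m) E} (h : ∀ d (v : Fin m → E), W *ᵥ (A d *ᵥ v) = A' d *ᵥ (W *ᵥ v))
    {X : D → Fin m → E} (hX : ZV S A X) : ZV S A' (fun d => W *ᵥ X d) := by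
  obtain ⟨C, hC, hb⟩ := mulVec_bd W
  refine ⟨fun ε hε => ?_, fun s t => ?_⟩
  · obtain ⟨V, hV, h1⟩ := hX.1 (ε / C) (div_pos hε hC)
    refine ⟨V, hV, fun g w hw => ?_⟩
    rw [← mulVec_sub]
    refine (hb _).trans_lt ?_
    have h2 := h1 g w hw
    rw [lt_div_iff₀ hC] at h2
    linarith
  · beta_reduce
    rw [hX.2, mulVec_add, h]

theorem urV_mul {m : ℕ} {D : Type*} [Group D] {S : FSys D} {I : Subgroup D}
    {A A' : D → Matrix (Fin m) (Fin m) E}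
    {W : Matrix (Fin m) (Fin m) E} (h : ∀ d (v : Fin m → E), W *ᵥ (A d *ᵥ v) = A' d *ᵥ (W *ᵥ v))
    {X : D → Fin m → E} (hX : X ∈ urV S I A) : (fun d => W *ᵥ X d) ∈ urV S I A' := by
  obtain ⟨h1, v, hv⟩ := mem_urV.1 hX
  refine mem_urV.2 ⟨zv_mul h h1, W *ᵥ v, fun d hd => ?_⟩
  rw [hv d hd, mulVec_sub, h]

/-- at the level 1 -/
theorem lam_le {m : ℕ} {D : Type*} [Group D] {S : FSys D} {I : Subgroup D}
    {A A' : D → Matrix (Fin m) (Fin m) E} {W : Matrix (Fin m) (Fin m) E} {l : OE E}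
    {T : Submodule (OE E) (Fin m → E)} (hl : (l : E) ≠ 0) (hW : Cg l T W 1)
    (h : ∀ d (v : Fin m → E), W *ᵥ (A d *ᵥ v) = A' d *ᵥ (W *ᵥ v)) :
    lamN T l 1 (urV S I A) ≤ lamN T l 1 (urV S I A') := by
  rintro x ⟨X, hX, h1⟩
  refine ⟨_, urV_mul h hX, fun d => ?_⟩
  rw [h1, mq_eq]
  have h2 : (l : E) • X d ∈ T := by
    have h3 := (x d).2
    rw [Submodule.mem_torsionBy_iff, h1, pow_one, ← mq_smul, GP.mq_eq_zero] at h3
    exact h3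
  have h3 := hW.symm.diff hl h2
  rwa [one_mulVec] at h3

section two

variable {G Γ : Type*} [Group G] [Group Γ] {e : G →* Γ} {c : Γ} {κ : G →* G}
  {ρ ρ' : G → Matrix (Fin n) (Fin n) E} {P : Type*} [Group P] {jp : P →* Γ}
  {U : Matrix (Fin n) (Fin n) E}

/-- the isomorphism of `V × V` -/
noncomputable def isoW (ρ ρ' : G → Matrix (Fin n) (Fin n) E) (U : Matrix (Fin n) (Fin n) E) (g₀ : G) :
    Matrix (Fin (n + n)) (Fin (n + n)) E := blk U 0 0 (ρ' g₀⁻¹ * U * ρ g₀)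

theorem v1_W (g₀ : G) (v : Fin (n + n) → E) : v1 (isoW ρ ρ' U g₀ *ᵥ v) = U *ᵥ v1 v := by
  rw [isoW, v1_blk]
  simp

theorem v2_W (g₀ : G) (v : Fin (n + n) → E) :
    v2 (isoW ρ ρ' U g₀ *ᵥ v) = ρ' g₀⁻¹ *ᵥ (U *ᵥ (ρ g₀ *ᵥ v2 v)) := by
  rw [isoW, v2_blk]
  simp [mulVec_mulVec, Matrix.mul_assoc]

theorem W_comm (X : Two e c κ) (hm : ∀ s t, ρ (s * t) = ρ s * ρ t)
    (hm' : ∀ s t, ρ' (s * t) = ρ' s * ρ' t)
    (hU : ∀ g, (∃ d, jp d = e g) → ∀ x : Fin n → E, U *ᵥ (ρ g *ᵥ x) = ρ' g *ᵥ (U *ᵥ x)) {g₀ : G}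
    {d₀ : P} (hd₀ : jp d₀ = e g₀ * c) (d : P) (v : Fin (n + n) → E) :
    isoW ρ ρ' U g₀ *ᵥ (rho2 e c κ ρ (jp d) *ᵥ v) =
      rho2 e c κ ρ' (jp d) *ᵥ (isoW ρ ρ' U g₀ *ᵥ v) := by
  have hmv : ∀ s t (x : Fin n → E), ρ s *ᵥ (ρ t *ᵥ x) = ρ (s * t) *ᵥ x := fun s t x => by
    rw [hm, mulVec_mulVec]
  have hmv' : ∀ s t (x : Fin n → E), ρ' s *ᵥ (ρ' t *ᵥ x) = ρ' (s * t) *ᵥ x := fun s t x => by
    rw [hm', mulVec_mulVec]
  -- conjugation by `d₀`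
  have hconj : ∀ k, (∃ d, jp d = e k) → ∃ d, jp d = e (g₀ * κ k * g₀⁻¹) := by
    rintro k ⟨d, hd⟩
    refine ⟨d₀ * d * d₀⁻¹, ?_⟩
    have hci : c⁻¹ = c := inv_eq_of_mul_eq_one_left X.cc
    rw [map_mul, map_mul, map_inv, hd₀, hd, map_mul, map_mul, map_inv, X.kap, _root_.mul_inv_rev, hci]
    group
  have hsq : ∃ d, jp d = e (g₀ * κ g₀) := by
    refine ⟨d₀ * d₀, ?_⟩
    rw [map_mul, hd₀, map_mul, X.kap]
    group
  -- the action of `d₀ * d₀`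
  rcases X.cases (jp d) with ⟨k, hk⟩ | ⟨k, hk⟩
  · rw [← hk]
    apply ap_ext
    · rw [v1_W, v1_rho X, v1_rho X, v1_W]
      exact hU k ⟨d, hk.symm⟩ _
    · rw [v2_W, v2_rho X, v2_rho X, v2_W]
      have e1 : ρ g₀ *ᵥ (ρ (κ k) *ᵥ v2 v) = ρ (g₀ * κ k * g₀⁻¹) *ᵥ (ρ g₀ *ᵥ v2 v) := by
        rw [hmv, hmv, inv_mul_cancel_right]
      rw [e1, hU _ (hconj k ⟨d, hk.symm⟩), hmv', hmv']
      congr 2
      group
  · -- `d = d₁ * d₀`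
    have hk1 : ∃ d, jp d = e (k * g₀⁻¹) := by
      refine ⟨d * d₀⁻¹, ?_⟩
      rw [map_mul, map_inv, ← hk, hd₀, map_mul, map_inv]
      group
    rw [← hk]
    apply ap_ext
    · rw [v1_W, v1_rhoc X, v1_rhoc X, v2_W]
      have e1 : ρ k *ᵥ v2 v = ρ (k * g₀⁻¹) *ᵥ (ρ g₀ *ᵥ v2 v) := by
        rw [hmv, inv_mul_cancel_right]
      rw [e1, hU _ hk1, hmv']
    · rw [v2_W, v2_rhoc X, v2_rhoc X, v1_W]
      have e1 : ∃ d, jp d = e (g₀ * κ k) := by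
        obtain ⟨d₁, hd₁⟩ := hk1
        obtain ⟨d₂, hd₂⟩ := hconj _ ⟨d₁, hd₁⟩
        obtain ⟨d₃, hd₃⟩ := hsq
        refine ⟨d₂ * d₃, ?_⟩
        rw [map_mul, hd₂, hd₃, ← map_mul]
        congr 1
        rw [map_mul, map_inv]
        group
      rw [hmv, hU _ e1, hmv']
      congr 2
      group

theorem W_cg {l : OE E} {T : Submodule (OE E) (Fin n → E)} (h1 : ρ' 1 = 1)
    (hm' : ∀ s t, ρ' (s * t) = ρ' s * ρ' t) (hst : ∀ g, ∀ x ∈ T, ρ g *ᵥ x ∈ T)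
    (hst' : ∀ g, ∀ x ∈ T, ρ' g *ᵥ x ∈ T) (h : ∀ g, Cg l T (ρ g) (ρ' g)) (hU : Cg l T U 1) (g₀ : G) :
    Cg l (T2 T) (isoW ρ ρ' U g₀) 1 := by
  intro v hv
  have hv1 : v1 v ∈ T := hv.1
  have hv2 : v2 v ∈ T := hv.2
  obtain ⟨y, hy, e1⟩ := hU _ hv1
  obtain ⟨z, hz, e2⟩ := hU _ (hst g₀ _ hv2)
  obtain ⟨w, hw, e3⟩ := h g₀ _ hv2
  rw [one_mulVec] at e1 e2
  refine ⟨ap y (ρ' g₀⁻¹ *ᵥ (z + w)), mem_T2.2 ⟨by rwa [v1_ap], by
    rw [v2_ap]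
    exact hst' _ _ (T.add_mem hz hw)⟩, ?_⟩
  rw [one_mulVec]
  apply ap_ext
  · show v1 (isoW ρ ρ' U g₀ *ᵥ v) - v1 v = (l : E) • v1 (ap y (ρ' g₀⁻¹ *ᵥ (z + w)))
    rw [v1_W, v1_ap, e1]
  · show v2 (isoW ρ ρ' U g₀ *ᵥ v) - v2 v = (l : E) • v2 (ap y (ρ' g₀⁻¹ *ᵥ (z + w)))
    have e4 : v2 v = ρ' g₀⁻¹ *ᵥ (ρ' g₀ *ᵥ v2 v) := by
      rw [mulVec_mulVec, ← hm', inv_mul_cancel, h1, one_mulVec]
    have e5 : U *ᵥ (ρ g₀ *ᵥ v2 v) = ρ' g₀ *ᵥ v2 v + (l : E) • (z + w) := by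
      rw [smul_add, ← e2, ← e3]
      abel
    rw [v2_W, v2_ap, e5, mulVec_add, ← e4, mulVec_smul, add_sub_cancel_left]

end two

end Pool.Agent.Work.MP_787500_nt.CP
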