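import Mathlib
import Pool.Agent.Work.MP_787500_nt.GP.F03_Pow

/-!
Counting: even powers of the order of the residue field.
-/

set_option autoImplicit false
set_option linter.unusedSectionVars false

namespace Pool.Agent.Work.MP_787500_nt.CP

open Pool.Agent.Work.MP_787500_nt.GP (EvPow IsPow)

variable {O : Type*} [CommRing O] [IsLocalRing O] [Finite (IsLocalRing.ResidueField O)]
  {M : Type*} [AddCommGroup M] [Module O M]

theorem evp_self (Y : Submodule O M) [Finite Y] :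
    EvPow (Nat.card (IsLocalRing.ResidueField O))
      (Nat.card ↥(Y ⊓ Y) * Nat.card Y * Nat.card (IsLocalRing.ResidueField O) ^ 0) := by
  obtain ⟨y, hy⟩ := GP.card_pow (O := O) Y
  refine ⟨y, ?_⟩
  rw [inf_idem, hy, pow_zero, mul_one, ← pow_add, two_mul]

/-- from the index to the distance -/
theorem ev_of_rel {Y Z : Submodule O M} [Finite Y] {m v : ℕ}
    (h : EvPow (Nat.card (IsLocalRing.ResidueField O))
      ((Z.toAddSubgroup ⊓ Y.toAddSubgroup).relIndex Y.toAddSubgroup * m *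
        Nat.card (IsLocalRing.ResidueField O) ^ v)) :
    ∃ k, m = Nat.card (IsLocalRing.ResidueField O) ^ k ∧
      EvPow (Nat.card (IsLocalRing.ResidueField O))
        (Nat.card ↥(Y ⊓ Z) * Nat.card Y * Nat.card (IsLocalRing.ResidueField O) ^ (v + k)) := by
  have hf : Finite ↥(Y ⊓ Z) := Finite.of_injective (fun x : ↥(Y ⊓ Z) => (⟨x.1, x.2.1⟩ : Y))
    fun x y hxy => Subtype.ext (by simpa using hxy)
  set q := Nat.card (IsLocalRing.ResidueField O) with hq
  have hq1 : 1 < q := Finite.one_lt_card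
  have hq0 : 0 < q := by omega
  have hinj := Nat.pow_right_injective hq1
  obtain ⟨y, hy⟩ := GP.card_pow (O := O) Y
  obtain ⟨z, hz⟩ := GP.card_pow (O := O) ↥(Y ⊓ Z)
  rw [← hq] at hy hz
  have h1 : (Z.toAddSubgroup ⊓ Y.toAddSubgroup).relIndex Y.toAddSubgroup * q ^ z = q ^ y := by
    have h3 := AddSubgroup.relIndex_mul_relIndex (⊥ : AddSubgroup M)
      (Z.toAddSubgroup ⊓ Y.toAddSubgroup) Y.toAddSubgroup bot_le inf_le_right
    rw [AddSubgroup.relIndex_bot_left, AddSubgroup.relIndex_bot_left, mul_comm] at h3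
    have e1 : Nat.card ↥(Z.toAddSubgroup ⊓ Y.toAddSubgroup) = q ^ z := by
      rw [← hz]
      exact Nat.card_congr ⟨fun x => ⟨x.1, x.2.2, x.2.1⟩, fun x => ⟨x.1, x.2.2, x.2.1⟩,
        fun x => rfl, fun x => rfl⟩
    have e2 : Nat.card Y.toAddSubgroup = q ^ y := hy
    rw [e1, e2] at h3
    exact h3
  set r := (Z.toAddSubgroup ⊓ Y.toAddSubgroup).relIndex Y.toAddSubgroup with hr
  have hr0 : r ≠ 0 := by
    intro h0
    rw [h0, zero_mul] at h1
    exact (pow_pos hq0 y).ne h1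
  have hzy : z ≤ y := by
    rw [← Nat.pow_le_pow_iff_right hq1, ← h1]
    exact Nat.le_mul_of_pos_left _ (Nat.pos_of_ne_zero hr0)
  have hrq : r = q ^ (y - z) := Nat.eq_of_mul_eq_mul_right (pow_pos hq0 z) (by
    rw [h1, ← pow_add, Nat.sub_add_cancel hzy])
  obtain ⟨k₀, hk₀⟩ := h
  have hm0 : m ≠ 0 := by
    rintro rfl
    rw [mul_zero, zero_mul] at hk₀
    exact (pow_pos hq0 _).ne hk₀
  have hk1 : m * q ^ (y - z + v) = q ^ (2 * k₀) := by
    rw [← hk₀, hrq, pow_add]
    ring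
  have hle : y - z + v ≤ 2 * k₀ := by
    rw [← Nat.pow_le_pow_iff_right hq1, ← hk1]
    exact Nat.le_mul_of_pos_left _ (Nat.pos_of_ne_zero hm0)
  refine ⟨2 * k₀ - (y - z + v), Nat.eq_of_mul_eq_mul_right (pow_pos hq0 (y - z + v)) (by
    rw [hk1, ← pow_add, Nat.sub_add_cancel hle]), z + k₀, ?_⟩
  rw [hy, hz, ← pow_add, ← pow_add]
  congr 1
  omega

end Pool.Agent.Work.MP_787500_nt.CP
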