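import Mathlib
import Pool.Agent.Work.MP_787500_nt.QU.UrQ

/-!
The dimension of the local condition `urV` at an odd prime is the dimension of the representation.
-/

set_option autoImplicit false
set_option linter.unusedSectionVars false

namespace Pool.Agent.Work.MP_787500_nt.CP

open Matrix NumberField
open Pool.Agent.Work.MP_787500_nt.GP (OE bil Lat stabD)
open Pool.Agent.Work.MP_787500_nt.KR (FSys IsChar ZV zV LocRep IsBig fullC fullD big Opn)
open Pool.Agent.Work.MP_787500_nt.PA (toE cyc)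
open Pool.Agent.Work.MP_787500_nt.LB (TameX fD)
open Pool.Agent.Work.MP_787500_nt.QU
open Pool.Agent.Work.MP_787500_nt.HP

universe u v

variable {Ω : Type u} [Field Ω] [CharZero Ω] [IsAlgClosed Ω]
  {E : Type*} [NormedField E] [NormedAlgebra ℚ_[2] E] [FiniteDimensional ℚ_[2] E] {n : ℕ}

/-- the condition `urV` at an odd prime has dimension `n` -/
theorem finrank_odd (halg : Alg Ω) {l : ℕ} (hl : l.Prime) (h2 : l ≠ 2) {Q : Ideal (𝓞 Ω)}
    (hQ : Q.IsPrime) (hlQ : (l : 𝓞 Ω) ∈ Q) {N : Subgroup (stb Q)} (hN : N.Normal)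
    (hNo : Opn (fullC (stb Q)) N) {A : stb Q → Matrix (Fin n) (Fin n) E} (h1 : A 1 = 1)
    (hm : ∀ s t, A (s * t) = A s * A t)
    (hsm : ∀ ε : ℝ, 0 < ε → ∃ W, (big (fullC (stb Q)) N).mem W ∧
      ∀ w ∈ W, ∀ x : Fin n → E, ‖A w *ᵥ x - x‖ ≤ ε * ‖x‖) :
    FiniteDimensional E (urV (big (fullC (stb Q)) N) ((inr Q).subgroupOf (stb Q)) A) ∧
    Module.finrank E (urV (big (fullC (stb Q)) N) ((inr Q).subgroupOf (stb Q)) A) = n := by
  obtain ⟨K, iF, iN, C, e, hcl, hiso, hcc, I, a, σ, τ, hI, hX⟩ := exists_model halg hl h2 hQ hlQ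
  have hc : CompactSpace C := isCompact_iff_compactSpace.1 hcl.isCompact
  obtain ⟨N', hN'⟩ : ∃ N' : Subgroup C, N' = N.comap e.symm.toMonoidHom := ⟨_, rfl⟩
  have hN'n : N'.Normal := by
    rw [hN']
    infer_instance
  have hNN : ∀ d, e d ∈ N' ↔ d ∈ N := fun d => by
    rw [hN']
    show e.symm (e d) ∈ N ↔ _
    rw [e.symm_apply_apply]
  have hS : ∀ W : Subgroup C, (big (fullC (stb Q)) N).mem (W.comap e.toMonoidHom) ↔
      (big (fullD C) N').mem W := QF.big_iso e hiso hNN
  have hN'o : IsOpen (N' : Set C) := by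
    obtain ⟨W, hW, hWN⟩ := hNo
    obtain ⟨-, -, U, hU, hUW⟩ := mem_symm hiso hW
    refine Subgroup.isOpen_mono (hUW.trans ?_) (hU.preimage continuous_subtype_val)
    rw [hN']
    exact Subgroup.comap_mono hWN
  have hBig : IsBig N' ∅ (big (fullD C) N') := by
    have h3 := KR.isBig_D (N'.map C.subtype) hcl
    have h4 : (N'.map C.subtype).subgroupOf C = N' :=
      Subgroup.comap_map_eq_self_of_injective C.subtype_injective N'
    rwa [h4] at h3
  have hbasis := HP.basis_sub (D := C) (basis_K K)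
  have hA := proRep_of (A := fun d : C => A (e.symm d)) hBig (by
      rw [map_one, h1]) (fun s t => by
      rw [map_mul, hm]) fun ε hε => by
    obtain ⟨W, hW, h3⟩ := hsm ε hε
    exact ⟨_, mem_symm hS hW, fun w hw => h3 _ hw⟩
  have hF := finrank_urV (S := big (fullD C) N') hX hbasis hN'n hN'o hBig hA
  obtain ⟨ψ⟩ := finrank_urV_iso hS (A := fun d => A (e.symm d)) (I := I)
  have e1 : (fun g : stb Q => (fun d : C => A (e.symm d)) (e g)) = A := funext fun g => by
    show A (e.symm (e g)) = A g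
    rw [e.symm_apply_apply]
  rw [e1, hI] at ψ
  have := hF.1
  exact ⟨LinearEquiv.finiteDimensional ψ.symm, by rw [ψ.finrank_eq, hF.2]⟩

end Pool.Agent.Work.MP_787500_nt.CP
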