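import Mathlib
import Pool.Agent.Work.MP_787500_nt.QV.App2
import Pool.Agent.Work.MP_787500_nt.GP.F03_Pow
import Pool.Agent.Work.MP_787500_nt.QL.Lag

/-!
The distance of two Lagrangian conditions of product form at a split place.
-/

set_option autoImplicit false
set_option linter.unusedSectionVars false

namespace Pool.Agent.Work.MP_787500_nt.CP

open Pool.Agent.Work.MP_787500_nt.GP (A0 IsAct d0 d1 d2 tw cup11 EvPow IsPow)
open Pool.Agent.Work.MP_787500_nt.KR (FSys Sm1 Sm2 IsChar Smooth Z1 Z2 B2 LocH Pair LDual zM z1s b1s)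
open Pool.Agent.Work.MP_787500_nt.QS (QM Lag pB pB_apply Zq be2 be2_apply prY)
open Pool.Agent.Work.MP_787500_nt.QV

private theorem ds_card {Z : Type*} [AddCommGroup Z] [Finite Z] (A B : AddSubgroup Z) :
    Nat.card ↥(A ⊔ B) * Nat.card ↥(A ⊓ B) = Nat.card A * Nat.card B := by
  have h1 : B.relIndex (A ⊔ B) = B.relIndex A := AddSubgroup.relIndex_sup_right _ _
  have h2 : B.relIndex (A ⊔ B) * Nat.card B = Nat.card ↥(A ⊔ B) := by
    have h3 := AddSubgroup.relIndex_mul_relIndex (⊥ : AddSubgroup Z) B (A ⊔ B) bot_le le_sup_right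
    rwa [AddSubgroup.relIndex_bot_left, AddSubgroup.relIndex_bot_left, mul_comm] at h3
  have h4 : B.relIndex A * Nat.card ↥(A ⊓ B) = Nat.card A := by
    have h3 := AddSubgroup.relIndex_mul_relIndex (⊥ : AddSubgroup Z) (A ⊓ B) A bot_le inf_le_left
    rwa [AddSubgroup.relIndex_bot_left, AddSubgroup.relIndex_bot_left, mul_comm,
      AddSubgroup.inf_relIndex_left] at h3
  rw [← h2, ← h4, h1]
  ring

section fin

variable {P : Type*} [Group P] {TP : FSys P} {χp : P → ℤ_[2]} {iv : (P → P → A0) → A0}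
  {O : Type*} [CommRing O] {M : Type*} [AddCommGroup M] [Module O M] [Finite M] {σ σ' : P → M → M}
  {b : M →+ M →+ A0}

/-- `A'` is the annihilator of `A`, and `A` contains the coboundaries. -/
structure PerpPair (TP : FSys P) (iv : (P → P → A0) → A0) (σ σ' : P → M → M) (b : M →+ M →+ A0)
    (A A' : Submodule O (P → M)) : Prop where
  cob : ∀ m, d0 σ m ∈ A
  coc : ∀ x ∈ A, Z1 TP σ x
  perp : ∀ y, y ∈ A' ↔ Z1 TP σ' y ∧ ∀ x ∈ A, iv (cup11 σ' b x y) = 0

/-- counting -/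
theorem PerpPair.card (L : LocH TP χp iv) (hp : Pair TP χp σ σ' b) (hl : LDual TP iv σ σ' b)
    {A A' : Submodule O (P → M)} (h : PerpPair TP iv σ σ' b A A') :
    Nat.card A * Nat.card A' =
      Nat.card (z1s TP hp.act') * Nat.card (GP.perpL (QL.zB L hp).flip ⊤) := by
  have f1 : Finite (z1s TP hp.act) := hl.fin
  have f2 : Finite (z1s TP hp.act') := hl.fin'
  have h1 := GP.card_perp (QL.zB L hp) (A.toAddSubgroup.addSubgroupOf (z1s TP hp.act))
    (fun a ha => by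
      obtain ⟨m, hm⟩ := hl.one a.1 a.2 fun y hy => ha ⟨y, hy⟩
      rw [AddSubgroup.mem_addSubgroupOf, hm]
      exact h.cob m)
  have e1 : Nat.card (A.toAddSubgroup.addSubgroupOf (z1s TP hp.act)) = Nat.card A :=
    Nat.card_congr ⟨fun x => ⟨x.1.1, x.2⟩, fun x => ⟨⟨x.1, h.coc _ x.2⟩, x.2⟩,
      fun x => rfl, fun x => rfl⟩
  have e2 : Nat.card (GP.perpL (QL.zB L hp) (A.toAddSubgroup.addSubgroupOf (z1s TP hp.act))) =
      Nat.card A' := by
    refine Nat.card_congr ⟨fun x => ⟨x.1.1, (h.perp _).2 ⟨x.1.2, fun z hz => ?_⟩⟩,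
      fun y => ⟨⟨y.1, ((h.perp _).1 y.2).1⟩, fun a ha => ?_⟩, fun x => rfl, fun x => rfl⟩
    · exact x.2 ⟨z, h.coc z hz⟩ (AddSubgroup.mem_addSubgroupOf.2 hz)
    · exact ((h.perp _).1 y.2).2 a.1 (AddSubgroup.mem_addSubgroupOf.1 ha)
  rw [e1, e2] at h1
  exact h1

/-- the sum of two -/
theorem PerpPair.sup (L : LocH TP χp iv) (hp : Pair TP χp σ σ' b)
    (lin : ∀ g (a : O) m, σ g (a • m) = a • σ g m)
    {A A' B B' : Submodule O (P → M)} (h : PerpPair TP iv σ σ' b A A')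
    (h' : PerpPair TP iv σ σ' b B B') : PerpPair TP iv σ σ' b (A ⊔ B) (A' ⊓ B') where
  cob m := Submodule.mem_sup_left (h.cob m)
  coc x hx := by
    have h1 : A ⊔ B ≤ zM (O := O) TP hp.act lin := sup_le (fun x hx => h.coc x hx)
      fun x hx => h'.coc x hx
    exact h1 hx
  perp y := by
    constructor
    · rintro ⟨h1, h2⟩
      refine ⟨((h.perp y).1 h1).1, fun x hx => ?_⟩
      obtain ⟨u, hu, v, hv, rfl⟩ := Submodule.mem_sup.1 hx
      have h3 := congrFun (congrArg DFunLike.coe (map_add (QL.zB L hp) ⟨u, h.coc u hu⟩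
        ⟨v, h'.coc v hv⟩)) (⟨y, ((h.perp y).1 h1).1⟩ : z1s TP hp.act')
      have h4 := ((h.perp y).1 h1).2 u hu
      have h5 := ((h'.perp y).1 h2).2 v hv
      have h6 : iv (cup11 σ' b (u + v) y) = iv (cup11 σ' b u y) + iv (cup11 σ' b v y) := h3
      rw [h6, h4, h5, add_zero]
    · rintro ⟨h1, h2⟩
      exact ⟨(h.perp y).2 ⟨h1, fun x hx => h2 x (Submodule.mem_sup_left hx)⟩,
        (h'.perp y).2 ⟨h1, fun x hx => h2 x (Submodule.mem_sup_right hx)⟩⟩

/-- THE DISTANCE. -/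
theorem dist_perp [IsLocalRing O] [Finite (IsLocalRing.ResidueField O)] (L : LocH TP χp iv)
    (hp : Pair TP χp σ σ' b) (hl : LDual TP iv σ σ' b)
    (lin : ∀ g (a : O) m, σ g (a • m) = a • σ g m)
    {A A' B B' : Submodule O (P → M)} (h : PerpPair TP iv σ σ' b A A')
    (h' : PerpPair TP iv σ σ' b B B') :
    EvPow (Nat.card (IsLocalRing.ResidueField O))
      (Nat.card ↥(prY B B' ⊓ prY A A') * Nat.card (prY B B') * (Nat.card A * Nat.card B)) := by
  have f1 : Finite (z1s TP hp.act) := hl.fin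
  have f2 : Finite (z1s TP hp.act') := hl.fin'
  have fA : ∀ C C' : Submodule O (P → M), PerpPair TP iv σ σ' b C C' → Finite C ∧ Finite C' :=
    fun C C' hC => ⟨Finite.of_injective (fun x : C => (⟨x.1, hC.coc _ x.2⟩ : z1s TP hp.act))
      fun x y hxy => Subtype.ext (by simpa using hxy),
      Finite.of_injective (fun x : C' => (⟨x.1, ((hC.perp _).1 x.2).1⟩ : z1s TP hp.act'))
      fun x y hxy => Subtype.ext (by simpa using hxy)⟩
  have hs := h.sup L hp lin h'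
  obtain ⟨g1, g2⟩ := fA _ _ h
  obtain ⟨g3, g4⟩ := fA _ _ h'
  obtain ⟨g5, g6⟩ := fA _ _ hs
  have c1 := h.card L hp hl
  have c2 := h'.card L hp hl
  have c3 := hs.card L hp hl
  have pr : ∀ C C' : Submodule O (P → M), Nat.card (prY C C') = Nat.card C * Nat.card C' :=
    fun C C' => by
    rw [← Nat.card_prod]
    exact Nat.card_congr ⟨fun y => (⟨_, y.2.1⟩, ⟨_, y.2.2⟩), fun y => ⟨fun d => (y.1.1 d, y.2.1 d),
      y.1.2, y.2.2⟩, fun y => rfl, fun y => rfl⟩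
  have pi : Nat.card ↥(prY B B' ⊓ prY A A') = Nat.card ↥(A ⊓ B) * Nat.card ↥(A' ⊓ B') := by
    rw [← pr]
    exact Nat.card_congr ⟨fun y => ⟨y.1, ⟨y.2.2.1, y.2.1.1⟩, y.2.2.2, y.2.1.2⟩,
      fun y => ⟨y.1, ⟨y.2.1.2, y.2.2.2⟩, y.2.1.1, y.2.2.1⟩, fun y => rfl, fun y => rfl⟩
  have c4 : Nat.card ↥(A ⊔ B) * Nat.card ↥(A ⊓ B) = Nat.card A * Nat.card B := by
    have h1 := ds_card (A.toAddSubgroup.addSubgroupOf (z1s TP hp.act))
      (B.toAddSubgroup.addSubgroupOf (z1s TP hp.act))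
    have e1 : ∀ C : Submodule O (P → M), (∀ x ∈ C, Z1 TP σ x) →
        Nat.card (C.toAddSubgroup.addSubgroupOf (z1s TP hp.act)) = Nat.card C := fun C hC =>
      Nat.card_congr ⟨fun x => ⟨x.1.1, x.2⟩, fun x => ⟨⟨x.1, hC _ x.2⟩, x.2⟩,
        fun x => rfl, fun x => rfl⟩
    have e2 : A.toAddSubgroup.addSubgroupOf (z1s TP hp.act) ⊔
        B.toAddSubgroup.addSubgroupOf (z1s TP hp.act) =
        (A ⊔ B).toAddSubgroup.addSubgroupOf (z1s TP hp.act) := by
      apply le_antisymm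
      · refine sup_le ?_ ?_
        · exact fun x hx => (le_sup_left : A ≤ A ⊔ B) hx
        · exact fun x hx => (le_sup_right : B ≤ A ⊔ B) hx
      · intro x hx
        obtain ⟨u, hu, v, hv, huv⟩ := Submodule.mem_sup.1 (show x.1 ∈ A ⊔ B from hx)
        refine AddSubgroup.mem_sup.2 ⟨⟨u, h.coc u hu⟩, hu, ⟨v, h'.coc v hv⟩, hv, Subtype.ext huv⟩
    have e3 : A.toAddSubgroup.addSubgroupOf (z1s TP hp.act) ⊓
        B.toAddSubgroup.addSubgroupOf (z1s TP hp.act) =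
        (A ⊓ B).toAddSubgroup.addSubgroupOf (z1s TP hp.act) := rfl
    rw [e2, e3, e1 A h.coc, e1 B h'.coc, e1 _ hs.coc,
      e1 (A ⊓ B) (fun x (hx : x ∈ A ⊓ B) => h.coc x hx.1)] at h1
    exact h1
  have g7 : Finite ↥(A ⊓ B) := Finite.of_injective (fun x : ↥(A ⊓ B) => (⟨x.1, x.2.1⟩ : A))
    fun x y hxy => Subtype.ext (by simpa using hxy)
  obtain ⟨i, hi⟩ := GP.card_pow (O := O) ↥(A ⊓ B)
  obtain ⟨a, ha⟩ := GP.card_pow (O := O) A
  obtain ⟨a', ha'⟩ := GP.card_pow (O := O) A'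
  obtain ⟨x, hx⟩ := GP.card_pow (O := O) B
  obtain ⟨x', hx'⟩ := GP.card_pow (O := O) B'
  obtain ⟨s, hs1⟩ := GP.card_pow (O := O) ↥(A ⊔ B)
  obtain ⟨s', hs2⟩ := GP.card_pow (O := O) ↥(A' ⊓ B')
  have hq : 1 < Nat.card (IsLocalRing.ResidueField O) := Finite.one_lt_card
  have hinj := Nat.pow_right_injective hq
  rw [ha, ha'] at c1
  rw [hx, hx'] at c2
  rw [hs1, hs2] at c3
  rw [hs1, hi, ha, hx] at c4
  have d1 : a + a' = x + x' := hinj (by
    show _ ^ (a + a') = _ ^ (x + x')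
    rw [pow_add, pow_add, c1, c2])
  have d2 : s + s' = x + x' := hinj (by
    show _ ^ (s + s') = _ ^ (x + x')
    rw [pow_add, pow_add, c3, c2])
  have d3 : s + i = a + x := hinj (by
    show _ ^ (s + i) = _ ^ (a + x)
    rw [pow_add, pow_add, c4])
  refine ⟨i + x + x', ?_⟩
  rw [pi, pr, hi, hs2, hx, hx', ha, ← pow_add, ← pow_add, ← pow_add, ← pow_add, ← pow_add]
  congr 1
  omega

end fin

end Pool.Agent.Work.MP_787500_nt.CP
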