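import Mathlib
import Pool.Agent.Work.MP_787500_nt.CP.Lev
import Pool.Agent.Work.MP_787500_nt.CP.DistSp
import Pool.Agent.Work.MP_787500_nt.QU.UrV
import Pool.Agent.Work.MP_787500_nt.QV.Ind
import Pool.Agent.Work.MP_787500_nt.GP.L13_CardN
import Pool.Agent.Work.MP_787500_nt.KR.L12

/-!
Places that split: the distance of `L × L^⊥` and `L' × L'^⊥` at the level 1, for congruent representations; the
condition `urV` is of this form.
-/

set_option autoImplicit false
set_option linter.unusedSectionVars false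

namespace Pool.Agent.Work.MP_787500_nt.CP

open Matrix
open Pool.Agent.Work.MP_787500_nt.GP (A0 IsAct d0 d1 d2 tw cup11 EvPow IsPow OE MN actN actQ bN bil mq lft mq_lft
  mq_eq mq_add mq_smul mq_sub mq_eq_zero Wq Lat pr0 lamN)
open Pool.Agent.Work.MP_787500_nt.KR (FSys Sm1 IsChar Smooth Z1 LocH LocD Pair LDual zM z1s b1s LocRep ZV PerpV
  zV perpSub RN)
open Pool.Agent.Work.MP_787500_nt.QS (QM Lag pB Zq Two ac2 be2 la2 prY)
open Pool.Agent.Work.MP_787500_nt.QV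
open Pool.Agent.Work.MP_787500_nt.QU (urV mem_urV)
open Pool.Agent.Work.MP_787500_nt.PA (toE)

universe v

variable {E : Type v} [NormedField E] [NormedAlgebra ℚ_[2] E] [FiniteDimensional ℚ_[2] E] {n : ℕ}
  {l : OE E} {t : E →ₗ[ℚ_[2]] ℚ_[2]} {T : Submodule (OE E) (Fin n → E)}
  {b b' : Matrix (Fin n) (Fin n) E}
  {P : Type*} [Group P] {TP : FSys P} {χ : P → ℤ_[2]} {iv : (P → P → A0) → A0}
  {r rc r' rc' : P → Matrix (Fin n) (Fin n) E}

/-- the pair of the conditions `L`, `L^⊥` at the level `N` -/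
theorem perpPair (H : LocD.{v} TP χ iv) (hl : Lat b l t T) (hr : LocRep TP χ T b r rc)
    {L : Submodule E (P → Fin n → E)} (hL : ∀ X ∈ L, ZV TP r X)
    (hL0 : ∀ v, (fun d => r d *ᵥ v - v) ∈ L) (N : ℕ) :
    PerpPair TP iv (actN l N r hr.st) (actN l N rc hr.st') (bN hl N) (lamN T l N L)
      (lamN T l N (perpSub TP χ b rc L)) where
  cob m := by
    refine ⟨_, hL0 (lft (m : Wq T)), fun d => ?_⟩
    show ((actN l N r hr.st d m - m : MN T l N) : Wq T) = _
    rw [Submodule.coe_sub, GP.coe_actN, actQ, mq_sub, mq_lft]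
  coc x hx := by
    obtain ⟨Z, hZ, h1⟩ := hx
    exact KR.zv_level hl hr N (hL Z hZ) h1
  perp y := (KR.perp_iff H hl hr hL hL0 y).symm

/-- THE DISTANCE AT A PLACE THAT SPLITS. -/
theorem dist_sp [IsLocalRing (OE E)] (H : LocD.{v} TP χ iv) (hl : Lat b l t T)
    (hl' : Lat b' l t T) (hbb : CgF l T b b')
    (hr : LocRep TP χ T b r rc) (hr' : LocRep TP χ T b' r' rc') (h : ∀ d, Cg l T (r d) (r' d))
    (hc : ∀ d, Cg l T (rc d) (rc' d))
    {L L' : Submodule E (P → Fin n → E)} (hL : ∀ X ∈ L, ZV TP r X)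
    (hL0 : ∀ v, (fun d => r d *ᵥ v - v) ∈ L) (hL' : ∀ X ∈ L', ZV TP r' X)
    (hL0' : ∀ v, (fun d => r' d *ᵥ v - v) ∈ L') [FiniteDimensional E L] [FiniteDimensional E L'] :
    EvPow (Nat.card (IsLocalRing.ResidueField (OE E)))
      (Nat.card ↥(lamN (T2 T) l 1 (spE TP χ b' rc' L') ⊓ lamN (T2 T) l 1 (spE TP χ b rc L)) *
        Nat.card (lamN (T2 T) l 1 (spE TP χ b' rc' L')) *
        Nat.card (IsLocalRing.ResidueField (OE E)) ^
          (Module.finrank E L + Module.finrank E L')) := by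
  have hfin : Finite (MN T l 1) := GP.MN_finite hl 1
  have hres : Finite (IsLocalRing.ResidueField (OE E)) := GP.res_finite
  have p1 := perpPair H hl hr hL hL0 1
  have p2 := perpPair H hl' hr' hL' hL0' 1
  have e1 : actN l 1 r' hr'.st = actN l 1 r hr.st := by
    funext g m
    exact actN_cg hl.lne h hr.st hr'.st g m
  have e2 : actN l 1 rc' hr'.st' = actN l 1 rc hr.st' := by
    funext g m
    exact actN_cg hl.lne hc hr.st' hr'.st' g m
  rw [e1, e2, bN_cg hl hl' hbb] at p2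
  have hp : Pair TP χ (actN l 1 r hr.st) (actN l 1 rc hr.st') (bN hl 1) := KR.pair_MN hl hr 1
  have lin : ∀ g (a : OE E) (m : MN T l 1), actN l 1 r hr.st g (a • m) =
      a • actN l 1 r hr.st g m := fun g a m => Subtype.ext (by
    rw [Submodule.coe_smul, GP.coe_actN, GP.coe_actN, Submodule.coe_smul]
    exact KR.actQ_smul (hr.st g) _ _)
  have key := dist_perp H.toLocH hp (H.ld hp) lin p1 p2
  have c1 := GP.card_lamN hl 1 L fun X hX => KR.zv_bdd (hL X hX)
  have c2 := GP.card_lamN hl' 1 L' fun X hX => KR.zv_bdd (hL' X hX)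
  rw [one_mul] at c1 c2
  rw [c1, c2, ← pow_add] at key
  have ci : Nat.card ↥(lamN (T2 T) l 1 (spE TP χ b' rc' L') ⊓ lamN (T2 T) l 1 (spE TP χ b rc L)) =
      Nat.card ↥(prY (lamN T l 1 L') (lamN T l 1 (perpSub TP χ b' rc' L')) ⊓
        prY (lamN T l 1 L) (lamN T l 1 (perpSub TP χ b rc L))) :=
    Nat.card_congr ⟨fun x => ⟨fun d => isoN T l 1 (x.1 d), lam_prE.1 x.2.1, lam_prE.1 x.2.2⟩,
      fun y => ⟨fun d => (isoN T l 1).symm (y.1 d), lam_prE.2 (by
        simp only [LinearEquiv.apply_symm_apply]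
        exact y.2.1), lam_prE.2 (by
        simp only [LinearEquiv.apply_symm_apply]
        exact y.2.2)⟩, fun x => Subtype.ext (funext fun d => (isoN T l 1).symm_apply_apply _),
      fun y => Subtype.ext (funext fun d => (isoN T l 1).apply_symm_apply _)⟩
  have cj : Nat.card (lamN (T2 T) l 1 (spE TP χ b' rc' L')) =
      Nat.card (prY (lamN T l 1 L') (lamN T l 1 (perpSub TP χ b' rc' L'))) :=
    Nat.card_congr ⟨fun x => ⟨fun d => isoN T l 1 (x.1 d), lam_prE.1 x.2⟩,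
      fun y => ⟨fun d => (isoN T l 1).symm (y.1 d), lam_prE.2 (by
        simp only [LinearEquiv.apply_symm_apply]
        exact y.2)⟩, fun x => Subtype.ext (funext fun d => (isoN T l 1).symm_apply_apply _),
      fun y => Subtype.ext (funext fun d => (isoN T l 1).apply_symm_apply _)⟩
  rw [ci, cj]
  exact key

section two

variable {G Γ : Type*} [Group G] [Group Γ] {e : G →* Γ} {c : Γ} {κ : G →* G}
  {ρ : G → Matrix (Fin n) (Fin n) E} {jp : P →* Γ} {j : P →* G} {I : Subgroup P}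

/-- `urV` for `V × V` at a place that splits -/
theorem ur_prE (X : Two e c κ) (hj : ∀ d, jp d = e (j d)) :
    urV TP I (fun d => rho2 e c κ ρ (jp d)) =
      prE (urV TP I fun d => ρ (j d)) (urV TP I fun d => ρ (κ (j d))) := by
  have e1 : ∀ d (v : Fin (n + n) → E), v1 (rho2 e c κ ρ (jp d) *ᵥ v) = ρ (j d) *ᵥ v1 v :=
    fun d v => by rw [hj, v1_rho X]
  have e2 : ∀ d (v : Fin (n + n) → E), v2 (rho2 e c κ ρ (jp d) *ᵥ v) = ρ (κ (j d)) *ᵥ v2 v :=
    fun d v => by rw [hj, v2_rho X]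
  ext Y
  rw [mem_urV, mem_prE, mem_urV, mem_urV]
  constructor
  · rintro ⟨⟨h1, h2⟩, v, hv⟩
    refine ⟨⟨⟨fun ε hε => ?_, fun s u => ?_⟩, v1 v, fun d hd => ?_⟩,
      ⟨⟨fun ε hε => ?_, fun s u => ?_⟩, v2 v, fun d hd => ?_⟩⟩
    · obtain ⟨W, hW, h3⟩ := h1 ε hε
      refine ⟨W, hW, fun g w hw => lt_of_le_of_lt ?_ (h3 g w hw)⟩
      rw [norm_v (Y (g * w) - Y g)]
      exact le_max_left _ _
    · beta_reduce
      rw [h2, v1_add, e1]
    · rw [hv d hd, v1_sub, e1]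
    · obtain ⟨W, hW, h3⟩ := h1 ε hε
      refine ⟨W, hW, fun g w hw => lt_of_le_of_lt ?_ (h3 g w hw)⟩
      rw [norm_v (Y (g * w) - Y g)]
      exact le_max_right _ _
    · beta_reduce
      rw [h2, v2_add, e2]
    · rw [hv d hd, v2_sub, e2]
  · rintro ⟨⟨⟨h1, h2⟩, v, hv⟩, ⟨⟨h1', h2'⟩, w, hw⟩⟩
    refine ⟨⟨fun ε hε => ?_, fun s u => ?_⟩, ap v w, fun d hd => ?_⟩
    · obtain ⟨W, hW, h3⟩ := h1 ε hε
      obtain ⟨W', hW', h3'⟩ := h1' ε hε
      refine ⟨W ⊓ W', TP.inf hW hW', fun g w hw => ?_⟩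
      rw [norm_v, v1_sub, v2_sub]
      exact max_lt (h3 g w hw.1) (h3' g w hw.2)
    · apply ap_ext
      · rw [v1_add, e1]
        exact h2 s u
      · rw [v2_add, e2]
        exact h2' s u
    · apply ap_ext
      · rw [v1_sub, e1, v1_ap]
        exact hv d hd
      · rw [v2_sub, e2, v2_ap]
        exact hw d hd

/-- the annihilator of the first component -/
theorem ur_perp (X : Two e c κ) (hj : ∀ d, jp d = e (j d)) {χp : P → ℤ_[2]}
    (hV : LagV TP χp (blk 0 b b 0) (J2 E n) (fun d => rho2 e c κ ρ (jp d))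
      (urV TP I fun d => rho2 e c κ ρ (jp d))) :
    urV TP I (fun d => ρ (κ (j d))) = perpSub TP χp b (fun d => ρ (κ (j d)))
      (urV TP I fun d => ρ (j d)) := by
  have h0 := ur_prE (TP := TP) (I := I) (ρ := ρ) X hj
  rw [h0] at hV
  have hbil : ∀ (s : P) (x : Fin (n + n) → E) (y : Fin n → E), bil (blk 0 b b 0) x
      (J2 E n *ᵥ (rho2 e c κ ρ (jp s) *ᵥ ap 0 y)) = bil b (v1 x) (ρ (κ (j s)) *ᵥ y) := by
    intro s x y
    have e3 : v1 (J2 E n *ᵥ (rho2 e c κ ρ (jp s) *ᵥ ap 0 y)) = 0 := by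
      rw [v1_J2, hj, v1_rho X, v1_ap, mulVec_zero, neg_zero]
    have e4 : v2 (J2 E n *ᵥ (rho2 e c κ ρ (jp s) *ᵥ ap 0 y)) = ρ (κ (j s)) *ᵥ y := by
      rw [v2_J2, hj, v2_rho X, v2_ap]
    rw [bil_S, e3, e4]
    have e5 : bil b (v2 x) 0 = 0 := by
      rw [bil, mulVec_zero, dotProduct_zero]
    rw [e5, add_zero]
  have e0 : ∀ (s : P) (v : Fin n → E), rho2 e c κ ρ (jp s) *ᵥ ap 0 v =
      ap 0 (ρ (κ (j s)) *ᵥ v) := fun s v => by
    apply ap_ext
    · rw [hj, v1_rho X, v1_ap, v1_ap, mulVec_zero]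
    · rw [hj, v2_rho X, v2_ap, v2_ap]
  have hz : ∀ y : P → Fin n → E, ZV TP (fun d => ρ (κ (j d))) y ↔
      ZV TP (fun d => rho2 e c κ ρ (jp d)) (fun d => ap 0 (y d)) := by
    intro y
    constructor
    · rintro ⟨h1, h2⟩
      refine ⟨fun ε hε => ?_, fun s u => ?_⟩
      · obtain ⟨W, hW, h3⟩ := h1 ε hε
        refine ⟨W, hW, fun g w hw => ?_⟩
        rw [norm_v, v1_sub, v2_sub, v1_ap, v1_ap, v2_ap, v2_ap, sub_self, norm_zero]
        exact max_lt hε (h3 g w hw)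
      · show ap 0 (y (s * u)) = ap 0 (y s) + rho2 e c κ ρ (jp s) *ᵥ ap 0 (y u)
        rw [e0]
        apply ap_ext
        · rw [v1_add, v1_ap, v1_ap, v1_ap, add_zero]
        · rw [v2_add, v2_ap, v2_ap, v2_ap]
          exact h2 s u
    · rintro ⟨h1, h2⟩
      refine ⟨fun ε hε => ?_, fun s u => ?_⟩
      · obtain ⟨W, hW, h3⟩ := h1 ε hε
        refine ⟨W, hW, fun g w hw => ?_⟩
        have h4 := h3 g w hw
        rw [norm_v, v1_sub, v2_sub, v1_ap, v1_ap, v2_ap, v2_ap, max_lt_iff] at h4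
        exact h4.2
      · have h3 : ap 0 (y (s * u)) = ap 0 (y s) + rho2 e c κ ρ (jp s) *ᵥ ap 0 (y u) := h2 s u
        rw [e0] at h3
        have h4 := congrArg v2 h3
        rw [v2_add, v2_ap, v2_ap, v2_ap] at h4
        exact h4
  have hfst : ∀ y : P → Fin n → E, (fun d => ap (0 : Fin n → E) (y d)) ∈
      prE (urV TP I fun d => ρ (j d)) (urV TP I fun d => ρ (κ (j d))) ↔
      y ∈ urV TP I fun d => ρ (κ (j d)) := by
    intro y
    rw [mem_prE]
    simp only [v1_ap, v2_ap]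
    exact ⟨fun h => h.2, fun h => ⟨Submodule.zero_mem _, h⟩⟩
  ext y
  rw [← hfst]
  constructor
  · intro hy
    have hy1 := hV.coc _ hy
    refine ⟨(hz y).2 hy1, fun x hx => ?_⟩
    have h3 := (hV.self _ hy1).1 hy (fun d => ap (x d) 0) (ap_prE hx (Submodule.zero_mem _))
    have e6 : (fun s u => bil (blk 0 b b 0) ((fun d => ap (x d) (0 : Fin n → E)) s)
        (J2 E n *ᵥ (rho2 e c κ ρ (jp s) *ᵥ (fun d => ap (0 : Fin n → E) (y d)) u))) =
        GP.cupE (fun d => ρ (κ (j d))) b x y := by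
      funext s u
      beta_reduce
      rw [hbil, v1_ap]
      rfl
    rw [e6] at h3
    exact h3
  · rintro ⟨h1, h2⟩
    refine (hV.self _ ((hz y).1 h1)).2 fun Z hZ => ?_
    have h3 := h2 _ hZ.1
    have e6 : (fun s u => bil (blk 0 b b 0) (Z s)
        (J2 E n *ᵥ (rho2 e c κ ρ (jp s) *ᵥ (fun d => ap (0 : Fin n → E) (y d)) u))) =
        GP.cupE (fun d => ρ (κ (j d))) b (fun d => v1 (Z d)) y := by
      funext s u
      beta_reduce
      rw [hbil]
      rfl
    rw [e6]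
    exact h3

/-- `urV` at a place that splits -/
theorem ur_spE (X : Two e c κ) (hj : ∀ d, jp d = e (j d)) {χp : P → ℤ_[2]}
    (hV : LagV TP χp (blk 0 b b 0) (J2 E n) (fun d => rho2 e c κ ρ (jp d))
      (urV TP I fun d => rho2 e c κ ρ (jp d))) :
    urV TP I (fun d => rho2 e c κ ρ (jp d)) =
      spE TP χp b (fun d => ρ (κ (j d))) (urV TP I fun d => ρ (j d)) := by
  rw [ur_prE X hj, spE, ur_perp X hj hV]

end two

end Pool.Agent.Work.MP_787500_nt.CP
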