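import Mathlib
import Pool.Agent.Work.MP_787500_nt.CP.Sp
import Pool.Agent.Work.MP_787500_nt.CP.Cnt
import Pool.Agent.Work.MP_787500_nt.CP.Odd
import Pool.Agent.Work.MP_787500_nt.QW.Par

/-!
Congruent representations: infinity, 2 and the primes that split.
-/

set_option autoImplicit false
set_option linter.unusedSectionVars false

namespace Pool.Agent.Work.MP_787500_nt.CP

open Matrix NumberField
open Pool.Agent.Work.MP_787500_nt.GP (A0 OE bil Lat inT stabD cupE EvPow actN lamN MN)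
open Pool.Agent.Work.MP_787500_nt.KR (FSys IsChar ZV zV LocRep LocD IsBig fullC fullD fullK fullQ big Opn PerpV
  perpSub)
open Pool.Agent.Work.MP_787500_nt.PA (toE cyc)
open Pool.Agent.Work.MP_787500_nt.HP (IsQ Spl IsP inr stb cyQ OpnQ)
open Pool.Agent.Work.MP_787500_nt.KS (iK)
open Pool.Agent.Work.MP_787500_nt.QS (Two Lag)
open Pool.Agent.Work.MP_787500_nt.QV (ind rho2 N1e selK selE selNQ spE prE QRep T2 J2 blk beN laN)
open Pool.Agent.Work.MP_787500_nt.QU (urV mem_urV)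
open Pool.Agent.Work.MP_787500_nt.GA (HQ SQ)
open Pool.Agent.Work.MP_787500_nt.QW (famL Ari ari_inst eSt eSt_symm sysQ)

universe u w

variable {K : Type u} [Field K] [NumberField K] {D : ℕ} {s : K}
  {c : AlgebraicClosure K ≃+* AlgebraicClosure K} {κ : AbsGal K →* AbsGal K} {T : Finset ℕ}
  {P : ℕ → Ideal (𝓞 (AlgebraicClosure K))} {N₀ : Subgroup (AbsGal K)}
  {iv ivF : ∀ w : Option T, (stb (HP.PP P w) → stb (HP.PP P w) → A0) → A0}
  {tr : (((AlgebraicClosure K ≃+* AlgebraicClosure K) → (AlgebraicClosure K ≃+* AlgebraicClosure K) →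
      (AlgebraicClosure K ≃+* AlgebraicClosure K) → A0) ×
      (∀ i : Option (Option T), HQ c P i → HQ c P i → A0)) →+ A0}
  {E : Type w} [NormedField E] [NormedAlgebra ℚ_[2] E] [FiniteDimensional ℚ_[2] E] {n : ℕ}
  {ρ ρ' : AbsGal K →* Matrix (Fin n) (Fin n) E} {b b' : Matrix (Fin n) (Fin n) E}
  {l : OE E} {t : E →ₗ[ℚ_[2]] ℚ_[2]} {L₀ : Submodule (OE E) (Fin n → E)}
  {L L' : Submodule E (stabD (K := K) (P 2) → Fin n → E)}

/-- the two representations -/
structure Cong (N₀ : Subgroup (AbsGal K)) (T : Finset ℕ) (κ : AbsGal K →* AbsGal K)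
    (b b' : Matrix (Fin n) (Fin n) E) (l : OE E) (t : E →ₗ[ℚ_[2]] ℚ_[2])
    (L₀ : Submodule (OE E) (Fin n → E)) (ρ ρ' : AbsGal K →* Matrix (Fin n) (Fin n) E) : Prop where
  cd : Gn.ConjDual 2 N₀ (inT K T) (Parity.cyclo E) κ ρ b
  cd' : Gn.ConjDual 2 N₀ (inT K T) (Parity.cyclo E) κ ρ' b'
  lat : Lat b l t L₀
  lat' : Lat b' l t L₀
  cgf : CgF l L₀ b b'
  st : ∀ g, ∀ x ∈ L₀, ρ g *ᵥ x ∈ L₀
  st' : ∀ g, ∀ x ∈ L₀, ρ' g *ᵥ x ∈ L₀
  cg : ∀ g, Cg l L₀ (ρ g) (ρ' g)

theorem Cong.symm (C : Cong N₀ T κ b b' l t L₀ ρ ρ') : Cong N₀ T κ b' b l t L₀ ρ' ρ :=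
  ⟨C.cd', C.cd, C.lat', C.lat, C.cgf.symm, C.st', C.st, fun g => (C.cg g).symm⟩

/-- between the coboundaries and the cocycles at 2 -/
structure Mid (P : ℕ → Ideal (𝓞 (AlgebraicClosure K))) (ρ : AbsGal K →* Matrix (Fin n) (Fin n) E)
    (L : Submodule E (stabD (K := K) (P 2) → Fin n → E)) : Prop where
  le : L ≤ Parity.cocycles (fun σ : stabD (K := K) (P 2) => ρ σ)
  ge : Parity.coboundaries (fun σ : stabD (K := K) (P 2) => ρ σ) ≤ L

/-- the homomorphism of a decomposition group over the rational numbers to the group of `K` -/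
noncomputable def jl {Q : Ideal (𝓞 (AlgebraicClosure K))} (h : stb Q ≤ (iK K).range) :
    stb Q →* AbsGal K :=
  (stabD (K := K) Q).subtype.comp (eSt h).symm.toMonoidHom

theorem jl_e {Q : Ideal (𝓞 (AlgebraicClosure K))} (h : stb Q ≤ (iK K).range) (d : stb Q) :
    ((d : stb Q) : AlgebraicClosure K ≃+* AlgebraicClosure K) = iK K (jl h d) := (eSt_symm h d).symm

section two

variable (I : QU.Inst.{u, w} s c κ D T P N₀ iv ivF tr)

include I

theorem jl_cont {v : Option T} (h : stb (HP.PP P v) ≤ (iK K).range) (W : Subgroup (AbsGal K))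
    (hW : (big (fullK (K := K) T) N₀).mem W) :
    ∃ W', (SQ c P (N₀.map (iK K)) (some v)).mem W' ∧ ∀ w ∈ W', jl h w ∈ W := by
  obtain ⟨V, hV, h1⟩ := I.up hW
  obtain ⟨V', hV', h2⟩ := I.jsm (some v) V hV
  refine ⟨V', hV', fun w hw => ?_⟩
  obtain ⟨g, hg, h3⟩ := h1 _ (h2 w hw)
  have h4 : GA.jQ c P (some v) w = iK K (jl h w) := jl_e h w
  rw [h4] at h3
  rwa [← HP.emb_inj _ h3]

/-- the local representation over `K` -/
theorem rep_jl {v : Option T} (h : stb (HP.PP P v) ≤ (iK K).range)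
    (C : Cong N₀ T κ b b' l t L₀ ρ ρ') :
    LocRep (SQ c P (N₀.map (iK K)) (some v)) (fun d => cyc (jl h d)) L₀ b (fun d => ρ (jl h d))
      (fun d => ρ (κ (jl h d))) :=
  QV.locRep_j (j := jl h) ((ari_inst I).rep C.cd C.st) (jl_cont I h)

theorem locD_jl {v : Option T} (h : stb (HP.PP P v) ≤ (iK K).range) :
    LocD.{w} (SQ c P (N₀.map (iK K)) (some v)) (fun d => cyc (jl h d)) (GA.iQ c P ivF (some v)) := by
  have e2 : (fun d : stb (HP.PP P v) => cyQ (GA.jQ c P (some v) d)) = fun d => cyc (jl h d) := by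
    funext d
    have h4 : GA.jQ c P (some v) d = iK K (jl h d) := jl_e h d
    rw [h4, HP.cyQ_emb]
  have HL' := I.locD.{u, w, w} (some v)
  exact e2 ▸ HL'

/-- THE DISTANCE AT A PLACE THAT SPLITS. -/
theorem dist_w [IsLocalRing (OE E)] {v : Option T} (h : stb (HP.PP P v) ≤ (iK K).range)
    (C : Cong N₀ T κ b b' l t L₀ ρ ρ')
    {M M' : Submodule E (HQ c P (some v) → Fin n → E)}
    (hM : ∀ X ∈ M, ZV (SQ c P (N₀.map (iK K)) (some v)) (fun d => ρ (jl h d)) X)
    (hM0 : ∀ x, (fun d => ρ (jl h d) *ᵥ x - x) ∈ M)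
    (hM' : ∀ X ∈ M', ZV (SQ c P (N₀.map (iK K)) (some v)) (fun d => ρ' (jl h d)) X)
    (hM0' : ∀ x, (fun d => ρ' (jl h d) *ᵥ x - x) ∈ M') :
    EvPow (Nat.card (IsLocalRing.ResidueField (OE E)))
      (Nat.card ↥(lamN (T2 L₀) l 1 (spE (SQ c P (N₀.map (iK K)) (some v)) (fun d => cyc (jl h d)) b
          (fun d => ρ (κ (jl h d))) M) ⊓
        lamN (T2 L₀) l 1 (spE (SQ c P (N₀.map (iK K)) (some v)) (fun d => cyc (jl h d)) b'
          (fun d => ρ' (κ (jl h d))) M')) *
        Nat.card (lamN (T2 L₀) l 1 (spE (SQ c P (N₀.map (iK K)) (some v)) (fun d => cyc (jl h d)) b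
          (fun d => ρ (κ (jl h d))) M)) *
        Nat.card (IsLocalRing.ResidueField (OE E)) ^
          (Module.finrank E M' + Module.finrank E M)) := by
  have hr := rep_jl I h C
  have hr' := rep_jl I h C.symm
  have HL := locD_jl I h
  have f1 : FiniteDimensional E (zV (SQ c P (N₀.map (iK K)) (some v)) (fun d => ρ (jl h d))) :=
    KR.zV_fd HL.gens hr.one hr.mul
  have f2 : FiniteDimensional E (zV (SQ c P (N₀.map (iK K)) (some v)) (fun d => ρ' (jl h d))) :=
    KR.zV_fd HL.gens hr'.one hr'.mul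
  have g1 : FiniteDimensional E M := by
    have h2 : M ≤ zV (SQ c P (N₀.map (iK K)) (some v)) (fun d => ρ (jl h d)) := hM
    exact Submodule.finiteDimensional_of_le h2
  have g2 : FiniteDimensional E M' := by
    have h2 : M' ≤ zV (SQ c P (N₀.map (iK K)) (some v)) (fun d => ρ' (jl h d)) := hM'
    exact Submodule.finiteDimensional_of_le h2
  exact dist_sp HL C.lat' C.lat C.cgf.symm hr' hr (fun d => (C.cg _).symm)
    (fun d => (C.cg _).symm) hM' hM0' hM hM0

/-- THE PLACE 2. -/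
theorem dist_two [IsLocalRing (OE E)] (C : Cong N₀ T κ b b' l t L₀ ρ ρ') (hL : Mid P ρ L)
    (hL' : Mid P ρ' L') :
    EvPow (Nat.card (IsLocalRing.ResidueField (OE E)))
      (Nat.card ↥(lamN (T2 L₀) l 1 (famL c κ T P N₀ ρ b (ari_inst I).h2 L (some none)) ⊓
        lamN (T2 L₀) l 1 (famL c κ T P N₀ ρ' b' (ari_inst I).h2 L' (some none))) *
        Nat.card (lamN (T2 L₀) l 1 (famL c κ T P N₀ ρ b (ari_inst I).h2 L (some none))) *
        Nat.card (IsLocalRing.ResidueField (OE E)) ^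
          (Module.finrank E L' + Module.finrank E L)) := by
  have hA := ari_inst I
  have e1 : ∀ M : Submodule E (stabD (K := K) (P 2) → Fin n → E),
      Module.finrank E (M.comap (LinearMap.funLeft E (Fin n → E) (eSt hA.h2))) =
        Module.finrank E M := fun M => by
    let φ : (stb (P 2) → Fin n → E) ≃ₗ[E] (stabD (K := K) (P 2) → Fin n → E) :=
      LinearEquiv.funCongrLeft E (Fin n → E) (eSt hA.h2).toEquiv
    exact (LinearEquiv.ofSubmodule' φ M).finrank_eq
  have key := dist_w I (v := none) hA.h2 C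
    (M := L.comap (LinearMap.funLeft E (Fin n → E) (eSt hA.h2)))
    (M' := L'.comap (LinearMap.funLeft E (Fin n → E) (eSt hA.h2)))
    (QW.zv_two hA C.cd hL.le) (fun v => by
      show (fun d : stabD (K := K) (P 2) => ρ (((eSt hA.h2).symm (eSt hA.h2 d) :
        stabD (K := K) (P 2)) : AbsGal K) *ᵥ v - v) ∈ L
      simp only [(eSt hA.h2).symm_apply_apply]
      exact hL.ge ⟨v, fun d => rfl⟩)
    (QW.zv_two hA C.cd' hL'.le) (fun v => by
      show (fun d : stabD (K := K) (P 2) => ρ' (((eSt hA.h2).symm (eSt hA.h2 d) :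
        stabD (K := K) (P 2)) : AbsGal K) *ᵥ v - v) ∈ L'
      simp only [(eSt hA.h2).symm_apply_apply]
      exact hL'.ge ⟨v, fun d => rfl⟩)
  have e2 := e1 L
  have e3 := e1 L'
  have key2 : EvPow (Nat.card (IsLocalRing.ResidueField (OE E)))
      (Nat.card ↥(lamN (T2 L₀) l 1 (famL c κ T P N₀ ρ b (ari_inst I).h2 L (some none)) ⊓
        lamN (T2 L₀) l 1 (famL c κ T P N₀ ρ' b' (ari_inst I).h2 L' (some none))) *
        Nat.card (lamN (T2 L₀) l 1 (famL c κ T P N₀ ρ b (ari_inst I).h2 L (some none))) *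
        Nat.card (IsLocalRing.ResidueField (OE E)) ^
          (Module.finrank E (L'.comap (LinearMap.funLeft E (Fin n → E) (eSt hA.h2))) +
            Module.finrank E (L.comap (LinearMap.funLeft E (Fin n → E) (eSt hA.h2))))) := key
  rw [e2, e3] at key2
  exact key2

/-- the condition at a prime that splits -/
theorem fam_spl (C : Cong N₀ T κ b b' l t L₀ ρ ρ') {p : T} (h : stb (P p) ≤ (iK K).range) :
    famL c κ T P N₀ ρ b (ari_inst I).h2 L (some (some p)) =
      spE (SQ c P (N₀.map (iK K)) (some (some p))) (fun d => cyc (jl h d)) b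
        (fun d => ρ (κ (jl h d)))
        (urV (SQ c P (N₀.map (iK K)) (some (some p))) ((inr (P p)).subgroupOf (stb (P p)))
          (fun d => ρ (jl h d))) := by
  have hA := ari_inst I
  have hq := hA.qrep C.cd C.lat C.st I.glob.glob.char.mul
  have hr := QW.locRep_res hq.rep (GA.jsmQ c P (N₀.map (iK K)) (some (some p)))
  have h3 := hA.norQ
  have hV := (QU.lagV_odd (HP.alg_closure K) (hA.hP.prime p p.2) (hA.hP.odd p p.2)
        (hA.hP.isPrime p (Or.inl p.2)) (hA.hP.mem p (Or.inl p.2)) inferInstance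
        (GA.opn_fullC hA.opnQ _) hr hq.jj (QU.lat_det hq.lat)).1
  have e2 : (fun d : stb (P p) => cyQ ((d : stb (P p)) : AlgebraicClosure K ≃+* AlgebraicClosure K)) =
      fun d => cyc (jl h d) := by
    funext d
    rw [jl_e h, HP.cyQ_emb]
  rw [e2] at hV
  exact ur_spE (jp := GA.jQ c P (some (some p))) (j := jl h) hA.two (fun d => jl_e h d) hV

/-- THE PRIMES THAT SPLIT. -/
theorem dist_spl [IsLocalRing (OE E)] (C : Cong N₀ T κ b b' l t L₀ ρ ρ') {p : T}
    (h : stb (P p) ≤ (iK K).range) :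
    EvPow (Nat.card (IsLocalRing.ResidueField (OE E)))
      (Nat.card ↥(lamN (T2 L₀) l 1 (famL c κ T P N₀ ρ b (ari_inst I).h2 L (some (some p))) ⊓
        lamN (T2 L₀) l 1 (famL c κ T P N₀ ρ' b' (ari_inst I).h2 L' (some (some p)))) *
        Nat.card (lamN (T2 L₀) l 1 (famL c κ T P N₀ ρ b (ari_inst I).h2 L (some (some p)))) *
        Nat.card (IsLocalRing.ResidueField (OE E)) ^ (n + n)) := by
  have hA := ari_inst I
  have hr := rep_jl I (v := some p) h C
  have hr' := rep_jl I (v := some p) h C.symm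
  have h3 := hA.norQ
  have o1 : Module.finrank E (urV (SQ c P (N₀.map (iK K)) (some (some p)))
      ((inr (P p)).subgroupOf (stb (P p))) (fun d => ρ (jl h d))) = n :=
    (finrank_odd (A := fun d : stb (P p) => ρ (jl h d)) (HP.alg_closure K) (hA.hP.prime p p.2) (hA.hP.odd p p.2)
        (hA.hP.isPrime p (Or.inl p.2)) (hA.hP.mem p (Or.inl p.2)) (inferInstance :
          ((N₀.map (iK K)).subgroupOf (stb (P p))).Normal)
        (GA.opn_fullC hA.opnQ _) hr.one hr.mul hr.sm).2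
  have o2 : Module.finrank E (urV (SQ c P (N₀.map (iK K)) (some (some p)))
      ((inr (P p)).subgroupOf (stb (P p))) (fun d => ρ' (jl h d))) = n :=
    (finrank_odd (A := fun d : stb (P p) => ρ' (jl h d)) (HP.alg_closure K) (hA.hP.prime p p.2) (hA.hP.odd p p.2)
        (hA.hP.isPrime p (Or.inl p.2)) (hA.hP.mem p (Or.inl p.2)) (inferInstance :
          ((N₀.map (iK K)).subgroupOf (stb (P p))).Normal)
        (GA.opn_fullC hA.opnQ _) hr'.one hr'.mul hr'.sm).2
  have key := dist_w I (v := some p) h C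
    (M := urV (SQ c P (N₀.map (iK K)) (some (some p))) ((inr (P p)).subgroupOf (stb (P p)))
      (fun d => ρ (jl h d)))
    (M' := urV (SQ c P (N₀.map (iK K)) (some (some p))) ((inr (P p)).subgroupOf (stb (P p)))
      (fun d => ρ' (jl h d))) (fun X hX => hX.1)
    (fun x => ⟨QV.zv_cob C.lat.symm hr x, x, fun d _ => rfl⟩) (fun X hX => hX.1)
    (fun x => ⟨QV.zv_cob C.lat'.symm hr' x, x, fun d _ => rfl⟩)
  rw [fam_spl I C h, fam_spl I C.symm h]
  rw [o1, o2] at key
  exact key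

/-- INFINITY. -/
theorem fam_inf :
    famL c κ T P N₀ ρ b (ari_inst I).h2 L none = famL c κ T P N₀ ρ' b' (ari_inst I).h2 L' none := by
  have X := (ari_inst I).two
  have h1 : ∀ σ : AlgebraicClosure K ≃+* AlgebraicClosure K, σ = iK K 1 * c →
      ∀ v : Fin (n + n) → E, rho2 (iK K) c κ (fun g => ρ g) σ *ᵥ v =
      rho2 (iK K) c κ (fun g => ρ' g) σ *ᵥ v := by
    intro σ hσ v
    rw [hσ]
    apply QV.ap_ext
    · rw [QV.v1_rhoc X, QV.v1_rhoc X, map_one, map_one]
    · rw [QV.v2_rhoc X, QV.v2_rhoc X, map_one κ, map_one, map_one]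
  have h2 : ∀ d : Subgroup.zpowers c,
      rho2 (iK K) c κ (fun g => ρ g) (d : AlgebraicClosure K ≃+* AlgebraicClosure K) =
        rho2 (iK K) c κ (fun g => ρ' g) (d : AlgebraicClosure K ≃+* AlgebraicClosure K) := by
    intro d
    rcases GA.zpowers_two I.hc.sq d with h | h
    · rw [h, OneMemClass.coe_one, QV.rho2_one X (map_one ρ), QV.rho2_one X (map_one ρ')]
    · rw [h]
      exact QV.mat_ext (h1 c (by rw [map_one, one_mul]))
  show zV _ _ = zV _ _
  congr 1
  funext d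
  exact h2 d

end two

end Pool.Agent.Work.MP_787500_nt.CP
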