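import Mathlib
import Pool.Agent.Work.MP_787500_nt.CP.Lev
import Pool.Agent.Work.MP_787500_nt.QL.LagQ
import Pool.Agent.Work.MP_787500_nt.QU.UrV
import Pool.Agent.Work.MP_787500_nt.QV.Ind
import Pool.Agent.Work.MP_787500_nt.GP.F03_Pow
import Pool.Agent.Work.MP_787500_nt.EV.App

/-!
* A place with inertia not contained in the group of `K`, where `V` is unramified over `K`: the condition of level 1 is
  the group of unramified classes.
* An inert place: from the index to the distance.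
-/

set_option autoImplicit false
set_option linter.unusedSectionVars false

namespace Pool.Agent.Work.MP_787500_nt.CP

open Matrix
open Pool.Agent.Work.MP_787500_nt.GP (A0 IsAct d0 cup11 EvPow OE MN actN actQ bil mq lft mq_lft mq_eq mq_smul Wq Lat
  pr0 lamN)
open Pool.Agent.Work.MP_787500_nt.KR (FSys ZV zV Z1 LocH LDual)
open Pool.Agent.Work.MP_787500_nt.QS (Two Lag pB QM)
open Pool.Agent.Work.MP_787500_nt.QL (TameF zur zurM isotropic)
open Pool.Agent.Work.MP_787500_nt.QV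
open Pool.Agent.Work.MP_787500_nt.QU (urV mem_urV)
open Pool.Agent.Work.MP_787500_nt.PA (toE)

/-- a Lagrangian condition contained in the group of unramified classes -/
theorem eq_zur {X : Type*} [Group X] {TX : FSys X} {χ a : X → ℤ_[2]} {σ τ : X} {q : ℕ} {I : Subgroup X}
    {iv : (X → X → A0) → A0} {O : Type*} [CommRing O]
    {V : Type*} [AddCommGroup V] [Module O V] [Finite V] {r : X → V → V} {β : V →+ V →+ A0}
    {la : O → X → V → A0} {Y : Submodule O (X → V)} (hT : TameF TX χ a σ τ q I) (L : LocH TX χ iv)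
    (hq : QM TX χ O r β la) (hY : Lag TX iv r β la Y) (hle : Y ≤ zurM TX I hq.act hq.lin) :
    Y = zurM TX I hq.act hq.lin :=
  le_antisymm hle fun x hx => (hY.self x hx.1).2 fun _ hy => isotropic hT L hq.pair hx (hle hy)

section two

variable {E : Type*} [NormedField E] [NormedAlgebra ℚ_[2] E] {n : ℕ}
  {G Γ : Type*} [Group G] [Group Γ] {e : G →* Γ} {c : Γ} {κ : G →* G}
  {ρ : G → Matrix (Fin n) (Fin n) E} {P : Type*} [Group P] {TP : FSys P} {jp : P →* Γ}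
  {J : Subgroup P} {l : OE E} {T : Submodule (OE E) (Fin n → E)}

/-- THE PLACES WITH INERTIA NOT IN THE GROUP OF `K`. -/
theorem lam_zur (X : Two e c κ) (hm : ∀ s u, ρ (s * u) = ρ s * ρ u)
    (st : ∀ g, ∀ x ∈ T2 T, rho2 e c κ ρ g *ᵥ x ∈ T2 T) {t : P}
    (htJ : t ∈ J) {θ : G} (ht : jp t = e θ * c)
    (hun : ∀ d ∈ J, (∃ g, e g = jp d) → ∀ v : Fin (n + n) → E, rho2 e c κ ρ (jp d) *ᵥ v = v)
    {x : P → MN (T2 T) l 1} (hx : x ∈ lamN (T2 T) l 1 (urV TP J fun d => rho2 e c κ ρ (jp d))) :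
    ∃ m : MN (T2 T) l 1, ∀ d ∈ J,
      x d = d0 (fun d => actN l 1 (rho2 e c κ ρ) st (jp d)) m d := by
  obtain ⟨Z, hZ, hxZ⟩ := hx
  obtain ⟨hZ1, v, hv⟩ := mem_urV.1 hZ
  have hmul : ∀ s u, Z (s * u) = Z s + rho2 e c κ ρ (jp s) *ᵥ Z u := hZ1.2
  have h0 : ∀ d ∈ J, (∃ g, e g = jp d) → Z d = 0 := fun d hd hg => by
    rw [hv d hd]
    show rho2 e c κ ρ (jp d) *ᵥ v - v = 0
    rw [hun d hd hg, sub_self]
  have hcc : c⁻¹ = c := inv_eq_of_mul_eq_one_left X.cc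
  -- the square of `t`
  have htt : ∃ g, e g = jp (t * t) := ⟨θ * κ θ, by
    rw [map_mul, map_mul, ht, X.kap]
    group⟩
  have h2 := hmul t t
  rw [h0 _ (J.mul_mem htJ htJ) htt, ht] at h2
  have k2 : v2 (Z t) = -(ρ (κ θ) *ᵥ v1 (Z t)) := by
    have h3 := congrArg v2 h2
    rw [v2_add, v2_rhoc X] at h3
    exact eq_neg_of_add_eq_zero_left h3.symm
  -- the vector
  have hlt : (l : E) • Z t ∈ T2 T := by
    have h3 := (x t).2
    rw [Submodule.mem_torsionBy_iff, hxZ, pow_one, ← mq_smul, GP.mq_eq_zero] at h3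
    exact h3
  have hw : (l ^ 1 : OE E) • mq (T2 T) (ap (-(v1 (Z t))) 0) = 0 := by
    rw [pow_one, ← mq_smul, GP.mq_eq_zero, mem_T2]
    have h3 : (l : E) • v1 (Z t) ∈ T := hlt.1
    constructor
    · show (l : E) • v1 (ap (-(v1 (Z t))) 0) ∈ T
      rw [v1_ap, smul_neg]
      exact T.neg_mem h3
    · show (l : E) • v2 (ap (-(v1 (Z t))) (0 : Fin n → E)) ∈ T
      rw [v2_ap, smul_zero]
      exact T.zero_mem
  refine ⟨⟨mq (T2 T) (ap (-(v1 (Z t))) 0), (Submodule.mem_torsionBy_iff _ _).2 hw⟩, fun d hd => ?_⟩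
  have key : Z d = rho2 e c κ ρ (jp d) *ᵥ ap (-(v1 (Z t))) 0 - ap (-(v1 (Z t))) 0 := by
    have hzt : Z t = rho2 e c κ ρ (jp t) *ᵥ ap (-(v1 (Z t))) 0 - ap (-(v1 (Z t))) 0 := by
      rw [ht]
      apply ap_ext
      · rw [v1_sub, v1_rhoc X, v2_ap, v1_ap, mulVec_zero, zero_sub, neg_neg]
      · rw [v2_sub, v2_rhoc X, v1_ap, v2_ap, sub_zero, k2, mulVec_neg]
    rcases X.cases (jp d) with ⟨g, hg⟩ | ⟨g, hg⟩
    · rw [h0 d hd ⟨g, hg⟩, hun d hd ⟨g, hg⟩, sub_self]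
    · have e1 : d = t * (t⁻¹ * d) := by group
      have h3 : t⁻¹ * d ∈ J := J.mul_mem (J.inv_mem htJ) hd
      have h4 : ∃ g, e g = jp (t⁻¹ * d) := ⟨κ (θ⁻¹ * g), by
        rw [map_mul jp, map_inv jp, ht, ← hg, X.kap, map_mul, map_inv, _root_.mul_inv_rev, hcc]
        group⟩
      have e2 : rho2 e c κ ρ (jp d) *ᵥ ap (-(v1 (Z t))) 0 =
          rho2 e c κ ρ (jp t) *ᵥ ap (-(v1 (Z t))) 0 := by
        conv_lhs => rw [e1]
        rw [map_mul, rho2_mul X hm, ← mulVec_mulVec, hun _ h3 h4]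
      rw [e2, ← hzt, e1, hmul, h0 _ h3 h4, mulVec_zero, add_zero]
  apply Subtype.ext
  show _ = ((actN l 1 (rho2 e c κ ρ) st (jp d) ⟨mq (T2 T) (ap (-(v1 (Z t))) 0),
    (Submodule.mem_torsionBy_iff _ _).2 hw⟩ - ⟨mq (T2 T) (ap (-(v1 (Z t))) 0),
    (Submodule.mem_torsionBy_iff _ _).2 hw⟩ : MN (T2 T) l 1) : Wq (T2 T))
  rw [hxZ, key, Submodule.coe_sub, GP.coe_actN, GP.actQ_mq (st (jp d)), GP.mq_sub]

end two

end Pool.Agent.Work.MP_787500_nt.CP
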