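import Mathlib
import Pool.Agent.Work.MP_787500_nt.CP.Pl
import Pool.Agent.Work.MP_787500_nt.CP.Iso
import Pool.Agent.Work.MP_787500_nt.CP.Zur
import Pool.Agent.Work.MP_787500_nt.EV.InertQ
import Pool.Agent.Work.MP_787500_nt.KI.LevA

/-!
Congruent representations: the prime divisors of `D` and the inert primes.
-/

set_option autoImplicit false
set_option linter.unusedSectionVars false

namespace Pool.Agent.Work.MP_787500_nt.CP

open Matrix NumberField
open Pool.Agent.Work.MP_787500_nt.GP (A0 IsAct OE bil Lat inT stabD cupE EvPow actN lamN MN pr0)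
open Pool.Agent.Work.MP_787500_nt.KR (FSys IsChar ZV zV LocRep LocD IsBig fullC fullD fullK fullQ big Opn PerpV
  perpSub)
open Pool.Agent.Work.MP_787500_nt.PA (toE cyc)
open Pool.Agent.Work.MP_787500_nt.HP (IsQ Spl IsP inr stb cyQ OpnQ)
open Pool.Agent.Work.MP_787500_nt.KS (iK)
open Pool.Agent.Work.MP_787500_nt.QS (Two Lag QM)
open Pool.Agent.Work.MP_787500_nt.QL (zur zurM TameF)
open Pool.Agent.Work.MP_787500_nt.QV (ind rho2 N1e selK selE selNQ spE prE QRep T2 J2 blk beN laN qm_N)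
open Pool.Agent.Work.MP_787500_nt.QU (urV mem_urV)
open Pool.Agent.Work.MP_787500_nt.GA (HQ SQ)
open Pool.Agent.Work.MP_787500_nt.QW (famL Ari ari_inst eSt eSt_symm sysQ)

universe u w

variable {K : Type u} [Field K] [NumberField K] {D : ℕ} {s : K}
  {c : AlgebraicClosure K ≃+* AlgebraicClosure K} {κ : AbsGal K →* AbsGal K} {T : Finset ℕ}
  {P : ℕ → Ideal (𝓞 (AlgebraicClosure K))} {N₀ : Subgroup (AbsGal K)}
  {iv ivF : ∀ w : Option T, (stb (HP.PP P w) → stb (HP.PP P w) → A0) → A0}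
  {tr : (((AlgebraicClosure K ≃+* AlgebraicClosure K) → (AlgebraicClosure K ≃+* AlgebraicClosure K) →
      (AlgebraicClosure K ≃+* AlgebraicClosure K) → A0) ×
      (∀ i : Option (Option T), HQ c P i → HQ c P i → A0)) →+ A0}
  {E : Type w} [NormedField E] [NormedAlgebra ℚ_[2] E] [FiniteDimensional ℚ_[2] E] {n : ℕ}
  {ρ ρ' : AbsGal K →* Matrix (Fin n) (Fin n) E} {b b' : Matrix (Fin n) (Fin n) E}
  {l : OE E} {t : E →ₗ[ℚ_[2]] ℚ_[2]} {L₀ : Submodule (OE E) (Fin n → E)}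
  {L L' : Submodule E (stabD (K := K) (P 2) → Fin n → E)}

/-- the quadratic representation -/
theorem Cong.qr (C : Cong N₀ T κ b b' l t L₀ ρ ρ') (I : QU.Inst.{u, w} s c κ D T P N₀ iv ivF tr) :
    QRep (sysQ T N₀) cyQ l t (T2 L₀) (blk 0 b 0 0) (blk 0 b b 0) (J2 E n)
      (rho2 (iK K) c κ fun g => ρ g) :=
  (ari_inst I).qrep C.cd C.lat C.st I.glob.glob.char.mul

theorem Cong.qr' (C : Cong N₀ T κ b b' l t L₀ ρ ρ') (I : QU.Inst.{u, w} s c κ D T P N₀ iv ivF tr) :
    QRep (sysQ T N₀) cyQ l t (T2 L₀) (blk 0 b' 0 0) (blk 0 b' b' 0) (J2 E n)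
      (rho2 (iK K) c κ fun g => ρ' g) := C.symm.qr I

/-- the action of level 1 -/
theorem Cong.act1 (C : Cong N₀ T κ b b' l t L₀ ρ ρ') (I : QU.Inst.{u, w} s c κ D T P N₀ iv ivF tr)
    (g : AlgebraicClosure K ≃+* AlgebraicClosure K) (m : MN (T2 L₀) l 1) :
    actN l 1 (rho2 (iK K) c κ fun g => ρ' g) (C.qr' I).rep.st g m =
      actN l 1 (rho2 (iK K) c κ fun g => ρ g) (C.qr I).rep.st g m :=
  actN_cg C.lat.lne (cg2 (ari_inst I).two C.cg) _ _ g m

/-- the correction of level 1 -/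
theorem Cong.la1 (C : Cong N₀ T κ b b' l t L₀ ρ ρ') (I : QU.Inst.{u, w} s c κ D T P N₀ iv ivF tr)
    (a : OE E) (g : AlgebraicClosure K ≃+* AlgebraicClosure K) (m : MN (T2 L₀) l 1) :
    laN cyQ l t (blk 0 b' 0 0) (rho2 (iK K) c κ fun g => ρ' g) (T2 L₀) 1 a g m =
      laN cyQ l t (blk 0 b 0 0) (rho2 (iK K) c κ fun g => ρ g) (T2 L₀) 1 a g m :=
  laN_indep (χ := cyc) (ari_inst I).two (fun g => HP.cyQ_emb _ g) (QW.cyQ_c I.hK I.hc)
    I.glob.glob.char.mul C.lat.symm C.lat'.symm C.lat.lne C.lat.tint C.cgf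
    ((ari_inst I).rep C.cd C.st).dual ((ari_inst I).rep C.cd' C.st').dual a g m

/-- the form of level 1 -/
theorem Cong.be1 (C : Cong N₀ T κ b b' l t L₀ ρ ρ') (I : QU.Inst.{u, w} s c κ D T P N₀ iv ivF tr)
    (x y : MN (T2 L₀) l 1) : beN (C.qr' I) 1 x y = beN (C.qr I) 1 x y :=
  beN_indep C.lat.lne C.lat.tint C.cgf (C.qr I) (C.qr' I) x y

section loc

variable [IsLocalRing (OE E)] (I : QU.Inst.{u, w} s c κ D T P N₀ iv ivF tr)

include I

/-- the conditions of level 1 for the first representation -/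
theorem lag1 (C : Cong N₀ T κ b b' l t L₀ ρ ρ') (hL : Mid P ρ L) (i : Option (Option T)) :
    Lag (SQ c P (N₀.map (iK K)) i) (GA.iQ c P ivF i)
      (fun d => actN l 1 (rho2 (iK K) c κ fun g => ρ g) (C.qr I).rep.st (GA.jQ c P i d))
      (beN (C.qr I) 1)
      (fun a d => laN cyQ l t (blk 0 b 0 0) (rho2 (iK K) c κ fun g => ρ g) (T2 L₀) 1 a
        (GA.jQ c P i d))
      (lamN (T2 L₀) l 1 (famL c κ T P N₀ ρ b (ari_inst I).h2 L i)) :=
  QW.famL_lag (ari_inst I) C.cd C.lat C.st I.glob.glob.char hL.le hL.ge (fun i => I.locD i) 1 i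

/-- the conditions of level 1 for the second representation -/
theorem lag1' (C : Cong N₀ T κ b b' l t L₀ ρ ρ') (hL' : Mid P ρ' L') (i : Option (Option T)) :
    Lag (SQ c P (N₀.map (iK K)) i) (GA.iQ c P ivF i)
      (fun d => actN l 1 (rho2 (iK K) c κ fun g => ρ g) (C.qr I).rep.st (GA.jQ c P i d))
      (beN (C.qr I) 1)
      (fun a d => laN cyQ l t (blk 0 b 0 0) (rho2 (iK K) c κ fun g => ρ g) (T2 L₀) 1 a
        (GA.jQ c P i d))
      (lamN (T2 L₀) l 1 (famL c κ T P N₀ ρ' b' (ari_inst I).h2 L' i)) := by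
  have h3 := lag1 I C.symm hL' i
  have e3 : (fun d => actN l 1 (rho2 (iK K) c κ fun g => ρ' g) (C.qr' I).rep.st (GA.jQ c P i d)) =
      fun d => actN l 1 (rho2 (iK K) c κ fun g => ρ g) (C.qr I).rep.st (GA.jQ c P i d) := by
    funext d m
    exact C.act1 I _ m
  have e4 : (fun (a : OE E) (d : HQ c P i) => laN cyQ l t (blk 0 b' 0 0)
      (rho2 (iK K) c κ fun g => ρ' g) (T2 L₀) 1 a (GA.jQ c P i d)) =
      fun a d => laN cyQ l t (blk 0 b 0 0) (rho2 (iK K) c κ fun g => ρ g) (T2 L₀) 1 a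
        (GA.jQ c P i d) := by
    funext a d m
    exact C.la1 I a _ m
  have e5 : beN (C.qr' I) 1 = beN (C.qr I) 1 := by
    ext x y
    exact C.be1 I x y
  have h4 : Lag (SQ c P (N₀.map (iK K)) i) (GA.iQ c P ivF i)
      (fun d => actN l 1 (rho2 (iK K) c κ fun g => ρ' g) (C.qr' I).rep.st (GA.jQ c P i d))
      (beN (C.qr' I) 1)
      (fun a d => laN cyQ l t (blk 0 b' 0 0) (rho2 (iK K) c κ fun g => ρ' g) (T2 L₀) 1 a
        (GA.jQ c P i d))
      (lamN (T2 L₀) l 1 (famL c κ T P N₀ ρ' b' (ari_inst I).h2 L' i)) := h3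
  rw [e3, e4, e5] at h4
  exact h4

/-- an isomorphism of the local representations over `K` at a prime divisor of `D` -/
theorem dvd_U (C : Cong N₀ T κ b b' l t L₀ ρ ρ') (hL : Mid P ρ L) (hL' : Mid P ρ' L') {p : T}
    (hp : (p : ℕ) ∣ D) {U : Matrix (Fin n) (Fin n) E} (hU : Cg l L₀ U 1)
    (hUg : ∀ g : AbsGal K, iK K g ∈ stb (P p) → U * ρ g = ρ' g * U) :
    lamN (T2 L₀) l 1 (famL c κ T P N₀ ρ b (ari_inst I).h2 L (some (some p))) =
      lamN (T2 L₀) l 1 (famL c κ T P N₀ ρ' b' (ari_inst I).h2 L' (some (some p))) := by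
  have X := (ari_inst I).two
  obtain ⟨θ, hθ⟩ := I.theta (p := p) (Nat.mem_primeFactors.2 ⟨I.prime p, hp, I.hK.sqf.ne_zero⟩)
  refine lag_eq (lag1 I C hL _) (lag1' I C hL' _) ?_
  refine lam_le (W := isoW (fun g => ρ g) (fun g => ρ' g) U θ) C.lat.lne
    (W_cg (map_one ρ') (map_mul ρ') C.st C.st' C.cg hU θ) fun d v => ?_
  refine W_comm (jp := GA.jQ c P (some (some p))) X (map_mul ρ) (map_mul ρ')
    (fun g hg x => ?_) (d₀ := ⟨iK K θ * c, HP.inr_le_stb _ hθ⟩) rfl d v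
  obtain ⟨d', hd'⟩ := hg
  have h1 : iK K g ∈ stb (P p) := by
    rw [← hd']
    exact d'.2
  rw [mulVec_mulVec, mulVec_mulVec, hUg g h1]

/-- the inertia groups are tame -/
theorem tame_p (p : T) : ∃ (a : HQ c P (some (some p)) → ℤ_[2]) (σ τ : HQ c P (some (some p))),
    TameF (SQ c P (N₀.map (iK K)) (some (some p))) (fun d => cyQ (GA.jQ c P (some (some p)) d)) a σ τ
      p ((inr (P p)).subgroupOf (stb (P p))) :=
  QL.exists_tameQ_big (HP.alg_closure K) (I.prime p) (I.odd p) (I.isPrime p) (I.natMem p) _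

/-- the quadratic module of level 1 at a place -/
theorem qm1 (C : Cong N₀ T κ b b' l t L₀ ρ ρ') (i : Option (Option T)) :
    QM (SQ c P (N₀.map (iK K)) i) (fun d => cyQ (GA.jQ c P i d)) (OE E)
      (fun d => actN l 1 (rho2 (iK K) c κ fun g => ρ g) (C.qr I).rep.st (GA.jQ c P i d))
      (beN (C.qr I) 1)
      (fun a d => laN cyQ l t (blk 0 b 0 0) (rho2 (iK K) c κ fun g => ρ g) (T2 L₀) 1 a
        (GA.jQ c P i d)) :=
  (qm_N (C.qr I) I.glob.glob.char 1).comp (I.jsm i)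

/-- the prime divisors of `D` where both representations are unramified -/
theorem dvd_ur (C : Cong N₀ T κ b b' l t L₀ ρ ρ') (hL : Mid P ρ L) {p : T}
    (hp : (p : ℕ) ∣ D) (hun : ∀ g : AbsGal K, iK K g ∈ inr (P p) → ρ g = 1) :
    lamN (T2 L₀) l 1 (famL c κ T P N₀ ρ b (ari_inst I).h2 L (some (some p))) =
      zurM (SQ c P (N₀.map (iK K)) (some (some p))) ((inr (P p)).subgroupOf (stb (P p)))
        (qm1 I C (some (some p))).act (qm1 I C (some (some p))).lin := by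
  have X := (ari_inst I).two
  have hfin : Finite (MN (T2 L₀) l 1) := GP.MN_finite (C.qr I).lat 1
  obtain ⟨a, σ, τ, hT⟩ := tame_p I p
  obtain ⟨θ, hθ⟩ := I.theta (p := p) (Nat.mem_primeFactors.2 ⟨I.prime p, hp, I.hK.sqf.ne_zero⟩)
  have hlag := lag1 I C hL (some (some p))
  refine eq_zur hT (I.locD.{u, w, w} (some (some p))).toLocH (qm1 I C (some (some p))) hlag
    fun x hx => ⟨hlag.coc x hx, ?_⟩
  refine lam_zur (jp := GA.jQ c P (some (some p))) X (map_mul ρ) (C.qr I).rep.st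
    (t := ⟨iK K θ * c, HP.inr_le_stb _ hθ⟩) hθ rfl (fun d hd hg v => ?_) hx
  obtain ⟨g, hg⟩ := hg
  have h1 : iK K g ∈ inr (P p) := by
    rw [hg]
    exact hd
  have h2 := KI.unr_kap I hθ hun h1
  rw [← hg]
  apply QV.ap_ext
  · rw [QV.v1_rho X, hun g h1, one_mulVec]
  · rw [QV.v2_rho X, h2, one_mulVec]

/-- the condition of unramified classes at an inert prime -/
theorem lag_ur (C : Cong N₀ T κ b b' l t L₀ ρ ρ') {p : T} (hp : ¬ (p : ℕ) ∣ D) :
    Lag (SQ c P (N₀.map (iK K)) (some (some p))) (GA.iQ c P ivF (some (some p)))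
      (fun d => actN l 1 (rho2 (iK K) c κ fun g => ρ g) (C.qr I).rep.st
        (GA.jQ c P (some (some p)) d))
      (beN (C.qr I) 1)
      (fun a d => laN cyQ l t (blk 0 b 0 0) (rho2 (iK K) c κ fun g => ρ g) (T2 L₀) 1 a
        (GA.jQ c P (some (some p)) d))
      (zurM (SQ c P (N₀.map (iK K)) (some (some p))) ((inr (P p)).subgroupOf (stb (P p)))
        (qm1 I C (some (some p))).act (qm1 I C (some (some p))).lin) := by
  have X := (ari_inst I).two
  have hfin : Finite (MN (T2 L₀) l 1) := GP.MN_finite (C.qr I).lat 1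
  obtain ⟨a, σ, τ, hT⟩ := tame_p I p
  have HL := I.locD.{u, w, w} (some (some p))
  refine QL.lag_zur hT HL.toLocH (qm1 I C (some (some p)))
    (HL.ld (qm1 I C (some (some p))).pair) fun a d hd v _ => ?_
  obtain ⟨g, hg⟩ := I.le_inr hp (g := GA.jQ c P (some (some p)) d) hd
  show laN cyQ l t (blk 0 b 0 0) (rho2 (iK K) c κ fun g => ρ g) (T2 L₀) 1 a
        (GA.jQ c P (some (some p)) d) v = 0
  rw [← hg, laN, QV.lam2_e (χ := cyc) X (fun g => HP.cyQ_emb _ g)
    ((ari_inst I).rep C.cd C.st).dual, mul_zero, mul_zero, map_zero, map_zero]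

/-- the number of an inert prime -/
theorem dist_inr (C : Cong N₀ T κ b b' l t L₀ ρ ρ') (hL : Mid P ρ L) {p : T} (hp : GA.Inr D p) :
    ∃ k, Nat.card (EV.MI (iK K) (GA.jQ c P (some (some p))) ((inr (P p)).subgroupOf (stb (P p))) l
        C.st) = Nat.card (IsLocalRing.ResidueField (OE E)) ^ k ∧
      EvPow (Nat.card (IsLocalRing.ResidueField (OE E)))
        (Nat.card ↥(lamN (T2 L₀) l 1 (famL c κ T P N₀ ρ b (ari_inst I).h2 L (some (some p))) ⊓
          zurM (SQ c P (N₀.map (iK K)) (some (some p))) ((inr (P p)).subgroupOf (stb (P p)))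
            (qm1 I C (some (some p))).act (qm1 I C (some (some p))).lin) *
          Nat.card (lamN (T2 L₀) l 1 (famL c κ T P N₀ ρ b (ari_inst I).h2 L (some (some p)))) *
          Nat.card (IsLocalRing.ResidueField (OE E)) ^
            (Module.finrank E (EV.VI (iK K) (GA.jQ c P (some (some p)))
              ((inr (P p)).subgroupOf (stb (P p))) fun g => ρ g) + k)) := by
  have X := (ari_inst I).two
  have hfin : Finite (MN (T2 L₀) l 1) := GP.MN_finite (C.qr I).lat 1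
  have hres : Finite (IsLocalRing.ResidueField (OE E)) := GP.res_finite
  have h3 := (ari_inst I).norQ
  have hr := QW.locRep_res (C.qr I).rep (GA.jsmQ c P (N₀.map (iK K)) (some (some p)))
  have hlag := lag1 I C hL (some (some p))
  have hZ : Finite (lamN (T2 L₀) l 1 (famL c κ T P N₀ ρ b (ari_inst I).h2 L (some (some p)))) := by
    have HL := I.locD.{u, w, w} (some (some p))
    have f1 : Finite (KR.z1s (SQ c P (N₀.map (iK K)) (some (some p)))
      (qm1 I C (some (some p))).act) := (HL.ld (qm1 I C (some (some p))).pair).fin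
    exact Finite.of_injective (fun x : lamN (T2 L₀) l 1 (famL c κ T P N₀ ρ b (ari_inst I).h2 L
      (some (some p))) => (⟨x.1, hlag.coc _ x.2⟩ : KR.z1s (SQ c P (N₀.map (iK K)) (some (some p)))
        (qm1 I C (some (some p))).act)) fun x y hxy => Subtype.ext (by simpa using hxy)
  -- the quadratic character
  obtain ⟨W, hW, hW1⟩ := I.esm
  obtain ⟨W', hW', hW1'⟩ := I.jsm (some (some p)) W hW
  have hWe : ∀ d ∈ W', ∃ g, iK K g = GA.jQ c P (some (some p)) d := fun d hd => by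
    have h4 := hW1 1 _ (hW1' d hd)
    rw [one_mul, (KS.ep_zero 1).2 ⟨1, map_one _⟩] at h4
    exact (KS.ep_zero _).1 h4
  have hout : ∃ d, ¬∃ g, iK K g = GA.jQ c P (some (some p)) d := by
    obtain ⟨d, hd⟩ := I.e_inert hp
    refine ⟨d, fun h4 => ?_⟩
    rw [(KS.ep_zero _).2 h4] at hd
    exact zero_ne_one hd
  have key := EV.inert_Q (HP.alg_closure K) (I.prime p) (I.odd p) (I.isPrime p) (I.natMem p)
    (inferInstance : ((N₀.map (iK K)).subgroupOf (stb (P p))).Normal) (I.opnL (some p)) X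
    (jp := GA.jQ c P (some (some p))) C.lat C.st hr
    (fun d hd => I.le_inr hp.2.2.1 (g := GA.jQ c P (some (some p)) d) hd) hW' hWe hout
    (qm1 I C (some (some p))).act
  exact ev_of_rel key

end loc

end Pool.Agent.Work.MP_787500_nt.CP
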