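import Mathlib
import Pool.Agent.Work.MP_787500_nt.CP.Plr
import Pool.Agent.Work.MP_787500_nt.CP.Abs
import Pool.Agent.Work.MP_787500_nt.CP.FDefs
import Pool.Agent.Work.MP_787500_nt.HP.EmbBasic
import Pool.Agent.Work.MP_787500_nt.GA.GlueK

/-!
Congruent representations: the theorem for the arithmetic instance.
-/

set_option autoImplicit false
set_option linter.unusedSectionVars false

namespace Pool.Agent.Work.MP_787500_nt.CP

open Matrix NumberField
open Pool.Agent.Work.MP_787500_nt.GP (A0 IsAct OE bil Lat inT stabD cupE EvPow actN lamN MN pr0)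
open Pool.Agent.Work.MP_787500_nt.KR (FSys IsChar ZV zV LocRep LocD IsBig fullC fullD fullK fullQ big Opn PerpV
  perpSub)
open Pool.Agent.Work.MP_787500_nt.PA (toE cyc)
open Pool.Agent.Work.MP_787500_nt.HP (IsQ Spl IsP inr stb cyQ OpnQ)
open Pool.Agent.Work.MP_787500_nt.KS (iK)
open Pool.Agent.Work.MP_787500_nt.QS (Two Lag QM)
open Pool.Agent.Work.MP_787500_nt.QL (zur zurM TameF)
open Pool.Agent.Work.MP_787500_nt.QV (ind rho2 N1e selK selE selNQ spE prE QRep T2 J2 blk beN laN qm_N)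
open Pool.Agent.Work.MP_787500_nt.QU (urV mem_urV)
open Pool.Agent.Work.MP_787500_nt.GA (HQ SQ)
open Pool.Agent.Work.MP_787500_nt.QW (famL Ari ari_inst eSt eSt_symm sysQ)

universe u w

variable {K : Type u} [Field K] [NumberField K] {D : ℕ} {s : K}
  {c : AlgebraicClosure K ≃+* AlgebraicClosure K} {κ : AbsGal K →* AbsGal K} {T : Finset ℕ}
  {P : ℕ → Ideal (𝓞 (AlgebraicClosure K))} {N₀ : Subgroup (AbsGal K)}
  {iv ivF : ∀ w : Option T, (stb (HP.PP P w) → stb (HP.PP P w) → A0) → A0}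
  {tr : (((AlgebraicClosure K ≃+* AlgebraicClosure K) → (AlgebraicClosure K ≃+* AlgebraicClosure K) →
      (AlgebraicClosure K ≃+* AlgebraicClosure K) → A0) ×
      (∀ i : Option (Option T), HQ c P i → HQ c P i → A0)) →+ A0}
  {E : Type w} [NormedField E] [NormedAlgebra ℚ_[2] E] [FiniteDimensional ℚ_[2] E] {n : ℕ}
  {ρ ρ' : AbsGal K →* Matrix (Fin n) (Fin n) E} {b b' : Matrix (Fin n) (Fin n) E}
  {l : OE E} {t : E →ₗ[ℚ_[2]] ℚ_[2]} {L₀ : Submodule (OE E) (Fin n → E)}
  {L L' : Submodule E (stabD (K := K) (P 2) → Fin n → E)}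

theorem iK_inertia {Q : Ideal (𝓞 (AlgebraicClosure K))} {g : AbsGal K} :
    iK K g ∈ inr Q ↔ g ∈ Q.inertia (AbsGal K) := by
  have h := HP.emb_inr (RingEquiv.refl (AlgebraicClosure K)) (Q := Q) (σ := g)
  rw [GA.pb_refl] at h
  exact h

/-- the dimension of the space of vectors fixed by inertia -/
theorem finrank_VI (p : T) :
    Module.finrank E (EV.VI (iK K) (GA.jQ c P (some (some p))) ((inr (P p)).subgroupOf (stb (P p)))
      fun g => ρ g) = Parity.dimInertia ρ (P p) := by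
  have e : EV.VI (iK K) (GA.jQ c P (some (some p))) ((inr (P p)).subgroupOf (stb (P p)))
      (fun g => ρ g) = Parity.fixedBy (fun σ : (P p).inertia (AbsGal K) => ρ σ) := by
    ext v
    constructor
    · intro h σ
      exact h σ ⟨⟨iK K σ, HP.inr_le_stb _ (iK_inertia.2 σ.2)⟩, iK_inertia.2 σ.2, rfl⟩
    · rintro h g ⟨i, hi, hg⟩
      have h1 : iK K g ∈ inr (P p) := by
        rw [hg]
        exact hi
      exact h ⟨g, iK_inertia.1 h1⟩
  rw [e]
  rfl

open scoped Classical in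
/-- the local numbers -/
noncomputable def dl (P : ℕ → Ideal (𝓞 (AlgebraicClosure K))) (D : ℕ)
    (ρ ρ' : AbsGal K →* Matrix (Fin n) (Fin n) E)
    (L L' : Submodule E (stabD (K := K) (P 2) → Fin n → E)) : Option (Option T) → ℕ
  | none => 0
  | some none => Module.finrank E L + Module.finrank E L'
  | some (some p) => if Parity.Inert D p then
      Parity.dimInertia ρ (P p) + Parity.dimInertia ρ' (P p) else 0

/-- the hypothesis at the prime divisors of `D` -/
def HDvd (P : ℕ → Ideal (𝓞 (AlgebraicClosure K))) (D : ℕ) (T : Finset ℕ)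
    (ρ ρ' : AbsGal K →* Matrix (Fin n) (Fin n) E) (l : OE E)
    (L₀ : Submodule (OE E) (Fin n → E)) : Prop :=
  ∀ p ∈ T, p ∣ D → ((∀ g : AbsGal K, iK K g ∈ inr (P p) → ρ g = 1) ∧
      ∀ g : AbsGal K, iK K g ∈ inr (P p) → ρ' g = 1) ∨
    ∃ U : Matrix (Fin n) (Fin n) E, Cg l L₀ U 1 ∧
      ∀ g : AbsGal K, iK K g ∈ stb (P p) → U * ρ g = ρ' g * U

section loc

variable [IsLocalRing (OE E)] (I : QU.Inst.{u, w} s c κ D T P N₀ iv ivF tr)

include I

theorem fin_lam (C : Cong N₀ T κ b b' l t L₀ ρ ρ') (hL : Mid P ρ L) (i : Option (Option T)) :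
    Finite (lamN (T2 L₀) l 1 (famL c κ T P N₀ ρ b (ari_inst I).h2 L i)) := by
  have hfin : Finite (MN (T2 L₀) l 1) := GP.MN_finite (C.qr I).lat 1
  have hlag := lag1 I C hL i
  have HL := I.locD.{u, w, w} i
  have f1 : Finite (KR.z1s (SQ c P (N₀.map (iK K)) i) (qm1 I C i).act) :=
    (HL.ld (qm1 I C i).pair).fin
  exact Finite.of_injective (fun x : lamN (T2 L₀) l 1 (famL c κ T P N₀ ρ b (ari_inst I).h2 L
    i) => (⟨x.1, hlag.coc _ x.2⟩ : KR.z1s (SQ c P (N₀.map (iK K)) i)
      (qm1 I C i).act)) fun x y hxy => Subtype.ext (by simpa using hxy)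

theorem zur_eq (C : Cong N₀ T κ b b' l t L₀ ρ ρ') (p : T) :
    zurM (SQ c P (N₀.map (iK K)) (some (some p))) ((inr (P p)).subgroupOf (stb (P p)))
        (qm1 I C.symm (some (some p))).act (qm1 I C.symm (some (some p))).lin =
      zurM (SQ c P (N₀.map (iK K)) (some (some p))) ((inr (P p)).subgroupOf (stb (P p)))
        (qm1 I C (some (some p))).act (qm1 I C (some (some p))).lin := by
  have e3 : (fun d => actN l 1 (rho2 (iK K) c κ fun g => ρ' g) (C.qr' I).rep.st
      (GA.jQ c P (some (some p)) d)) =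
      fun d => actN l 1 (rho2 (iK K) c κ fun g => ρ g) (C.qr I).rep.st
        (GA.jQ c P (some (some p)) d) := by
    funext d m
    exact C.act1 I _ m
  ext x
  show KR.Z1 _ _ x ∧ _ ↔ KR.Z1 _ _ x ∧ _
  rw [← e3]

/-- THE PLACES. -/
theorem loc_ex (C : Cong N₀ T κ b b' l t L₀ ρ ρ') (hL : Mid P ρ L) (hL' : Mid P ρ' L')
    (hd : HDvd P D T ρ ρ' l L₀) (i : Option (Option T)) :
    ∃ (Y0 : Submodule (OE E) (HQ c P i → MN (T2 L₀) l 1)) (d d' : ℕ),
      Lag (SQ c P (N₀.map (iK K)) i) (GA.iQ c P ivF i)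
        (fun d => actN l 1 (rho2 (iK K) c κ fun g => ρ g) (C.qr I).rep.st (GA.jQ c P i d))
        (beN (C.qr I) 1)
        (fun a d => laN cyQ l t (blk 0 b 0 0) (rho2 (iK K) c κ fun g => ρ g) (T2 L₀) 1 a
          (GA.jQ c P i d)) Y0 ∧
      EvPow (Nat.card (IsLocalRing.ResidueField (OE E)))
        (Nat.card ↥(lamN (T2 L₀) l 1 (famL c κ T P N₀ ρ b (ari_inst I).h2 L i) ⊓ Y0) *
          Nat.card (lamN (T2 L₀) l 1 (famL c κ T P N₀ ρ b (ari_inst I).h2 L i)) *
          Nat.card (IsLocalRing.ResidueField (OE E)) ^ d) ∧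
      EvPow (Nat.card (IsLocalRing.ResidueField (OE E)))
        (Nat.card ↥(lamN (T2 L₀) l 1 (famL c κ T P N₀ ρ' b' (ari_inst I).h2 L' i) ⊓ Y0) *
          Nat.card (lamN (T2 L₀) l 1 (famL c κ T P N₀ ρ' b' (ari_inst I).h2 L' i)) *
          Nat.card (IsLocalRing.ResidueField (OE E)) ^ d') ∧
      Even (d + d' + dl (T := T) P D ρ ρ' L L' i) := by
  classical
  have hres : Finite (IsLocalRing.ResidueField (OE E)) := GP.res_finite
  have f1 := fin_lam I C hL
  have f2 := fin_lam I C.symm hL'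
  -- equal conditions
  have same : ∀ i, lamN (T2 L₀) l 1 (famL c κ T P N₀ ρ b (ari_inst I).h2 L i) =
      lamN (T2 L₀) l 1 (famL c κ T P N₀ ρ' b' (ari_inst I).h2 L' i) → Even (dl (T := T) P D ρ ρ' L L' i) →
      ∃ (Y0 : Submodule (OE E) (HQ c P i → MN (T2 L₀) l 1)) (d d' : ℕ),
      Lag (SQ c P (N₀.map (iK K)) i) (GA.iQ c P ivF i)
        (fun d => actN l 1 (rho2 (iK K) c κ fun g => ρ g) (C.qr I).rep.st (GA.jQ c P i d))
        (beN (C.qr I) 1)
        (fun a d => laN cyQ l t (blk 0 b 0 0) (rho2 (iK K) c κ fun g => ρ g) (T2 L₀) 1 a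
          (GA.jQ c P i d)) Y0 ∧
      EvPow (Nat.card (IsLocalRing.ResidueField (OE E)))
        (Nat.card ↥(lamN (T2 L₀) l 1 (famL c κ T P N₀ ρ b (ari_inst I).h2 L i) ⊓ Y0) *
          Nat.card (lamN (T2 L₀) l 1 (famL c κ T P N₀ ρ b (ari_inst I).h2 L i)) *
          Nat.card (IsLocalRing.ResidueField (OE E)) ^ d) ∧
      EvPow (Nat.card (IsLocalRing.ResidueField (OE E)))
        (Nat.card ↥(lamN (T2 L₀) l 1 (famL c κ T P N₀ ρ' b' (ari_inst I).h2 L' i) ⊓ Y0) *
          Nat.card (lamN (T2 L₀) l 1 (famL c κ T P N₀ ρ' b' (ari_inst I).h2 L' i)) *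
          Nat.card (IsLocalRing.ResidueField (OE E)) ^ d') ∧
      Even (d + d' + dl (T := T) P D ρ ρ' L L' i) := by
    intro i he hev
    refine ⟨_, 0, 0, lag1 I C hL i, evp_self _, ?_, by simpa using hev⟩
    rw [← he]
    exact evp_self _
  match i with
  | none =>
    refine same none ?_ ⟨0, rfl⟩
    rw [fam_inf I (ρ := ρ) (ρ' := ρ') (b := b) (b' := b') (L := L) (L' := L')]
  | some none =>
    refine ⟨_, Module.finrank E L' + Module.finrank E L, 0, lag1' I C hL' (some none),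
      dist_two I C hL hL', evp_self _, ?_⟩
    show Even (Module.finrank E L' + Module.finrank E L + 0 +
      (Module.finrank E L + Module.finrank E L'))
    exact ⟨Module.finrank E L + Module.finrank E L', by ring⟩
  | some (some p) =>
    rcases I.kinds p with hp | hp | hp
    · -- the prime splits
      have h : stb (P p) ≤ (iK K).range := fun g hg => by
        obtain ⟨m, hm⟩ := I.le_spl hp ⟨g, hg⟩
        exact ⟨m, hm⟩
      refine ⟨_, n + n, 0, lag1' I C hL' (some (some p)), dist_spl I C h, evp_self _, ?_⟩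
      have h1 : ¬ Parity.Inert D p := fun h2 => by
        obtain ⟨A, hA⟩ := hp.2.2.2
        exact h2 A hA
      show Even (n + n + 0 + if Parity.Inert D p then _ else 0)
      rw [if_neg h1]
      exact ⟨n, by ring⟩
    · -- the prime divides `D`
      have h1 : ¬ Parity.Inert D p := fun h2 => h2 0 (by
        rw [zero_pow two_ne_zero, zero_add]
        exact_mod_cast hp)
      have hev : Even (dl (T := T) P D ρ ρ' L L' (some (some p))) := by
        show Even (if Parity.Inert D p then _ else 0)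
        rw [if_neg h1]
        exact ⟨0, rfl⟩
      rcases hd p p.2 hp with ⟨h2, h3⟩ | ⟨U, hU, hUg⟩
      · refine same _ ?_ hev
        rw [dvd_ur I C hL hp h2, dvd_ur I C.symm hL' hp h3, zur_eq I C p]
      · exact same _ (dvd_U I C hL hL' hp hU hUg) hev
    · -- the prime is inert
      obtain ⟨k, hk, hev⟩ := dist_inr I C hL hp
      obtain ⟨k', hk', hev'⟩ := dist_inr I C.symm hL' hp
      have hq : 1 < Nat.card (IsLocalRing.ResidueField (OE E)) := Finite.one_lt_card
      have hkk : k = k' := by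
        refine Nat.pow_right_injective hq ?_
        show _ ^ k = _ ^ k'
        rw [← hk, ← hk']
        refine Nat.card_congr (Equiv.setCongr (Set.ext fun m => ?_))
        constructor
        · intro h g hg
          have h1 := h g hg
          have h2 := actN_cg C.lat.lne C.cg C.st C.st' g m
          exact h2.trans h1
        · intro h g hg
          have h1 := h g hg
          have h2 := actN_cg C.lat.lne C.cg C.st C.st' g m
          exact h2.symm.trans h1
      rw [zur_eq I C p] at hev'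
      refine ⟨_, _, _, lag_ur I C hp.2.2.1, hev, hev', ?_⟩
      have h1 : Parity.Inert D p := fun A hA => hp.2.2.2 ⟨A, hA⟩
      show Even (_ + _ + if Parity.Inert D p then _ else 0)
      rw [if_pos h1, finrank_VI, finrank_VI, hkk]
      exact ⟨Parity.dimInertia ρ (P p) + Parity.dimInertia ρ' (P p) + k', by ring⟩

/-- THE THEOREM FOR THE ARITHMETIC INSTANCE. -/
theorem cong_inst (C : Cong N₀ T κ b b' l t L₀ ρ ρ') (hL : Mid P ρ L) (hL' : Mid P ρ' L')
    (hd : HDvd P D T ρ ρ' l L₀) :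
    FiniteDimensional E (Parity.selmerBK (Parity.inertiaOffTwo K) (Parity.cyclo E) κ ρ b
      (stabD (P 2)) L) ∧
    FiniteDimensional E (Parity.selmerBK (Parity.inertiaOffTwo K) (Parity.cyclo E) κ ρ' b'
      (stabD (P 2)) L') ∧
    Even (Parity.selmerNumber (Parity.inertiaOffTwo K) (Parity.cyclo E) κ ρ b (stabD (P 2)) L +
      Parity.selmerNumber (Parity.inertiaOffTwo K) (Parity.cyclo E) κ ρ' b' (stabD (P 2)) L' +
      ∑ p : T, dl (T := T) P D ρ ρ' L L' (some (some p))) := by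
  classical
  choose Y0 d d' h1 h2 h3 h4 using loc_ex I C hL hL' hd
  have hA := ari_inst I
  obtain ⟨-, -, key⟩ := cong_abs (L := famL c κ T P N₀ ρ b hA.h2 L)
    (L' := famL c κ T P N₀ ρ' b' hA.h2 L') I.glob I.gens (C.qr I) (C.qr' I)
    (fun g m => C.act1 I g m) (fun a g m => C.la1 I a g m) (fun x y => C.be1 I x y)
    (QW.famL_fd hA C.cd hL.le fun i => I.locD i) (QW.famL_fd hA C.cd' hL'.le fun i => I.locD i)
    (QW.famL_zv hA C.cd hL.le) (QW.famL_zv hA C.cd' hL'.le)
    (QW.famL_cob hA C.cd C.lat C.st I.glob.glob.char.mul hL.le hL.ge)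
    (QW.famL_cob hA C.cd' C.lat' C.st' I.glob.glob.char.mul hL'.le hL'.ge)
    (QW.famL_lag hA C.cd C.lat C.st I.glob.glob.char hL.le hL.ge fun i => I.locD i)
    (QW.famL_lag hA C.cd' C.lat' C.st' I.glob.glob.char hL'.le hL'.ge fun i => I.locD i)
    h1 h2 h3
  obtain ⟨a1, a2, a3, a4, a5⟩ := QW.sel_dim I C.cd C.lat C.st hL.le hL.ge
  obtain ⟨b1, b2, b3, b4, b5⟩ := QW.sel_dim I C.cd' C.lat' C.st' hL'.le hL'.ge
  refine ⟨a3, b3, ?_⟩
  have c1 := GP.dimModulo_add hL.ge a1
  have c2 := GP.dimModulo_add hL'.ge b1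
  have c3 := GP.finrank_cob (fun σ : stabD (K := K) (P 2) => ρ σ)
  have c4 := GP.finrank_cob (fun σ : stabD (K := K) (P 2) => ρ' σ)
  have hsum : Even (∑ i, (d i + d' i + dl (T := T) P D ρ ρ' L L' i)) :=
    Finset.even_sum _ fun i _ => h4 i
  have e2 : ∑ i, dl (T := T) P D ρ ρ' L L' i = Module.finrank E L + Module.finrank E L' +
      ∑ p : T, dl (T := T) P D ρ ρ' L L' (some (some p)) := by
    rw [Fintype.sum_option, Fintype.sum_option]
    show 0 + (Module.finrank E L + Module.finrank E L' + _) = _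
    rw [zero_add]
  rw [Finset.sum_add_distrib, e2] at hsum
  have key' : Even (Module.finrank E (selE (sysQ T N₀) (GA.jQ c P) (rho2 (iK K) c κ fun g => ρ g)
        (famL c κ T P N₀ ρ b hA.h2 L)) +
      Module.finrank E (selE (sysQ T N₀) (GA.jQ c P) (rho2 (iK K) c κ fun g => ρ' g)
        (famL c κ T P N₀ ρ' b' hA.h2 L')) + ∑ i, (d i + d' i)) := key
  rw [Parity.selmerNumber, Parity.selmerNumber]
  rw [Nat.even_iff] at key' hsum ⊢
  omega

end loc

end Pool.Agent.Work.MP_787500_nt.CP
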