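import Mathlib
import Pool.Agent.Work.MP_787500_nt.CP.Main
import Pool.Agent.Work.MP_787500_nt.QF.N0
import Pool.Agent.Work.MP_787500_nt.GP.L04_Func
import Pool.Agent.Work.MP_787500_nt.GP.L03_Ring

/-!
The theorem on congruent representations for a family of primes of the ring of all algebraic integers.
-/

set_option autoImplicit false
set_option linter.unusedSectionVars false

namespace Pool.Agent.Work.MP_787500_nt.CP

open Pool.Agent.Work.MP_787500_nt Pool.Agent.Work.MP_787500_nt.Parity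
open Pool.Agent.Work.MP_787500_nt.GP (inT stabD OE bil Lat exists_unif exists_func)
open Pool.Agent.Work.MP_787500_nt.PA (toE cyc)
open Pool.Agent.Work.MP_787500_nt.HP (IsQ Spl IsP inr stb cyQ)
open Pool.Agent.Work.MP_787500_nt.KS (iK)
open Pool.Agent.Work.MP_787500_nt.KR (fullK)
open NumberField Matrix

universe u w

section lat

variable {E : Type w} [NormedField E] [NormedAlgebra ℚ_[2] E] [FiniteDimensional ℚ_[2] E] {n : ℕ}
  {b : Matrix (Fin n) (Fin n) E} {Λ : Set (Fin n → E)}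

/-- a self-dual lattice is a module -/
def latS (hΛ : SelfDual b Λ) : Submodule (OE E) (Fin n → E) where
  carrier := Λ
  add_mem' := fun {x y} hx hy => (hΛ.dual _).2 fun z hz => by
    have := Gn.ultra 2 E
    rw [add_dotProduct]
    exact (IsUltrametricDist.norm_add_le_max _ _).trans
      (max_le ((hΛ.dual x).1 hx z hz) ((hΛ.dual y).1 hy z hz))
  zero_mem' := (hΛ.dual _).2 fun z _ => by
    rw [zero_dotProduct, norm_zero]
    exact zero_le_one
  smul_mem' := fun a x hx => (hΛ.dual _).2 fun z hz => by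
    show ‖((a : E) • x) ⬝ᵥ (b *ᵥ z)‖ ≤ 1
    rw [smul_dotProduct, smul_eq_mul, norm_mul]
    exact mul_le_one₀ a.2 (norm_nonneg _) ((hΛ.dual x).1 hx z hz)

theorem cg_of {hΛ : SelfDual b Λ} {l : OE E} (hl0 : (l : E) ≠ 0)
    (hlm : ∀ x : E, ‖x‖ < 1 → ‖x‖ ≤ ‖(l : E)‖) {A B : Matrix (Fin n) (Fin n) E}
    (h : CongruentOn Λ A B) : Cg l (latS hΛ) A B := by
  intro x hx
  obtain ⟨a, ha, y, hy, h1⟩ := h x hx
  have h2 : ‖(l : E)⁻¹ * a‖ ≤ 1 := by
    rw [norm_mul, norm_inv, inv_mul_le_iff₀ (norm_pos_iff.2 hl0), mul_one]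
    exact hlm a ha
  refine ⟨(⟨(l : E)⁻¹ * a, h2⟩ : OE E) • y, (latS hΛ).smul_mem _ hy, ?_⟩
  rw [h1]
  show a • y = (l : E) • (((l : E)⁻¹ * a) • y)
  rw [smul_smul, mul_inv_cancel_left₀ hl0]

end lat

section dim

variable {K : Type u} [Field K] {E : Type w} [NormedField E] {n : ℕ}
  {ρ : AbsGal K →* Matrix (Fin n) (Fin n) E} {Q : Ideal (𝓞 (AlgebraicClosure K))}

/-- an unramified prime -/
theorem dimI_n (h : ∀ σ ∈ Q.inertia (AbsGal K), ρ σ = 1) : dimInertia ρ Q = n := by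
  have e : fixedBy (fun σ : Q.inertia (AbsGal K) => ρ σ) = ⊤ := by
    refine eq_top_iff.2 fun v _ σ => ?_
    show ρ σ *ᵥ v = v
    rw [h σ σ.2, one_mulVec]
  rw [dimInertia, e, finrank_top, Module.finrank_fin_fun]

end dim

variable {K : Type u} [Field K] [NumberField K] {D : ℕ} {s : K}
  {c : AlgebraicClosure K ≃+* AlgebraicClosure K} {κ : AbsGal K →* AbsGal K}

open scoped Classical in
theorem core (hK : IsQ K D s) (hc : PA.IsConj s c)
    (hκ : ∀ (σ : AbsGal K) (x : AlgebraicClosure K), κ σ x = c (σ (c x)))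
    (P : ℕ → Ideal (𝓞 (AlgebraicClosure K)))
    (hP : ∀ l : ℕ, l.Prime → (P l).IsPrime ∧ (l : 𝓞 (AlgebraicClosure K)) ∈ P l)
    {T₀ : Finset ℕ} (hT : ∀ l ∈ T₀, l.Prime ∧ l ≠ 2)
    {E : Type w} [NormedField E] [NormedAlgebra ℚ_[2] E] [FiniteDimensional ℚ_[2] E] {n : ℕ}
    {ρ ρ' : AbsGal K →* Matrix (Fin n) (Fin n) E} {b b' : Matrix (Fin n) (Fin n) E}
    (hρ : IsDualRep (inT K T₀) (cyclo E) κ ρ b) (hρ' : IsDualRep (inT K T₀) (cyclo E) κ ρ' b')
    {Λ : Set (Fin n → E)} (hΛ : IsCongruent Λ ρ ρ' b b')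
    (hloc : ∀ l ∈ T₀, l ∣ D →
      ∃ U : Matrix (Fin n) (Fin n) E, CongruentOn Λ U 1 ∧ ∀ g ∈ stabD (P l), U * ρ g = ρ' g * U)
    {L L' : Submodule E (stabD (K := K) (P 2) → Fin n → E)}
    (hL : Between (coboundaries (fun σ : stabD (K := K) (P 2) => ρ σ)) L
      (Parity.cocycles (fun σ : stabD (K := K) (P 2) => ρ σ)))
    (hL' : Between (coboundaries (fun σ : stabD (K := K) (P 2) => ρ' σ)) L'
      (Parity.cocycles (fun σ : stabD (K := K) (P 2) => ρ' σ))) :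
    FiniteDimensional E (selmerBK (inertiaOffTwo K) (cyclo E) κ ρ b (stabD (P 2)) L) ∧
    FiniteDimensional E (selmerBK (inertiaOffTwo K) (cyclo E) κ ρ' b' (stabD (P 2)) L') ∧
    Even (selmerNumber (inertiaOffTwo K) (cyclo E) κ ρ b (stabD (P 2)) L +
      selmerNumber (inertiaOffTwo K) (cyclo E) κ ρ' b' (stabD (P 2)) L' +
        ∑ l ∈ T₀.filter (Inert D), (dimInertia ρ (P l) + dimInertia ρ' (P l))) := by
  have hκκ : ∀ g, κ (κ g) = g := GA.kap_kap hc hκ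
  -- the lattice
  obtain ⟨l, hl0, hl1, hlm⟩ := exists_unif E
  have hloc' : IsLocalRing (OE E) := GP.isLocal E
  obtain ⟨t, ht1, ht2, ht3⟩ := exists_func E
  have hlat : Lat b l t (latS hΛ.selfDual) :=
    ⟨hl0, hl1, hlm, ht1, ht2, ht3, hρ.symm, hΛ.selfDual.dual, hΛ.selfDual.bounded,
      hΛ.selfDual.nhds_zero⟩
  have hlat' : Lat b' l t (latS hΛ.selfDual) :=
    ⟨hl0, hl1, hlm, ht1, ht2, ht3, hρ'.symm, hΛ.selfDual'.dual, hΛ.selfDual'.bounded,
      hΛ.selfDual'.nhds_zero⟩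
  have hb : b.det ≠ 0 := QU.lat_det hlat
  have hb' : b'.det ≠ 0 := QU.lat_det hlat'
  have hodd : ∀ g : AbsGal K, (2 : ℤ_[2]) ∣ cyc g - 1 := PA.isChar_cyc.odd
  obtain ⟨N₁, hN1n, hN1F, hN1o, hκN1, hNI1, hpro1⟩ := QF.exists_n0 (KR.isFull_K T₀) (χ := cyc)
    PA.isChar_cyc.mul PA.isChar_cyc.one hodd hκκ hb hρ
  obtain ⟨N₂, hN2n, hN2F, hN2o, hκN2, hNI2, hpro2⟩ := QF.exists_n0 (KR.isFull_K T₀) (χ := cyc)
    PA.isChar_cyc.mul PA.isChar_cyc.one hodd hκκ hb' hρ'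
  obtain ⟨T₁, hs1, hinst⟩ := QU.exists_inst.{u, w} hK hc hκ
    ((fullK (K := K) T₀).inf hN1F hN2F) (fun g hg => ⟨hκN1 g hg.1, hκN2 g hg.2⟩)
  -- the primes
  have hTprime : ∀ l ∈ T₀ ∪ T₁ ∪ D.primeFactors, l.Prime ∧ l ≠ 2 := by
    intro l hl
    rcases Finset.mem_union.1 hl with h | h
    · rcases Finset.mem_union.1 h with h | h
      · exact hT l h
      · exact ⟨(hs1 l h).1, (hs1 l h).2.1⟩
    · refine ⟨Nat.prime_of_mem_primeFactors h, ?_⟩
      rintro rfl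
      have h3 := Nat.dvd_of_mem_primeFactors h
      have h4 := hK.mod
      omega
  have hIsP : IsP (T₀ ∪ T₁ ∪ D.primeFactors) P := by
    refine ⟨fun l hl => (hTprime l hl).1, fun l hl => (hTprime l hl).2, fun l hl => ?_,
      fun l hl => ?_⟩
    · rcases hl with h | rfl
      · exact (hP l (hTprime l h).1).1
      · exact (hP 2 Nat.prime_two).1
    · rcases hl with h | rfl
      · exact (hP l (hTprime l h).1).2
      · exact (hP 2 Nat.prime_two).2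
  have hT0 : T₀ ⊆ T₀ ∪ T₁ ∪ D.primeFactors := fun l hl =>
    Finset.mem_union_left _ (Finset.mem_union_left _ hl)
  obtain ⟨iv, ivF, -, tr, I⟩ := hinst _ hT0
    (fun l hl => Finset.mem_union_left _ (Finset.mem_union_right _ hl))
    Finset.subset_union_right P hIsP
  have C : Cong (N₁ ⊓ N₂) (T₀ ∪ T₁ ∪ D.primeFactors) κ b b' l t (latS hΛ.selfDual) ρ ρ' :=
    { cd := ⟨hρ.cont, fun σ hσ => hpro1 σ hσ.1, fun σ hσ => hρ.unram σ (HP.inT_mono hT0 hσ),
        hρ.symm, hρ.dual⟩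
      cd' := ⟨hρ'.cont, fun σ hσ => hpro2 σ hσ.2, fun σ hσ => hρ'.unram σ (HP.inT_mono hT0 hσ),
        hρ'.symm, hρ'.dual⟩
      lat := hlat
      lat' := hlat'
      cgf := fun x hx y hy => by
        rw [norm_sub_rev]
        exact hlm _ (hΛ.form x hx y hy)
      st := hΛ.stable
      st' := hΛ.stable'
      cg := fun g => cg_of hl0 hlm (hΛ.congr g) }
  -- the primes outside of `T₀`
  have hout : ∀ p ∈ T₀ ∪ T₁ ∪ D.primeFactors, p ∉ T₀ → ∀ σ ∈ (P p).inertia (AbsGal K),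
      σ ∈ inT K T₀ := by
    intro p hp hp0 σ hσ
    obtain ⟨h1, h2⟩ := hTprime p hp
    obtain ⟨h3, h4⟩ := hP p h1
    refine ⟨P p, h3, fun h5 => ?_, fun l hl h5 => ?_, hσ⟩
    · exact h2 (GA.prime_uniq h3 h1 Nat.prime_two h4 (by exact_mod_cast h5))
    · exact hp0 (by rwa [GA.prime_uniq h3 h1 (hT l hl).1 h4 h5])
  have hd : HDvd P D (T₀ ∪ T₁ ∪ D.primeFactors) ρ ρ' l (latS hΛ.selfDual) := by
    intro p hp hpD
    by_cases hp0 : p ∈ T₀
    · obtain ⟨U, hU, hUg⟩ := hloc p hp0 hpD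
      exact Or.inr ⟨U, cg_of hl0 hlm hU, fun g hg => hUg g (GA.emb_refl_stb.1 hg)⟩
    · exact Or.inl ⟨fun g hg => hρ.unram g (hout p hp hp0 g (iK_inertia.1 hg)),
        fun g hg => hρ'.unram g (hout p hp hp0 g (iK_inertia.1 hg))⟩
  obtain ⟨k1, k2, k3⟩ := cong_inst I C ⟨hL.2, hL.1⟩ ⟨hL'.2, hL'.1⟩ hd
  refine ⟨k1, k2, ?_⟩
  -- the sum
  have e1 : ∑ p : (T₀ ∪ T₁ ∪ D.primeFactors : Finset ℕ),
      dl (T := T₀ ∪ T₁ ∪ D.primeFactors) P D ρ ρ' L L' (some (some p)) =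
      ∑ p ∈ T₀ ∪ T₁ ∪ D.primeFactors, if Inert D p then
        dimInertia ρ (P p) + dimInertia ρ' (P p) else 0 :=
    Finset.sum_coe_sort (T₀ ∪ T₁ ∪ D.primeFactors) fun p => if Inert D p then
        dimInertia ρ (P p) + dimInertia ρ' (P p) else 0
  have e2 : ∑ p ∈ T₀ ∪ T₁ ∪ D.primeFactors, (if Inert D p then
        dimInertia ρ (P p) + dimInertia ρ' (P p) else 0) =
      ∑ p ∈ (T₀ ∪ T₁ ∪ D.primeFactors) \ T₀, (if Inert D p then
        dimInertia ρ (P p) + dimInertia ρ' (P p) else 0) +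
      ∑ p ∈ T₀.filter (Inert D), (dimInertia ρ (P p) + dimInertia ρ' (P p)) := by
    rw [Finset.sum_filter, Finset.sum_sdiff hT0]
  have e3 : Even (∑ p ∈ (T₀ ∪ T₁ ∪ D.primeFactors) \ T₀, (if Inert D p then
        dimInertia ρ (P p) + dimInertia ρ' (P p) else 0)) := by
    refine Finset.even_sum _ fun p hp => ?_
    obtain ⟨hp1, hp2⟩ := Finset.mem_sdiff.1 hp
    split_ifs with h
    · rw [dimI_n fun σ hσ => hρ.unram σ (hout p hp1 hp2 σ hσ),
        dimI_n fun σ hσ => hρ'.unram σ (hout p hp1 hp2 σ hσ)]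
      exact ⟨n, rfl⟩
    · exact ⟨0, rfl⟩
  rw [e1, e2] at k3
  rw [Nat.even_iff] at k3 e3 ⊢
  omega

end Pool.Agent.Work.MP_787500_nt.CP
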