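import Mathlib
import Pool.Agent.Work.MP_787500_nt.GP.F01_Card
import Pool.Agent.Work.MP_787500_nt.GP.F03_Pow
import Pool.Agent.Work.MP_787500_nt.GP.F04_Alt

/-!
Three maximal isotropic submodules of a finite module with a quadratic form: the parities of their intersections.
-/

set_option autoImplicit false
set_option linter.unusedSectionVars false

namespace Pool.Agent.Work.MP_787500_nt.CP

open Pool.Agent.Work.MP_787500_nt.GP (A0 EvPow IsPow perpL)

variable {O : Type*} [CommRing O] {W : Type*} [AddCommGroup W] [Module O W]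

/-- A nondegenerate symmetric form `B` with values in `A0`, and quadratic functions `Q a`, `a` in `O`. -/
structure QW (B : W →+ W →+ A0) (Q : O → W → A0) : Prop where
  bal : ∀ (a : O) x y, B (a • x) y = B x (a • y)
  sym : ∀ x y, B x y = B y x
  pol : ∀ a x y, Q a (x + y) = Q a x + Q a y + B (a • x) y
  nd : ∀ x, (∀ y, B x y = 0) → x = 0

/-- A maximal isotropic submodule. -/
structure LQ (Q : O → W → A0) (L : Submodule O W) : Prop where
  iso : ∀ a, ∀ x ∈ L, Q a x = 0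
  half : Nat.card L * Nat.card L = Nat.card W

/-- the orthogonal -/
def pS (B : W →+ W →+ A0) (hb : ∀ (a : O) x y, B (a • x) y = B x (a • y)) (L : Submodule O W) :
    Submodule O W where
  carrier := {x | ∀ y ∈ L, B y x = 0}
  add_mem' := fun hx hy z hz => by rw [map_add, hx z hz, hy z hz, add_zero]
  zero_mem' := fun z _ => map_zero _
  smul_mem' := fun a x hx z hz => by
    rw [← hb]
    exact hx _ (L.smul_mem a hz)

theorem mem_pS {B : W →+ W →+ A0} {hb : ∀ (a : O) x y, B (a • x) y = B x (a • y)}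
    {L : Submodule O W} {x : W} : x ∈ pS B hb L ↔ ∀ y ∈ L, B y x = 0 := Iff.rfl

variable {B : W →+ W →+ A0} {Q : O → W → A0}

section

variable [Finite W]

theorem card_pS (h : QW B Q) (L : Submodule O W) :
    Nat.card L * Nat.card (pS B h.bal L) = Nat.card W := by
  have h1 := GP.card_perp B L.toAddSubgroup fun a ha => by
    rw [h.nd a ha]
    exact L.zero_mem
  have e1 : Nat.card (perpL B.flip (⊤ : AddSubgroup W)) = 1 := by
    rw [AddSubgroup.card_eq_one, eq_bot_iff]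
    intro x hx
    exact h.nd x fun y => hx y trivial
  have e2 : Nat.card (perpL B L.toAddSubgroup) = Nat.card (pS B h.bal L) := rfl
  have e3 : Nat.card L.toAddSubgroup = Nat.card L := rfl
  have e4 : Nat.card (perpL B (⊤ : AddSubgroup W)) = 1 := by
    rw [AddSubgroup.card_eq_one, eq_bot_iff]
    intro x hx
    exact h.nd x fun y => by
      rw [h.sym]
      exact hx y trivial
  rw [e2, e3] at h1
  first
    | rw [h1, e4, mul_one]
    | rw [h1, e1, mul_one]

theorem pS_pS (h : QW B Q) (L : Submodule O W) : pS B h.bal (pS B h.bal L) = L := by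
  have hle : L ≤ pS B h.bal (pS B h.bal L) := fun x hx y hy => by
    rw [h.sym]
    exact hy x hx
  have c1 := card_pS h L
  have c2 := card_pS h (pS B h.bal L)
  have hpos : 0 < Nat.card (pS B h.bal L) := Nat.card_pos
  have c3 : Nat.card (pS B h.bal (pS B h.bal L)) = Nat.card L := by
    refine Nat.eq_of_mul_eq_mul_left hpos ?_
    rw [c2, ← c1, mul_comm]
  have e : (L : Set W) = pS B h.bal (pS B h.bal L) :=
    Set.eq_of_subset_of_ncard_le hle (by
      rw [← Nat.card_coe_set_eq, ← Nat.card_coe_set_eq]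
      exact c3.le) (Set.toFinite _)
  exact (SetLike.coe_injective e).symm

theorem pS_sup (h : QW B Q) (L L' : Submodule O W) :
    pS B h.bal (L ⊔ L') = pS B h.bal L ⊓ pS B h.bal L' := by
  apply le_antisymm
  · intro x hx
    exact ⟨fun a ha => hx a (Submodule.mem_sup_left ha), fun a ha => hx a (Submodule.mem_sup_right ha)⟩
  · rintro x ⟨h1, h2⟩ a ha
    obtain ⟨y, hy, z, hz, rfl⟩ := Submodule.mem_sup.1 ha
    rw [map_add, AddMonoidHom.add_apply, h1 y hy, h2 z hz, add_zero]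

theorem pS_inf (h : QW B Q) (L L' : Submodule O W) :
    pS B h.bal (L ⊓ L') = pS B h.bal L ⊔ pS B h.bal L' := by
  have h1 := pS_sup h (pS B h.bal L) (pS B h.bal L')
  rw [pS_pS h, pS_pS h] at h1
  rw [← h1, pS_pS h]

theorem LQ.perp (h : QW B Q) {L : Submodule O W} (hL : LQ Q L) : pS B h.bal L = L := by
  have hle : L ≤ pS B h.bal L := fun x hx y hy => by
    have h1 := h.pol 1 y x
    rw [hL.iso _ _ (L.add_mem hy hx), hL.iso _ _ hy, hL.iso _ _ hx, one_smul, add_zero, zero_add] at h1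
    exact h1.symm
  have c1 := card_pS h L
  have hpos : 0 < Nat.card L := Nat.card_pos
  have c3 : Nat.card (pS B h.bal L) = Nat.card L := by
    refine Nat.eq_of_mul_eq_mul_left hpos ?_
    rw [c1, hL.half]
  have e : (L : Set W) = pS B h.bal L :=
    Set.eq_of_subset_of_ncard_le hle (by
      rw [← Nat.card_coe_set_eq, ← Nat.card_coe_set_eq]
      exact c3.le) (Set.toFinite _)
  exact (SetLike.coe_injective e).symm

theorem card_sup_inf (A C : Submodule O W) :
    Nat.card ↥(A ⊔ C) * Nat.card ↥(A ⊓ C) = Nat.card A * Nat.card C := by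
  have key : ∀ A C : AddSubgroup W,
      Nat.card ↥(A ⊔ C) * Nat.card ↥(A ⊓ C) = Nat.card A * Nat.card C := by
    intro A C
    have h1 : C.relIndex (A ⊔ C) = C.relIndex A := AddSubgroup.relIndex_sup_right _ _
    have h2 : C.relIndex (A ⊔ C) * Nat.card C = Nat.card ↥(A ⊔ C) := by
      have h3 := AddSubgroup.relIndex_mul_relIndex (⊥ : AddSubgroup W) C (A ⊔ C) bot_le le_sup_right
      rwa [AddSubgroup.relIndex_bot_left, AddSubgroup.relIndex_bot_left, mul_comm] at h3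
    have h4 : C.relIndex A * Nat.card ↥(A ⊓ C) = Nat.card A := by
      have h3 := AddSubgroup.relIndex_mul_relIndex (⊥ : AddSubgroup W) (A ⊓ C) A bot_le inf_le_left
      rwa [AddSubgroup.relIndex_bot_left, AddSubgroup.relIndex_bot_left, mul_comm,
        AddSubgroup.inf_relIndex_left] at h3
    rw [← h2, ← h4, h1]
    ring
  have h1 := key A.toAddSubgroup C.toAddSubgroup
  have e1 : (A ⊔ C).toAddSubgroup = A.toAddSubgroup ⊔ C.toAddSubgroup := by
    ext x
    constructor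
    · intro hx
      obtain ⟨y, hy, z, hz, rfl⟩ := Submodule.mem_sup.1 hx
      exact AddSubgroup.mem_sup.2 ⟨y, hy, z, hz, rfl⟩
    · intro hx
      obtain ⟨y, hy, z, hz, rfl⟩ := AddSubgroup.mem_sup.1 hx
      exact Submodule.mem_sup.2 ⟨y, hy, z, hz, rfl⟩
  rw [← e1] at h1
  exact h1

end

/-- THE PARITY OF THE INTERSECTIONS. -/
theorem tri [Finite W] [IsLocalRing O] [Finite (IsLocalRing.ResidueField O)] (h : QW B Q)
    {L1 L2 L3 : Submodule O W} (h1 : LQ Q L1) (h2 : LQ Q L2) (h3 : LQ Q L3) :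
    EvPow (Nat.card (IsLocalRing.ResidueField O))
      (Nat.card ↥(L1 ⊓ L2) * Nat.card ↥(L1 ⊓ L3) * Nat.card ↥(L2 ⊓ L3) * Nat.card L3) := by
  have p1 := h1.perp h
  have p2 := h2.perp h
  have p3 := h3.perp h
  -- the first components
  have hch : ∀ r : ↥((L1 ⊔ L2) ⊓ L3), ∃ a ∈ L1, (r : W) - a ∈ L2 := by
    rintro ⟨r, hr, -⟩
    obtain ⟨y, hy, z, hz, rfl⟩ := Submodule.mem_sup.1 hr
    exact ⟨y, hy, by
      rw [add_sub_cancel_left]
      exact hz⟩
  choose f hf1 hf2 using hch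
  have hz : ∀ x ∈ L1 ⊓ L2, ∀ y ∈ L1 ⊔ L2, B x y = 0 := by
    intro x hx y hy
    obtain ⟨u, hu, v, hv, rfl⟩ := Submodule.mem_sup.1 hy
    have e1 : x ∈ pS B h.bal L1 := by
      rw [p1]
      exact hx.1
    have e2 : x ∈ pS B h.bal L2 := by
      rw [p2]
      exact hx.2
    rw [map_add, h.sym x u, h.sym x v, e1 u hu, e2 v hv, add_zero]
  have hw : ∀ (x y : W) (r' : ↥((L1 ⊔ L2) ⊓ L3)), x - y ∈ L1 ⊓ L2 → B x r' = B y r' := by
    intro x y r' hxy
    rw [← sub_eq_zero, ← AddMonoidHom.sub_apply, ← map_sub]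
    exact hz _ hxy _ r'.2.1
  let c : ↥((L1 ⊔ L2) ⊓ L3) →+ ↥((L1 ⊔ L2) ⊓ L3) →+ A0 :=
    AddMonoidHom.mk' (fun r => (B (f r)).comp ((L1 ⊔ L2) ⊓ L3).subtype.toAddMonoidHom) fun r s => by
      ext r'
      show B (f (r + s)) r' = B (f r) r' + B (f s) r'
      rw [← AddMonoidHom.add_apply, ← map_add]
      refine hw _ _ r' ⟨L1.sub_mem (hf1 _) (L1.add_mem (hf1 _) (hf1 _)), ?_⟩
      have e : f (r + s) - (f r + f s) =
          ((r : W) - f r) + ((s : W) - f s) - (((r + s : ↥((L1 ⊔ L2) ⊓ L3)) : W) - f (r + s)) := by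
        rw [Submodule.coe_add]
        abel
      rw [e]
      exact L2.sub_mem (L2.add_mem (hf2 _) (hf2 _)) (hf2 _)
  have hc : ∀ r r', c r r' = B (f r) r' := fun r r' => rfl
  have hsm : ∀ (a : O) r, f (a • r) - a • f r ∈ L1 ⊓ L2 := by
    intro a r
    refine ⟨L1.sub_mem (hf1 _) (L1.smul_mem a (hf1 _)), ?_⟩
    have e : f (a • r) - a • f r =
        a • ((r : W) - f r) - (((a • r : ↥((L1 ⊔ L2) ⊓ L3)) : W) - f (a • r)) := by
      rw [Submodule.coe_smul, smul_sub]
      abel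
    rw [e]
    exact L2.sub_mem (L2.smul_mem a (hf2 _)) (hf2 _)
  obtain ⟨m, hm⟩ := GP.alt_card c (fun a x y => by
      rw [hc, hc, hw _ _ y (hsm a x), h.bal]
      rfl) (fun a x => by
      rw [hc, hw _ _ x (hsm a x)]
      have e1 : (x : W) = f x + ((x : W) - f x) := by abel
      have e2 := h.pol a (f x) ((x : W) - f x)
      rw [← e1, h3.iso a _ x.2.2, h1.iso a _ (hf1 x), h2.iso a _ (hf2 x), add_zero, zero_add] at e2
      have e3 : B (a • f x) (f x) = 0 := by
        have e4 : f x ∈ pS B h.bal L1 := by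
          rw [p1]
          exact hf1 x
        exact e4 _ (L1.smul_mem a (hf1 x))
      rw [e1, map_add, e3, ← e2, add_zero])
    (((L1 ⊓ L3) ⊔ (L2 ⊓ L3)).comap ((L1 ⊔ L2) ⊓ L3).subtype) (fun r => by
      have hp : pS B h.bal ((L1 ⊔ L2) ⊓ L3) = (L1 ⊓ L2) ⊔ L3 := by
        rw [pS_inf h, pS_sup h, p1, p2, p3]
      constructor
      · intro hr y
        obtain ⟨p, hp1, s, hs1, hps⟩ := Submodule.mem_sup.1 (show (r : W) ∈ _ from hr)
        have e1 : f r ∈ pS B h.bal ((L1 ⊔ L2) ⊓ L3) := by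
          rw [hp]
          refine Submodule.mem_sup.2 ⟨f r - p, ⟨L1.sub_mem (hf1 r) hp1.1, ?_⟩, p, hp1.2, by abel⟩
          have e2 : f r - p = s - ((r : W) - f r) := by
            rw [← hps]
            abel
          rw [e2]
          exact L2.sub_mem hs1.1 (hf2 r)
        rw [hc, h.sym]
        exact e1 _ y.2
      · intro hr
        have e1 : f r ∈ pS B h.bal ((L1 ⊔ L2) ⊓ L3) := fun y hy => by
          rw [h.sym]
          exact hr ⟨y, hy⟩
        rw [hp] at e1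
        obtain ⟨a, ha, y, hy, hay⟩ := Submodule.mem_sup.1 e1
        have hy1 : y ∈ L1 := by
          have : y = f r - a := by
            rw [← hay]
            abel
          rw [this]
          exact L1.sub_mem (hf1 r) ha.1
        refine Submodule.mem_sup.2 ⟨y, ⟨hy1, hy⟩, (r : W) - y, ⟨?_, L3.sub_mem r.2.2 hy⟩, by
          show y + ((r : W) - y) = r
          abel⟩
        have : (r : W) - y = ((r : W) - f r) + a := by
          rw [← hay]
          abel
        rw [this]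
        exact L2.add_mem (hf2 r) ha.2)
  have hcard : Nat.card (((L1 ⊓ L3) ⊔ (L2 ⊓ L3)).comap ((L1 ⊔ L2) ⊓ L3).subtype) =
      Nat.card ↥((L1 ⊓ L3) ⊔ (L2 ⊓ L3)) := by
    have hle : (L1 ⊓ L3) ⊔ (L2 ⊓ L3) ≤ (L1 ⊔ L2) ⊓ L3 := sup_le
      (inf_le_inf_right _ le_sup_left) (inf_le_inf_right _ le_sup_right)
    exact Nat.card_congr ⟨fun x => ⟨x.1.1, x.2⟩, fun x => ⟨⟨x.1, hle x.2⟩, x.2⟩, fun x => rfl,
      fun x => rfl⟩
  rw [hcard] at hm
  have c1 := card_sup_inf (L1 ⊓ L3) (L2 ⊓ L3)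
  have e1 : (L1 ⊓ L3) ⊓ (L2 ⊓ L3) = (L1 ⊓ L2) ⊓ L3 := by
    rw [inf_inf_inf_comm, inf_idem]
  rw [e1] at c1
  have c2 := card_sup_inf (L1 ⊓ L2) L3
  have c3 := card_pS h ((L1 ⊔ L2) ⊓ L3)
  have hp : pS B h.bal ((L1 ⊔ L2) ⊓ L3) = (L1 ⊓ L2) ⊔ L3 := by
    rw [pS_inf h, pS_sup h, p1, p2, p3]
  rw [hp, ← h3.half] at c3
  obtain ⟨i12, k12⟩ := GP.card_pow (O := O) ↥(L1 ⊓ L2)
  obtain ⟨i13, k13⟩ := GP.card_pow (O := O) ↥(L1 ⊓ L3)
  obtain ⟨i23, k23⟩ := GP.card_pow (O := O) ↥(L2 ⊓ L3)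
  obtain ⟨i3, k3⟩ := GP.card_pow (O := O) L3
  obtain ⟨i0, k0⟩ := GP.card_pow (O := O) ↥((L1 ⊓ L2) ⊓ L3)
  obtain ⟨a1, g1⟩ := GP.card_pow (O := O) ↥((L1 ⊓ L3) ⊔ (L2 ⊓ L3))
  obtain ⟨a2, g2⟩ := GP.card_pow (O := O) ↥((L1 ⊓ L2) ⊔ L3)
  obtain ⟨a3, g3⟩ := GP.card_pow (O := O) ↥((L1 ⊔ L2) ⊓ L3)
  have hq : 1 < Nat.card (IsLocalRing.ResidueField O) := Finite.one_lt_card
  have hinj := Nat.pow_right_injective hq
  rw [g3, g1, ← pow_add] at hm
  rw [g1, k0, k13, k23, ← pow_add, ← pow_add] at c1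
  rw [g2, k0, k12, k3, ← pow_add, ← pow_add] at c2
  rw [g2, g3, k3, ← pow_add, ← pow_add] at c3
  have d0 := hinj hm
  have d1 := hinj c1
  have d2 := hinj c2
  have d3 := hinj c3
  refine ⟨i3 + i0 - m, ?_⟩
  rw [k12, k13, k23, k3, ← pow_add, ← pow_add, ← pow_add]
  congr 1
  omega

end Pool.Agent.Work.MP_787500_nt.CP
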