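import Mathlib
import Pool.Agent.Work.MP_787500_nt.CP.RTri
import Pool.Agent.Work.MP_787500_nt.GP.L08_MN
import Pool.Agent.Work.MP_787500_nt.GP.LDefs2
import Pool.Agent.Work.MP_787500_nt.ER.LDefs

/-!
The quadratic form on `M × M`, `M = l⁻¹ T / T`, at a place ramified in the quadratic field; `β (x, y) = b (x, K y)`.
-/

set_option autoImplicit false
set_option linter.unusedSectionVars false

namespace Pool.Agent.Work.MP_787500_nt.CP

open Matrix
open Pool.Agent.Work.MP_787500_nt.GP (A0 OE MN actN actQ bil bN mq lft mq_lft mq_eq mq_add mq_smul mq_eq_zero Wq Lat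
  pr0 bil_add_left bil_add_right bil_sub_left bil_sub_right bil_smul_left bil_smul_right pr0_zero_of_norm bN_val
  bN_nd bN_symm bN_bal coe_actN actQ_mq)
open Pool.Agent.Work.MP_787500_nt.ER (BT)

variable {E : Type*} [NormedField E] [NormedAlgebra ℚ_[2] E] [FiniteDimensional ℚ_[2] E] {n : ℕ}
  {b N s K : Matrix (Fin n) (Fin n) E}
  {T : Submodule (OE E) (Fin n → E)} {l : OE E} {t : E →ₗ[ℚ_[2]] ℚ_[2]}

section alg

/-- the form `b (x, K y)` -/
def be (b K : Matrix (Fin n) (Fin n) E) (x y : Fin n → E) : E := bil b x (K *ᵥ y)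

theorem be_add_left (x x' y : Fin n → E) : be b K (x + x') y = be b K x y + be b K x' y :=
  bil_add_left _ _ _

theorem be_add_right (x y y' : Fin n → E) : be b K x (y + y') = be b K x y + be b K x y' := by
  rw [be, mulVec_add, bil_add_right]
  rfl

theorem be_sub_left (x x' y : Fin n → E) : be b K (x - x') y = be b K x y - be b K x' y :=
  bil_sub_left _ _ _

theorem be_sub_right (x y y' : Fin n → E) : be b K x (y - y') = be b K x y - be b K x y' := by
  rw [be, mulVec_sub, bil_sub_right]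
  rfl

theorem be_smul_left (a : E) (x y : Fin n → E) : be b K (a • x) y = a * be b K x y :=
  bil_smul_left _ _ _

theorem be_smul_right (a : E) (x y : Fin n → E) : be b K x (a • y) = a * be b K x y := by
  rw [be, mulVec_smul, bil_smul_right]
  rfl

variable (h : BT b T N s K)

include h

theorem be_skew (x y : Fin n → E) : be b K x y = -be b K (y + N *ᵥ y) x := h.skew x y

theorem NN (x : Fin n → E) : N *ᵥ (N *ᵥ x) = 0 := by
  rw [mulVec_mulVec, h.nn, zero_mulVec]

theorem be_one (x y : Fin n → E) :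
    be b K x (N *ᵥ y) + be b K (N *ᵥ x) y + be b K (N *ᵥ x) (N *ᵥ y) = 0 := by
  have e1 := be_skew h x y
  have e2 := be_skew h (y + N *ᵥ y) x
  rw [e2, neg_neg, be_add_left, be_add_right, be_add_right] at e1
  linear_combination -e1

theorem be_NN (x y : Fin n → E) : be b K (N *ᵥ x) (N *ᵥ y) = 0 := by
  have e1 := be_one h x (N *ᵥ y)
  have e0 : ∀ z, be b K z (0 : Fin n → E) = 0 := fun z => by
    have := be_smul_right (b := b) (K := K) (0 : E) z 0
    rwa [zero_smul, zero_mul] at this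
  rw [NN h, e0, e0, zero_add, add_zero] at e1
  exact e1

theorem be_N (x y : Fin n → E) : be b K (N *ᵥ x) y = -be b K x (N *ᵥ y) := by
  have e1 := be_one h x y
  rw [be_NN h, add_zero] at e1
  linear_combination e1

theorem be_sym (x y : Fin n → E) : be b K (N *ᵥ x) y = be b K (N *ᵥ y) x := by
  rw [be_skew h (N *ᵥ x) y, be_add_left, be_NN h, add_zero, be_N h y x]

theorem be_two (x : Fin n → E) : 2 * be b K x x = -be b K (N *ᵥ x) x := by
  have e1 := be_skew h x x
  rw [be_add_left] at e1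
  linear_combination e1

theorem be_ker {z : Fin n → E} (hz : N *ᵥ z = 0) (x : Fin n → E) : be b K (N *ᵥ x) z = 0 := by
  rw [be_sym h, hz, be, bil, zero_dotProduct]

theorem be_ker' {z : Fin n → E} (hz : N *ᵥ z = 0) : be b K z z = 0 := by
  have e1 := be_two h z
  have : CharZero E := charZero_of_injective_algebraMap (algebraMap ℚ_[2] E).injective
  rw [hz] at e1
  have e2 : be b K (0 : Fin n → E) z = 0 := by rw [be, bil, zero_dotProduct]
  rw [e2, neg_zero] at e1
  exact (mul_eq_zero.1 e1).resolve_left two_ne_zero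

/-- THE EXACT FORMULA. -/
theorem be_vu {u w : Fin n → E} (hu : N *ᵥ (u - (s *ᵥ w - w)) = 0) :
    be b K (N *ᵥ w) u = be b K u u := by
  have : CharZero E := charZero_of_injective_algebraMap (algebraMap ℚ_[2] E).injective
  have e1 := be_two h u
  have e2 : N *ᵥ u = N *ᵥ (s *ᵥ w - w) := by
    rwa [mulVec_sub, sub_eq_zero] at hu
  have e3 : be b K (N *ᵥ (s *ᵥ w - w)) u = be b K (N *ᵥ (s *ᵥ w - w)) (s *ᵥ w - w) := by
    have := be_ker h hu (s *ᵥ w - w)
    rw [be_sub_right, sub_eq_zero] at this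
    exact this
  have e4 : be b K (N *ᵥ w) u = be b K (N *ᵥ w) (s *ᵥ w - w) := by
    have := be_ker h hu w
    rw [be_sub_right, sub_eq_zero] at this
    exact this
  have e5 : be b K (N *ᵥ (s *ᵥ w)) (s *ᵥ w) = be b K (N *ᵥ w) w := h.inv w w
  have e6 := be_sym h (s *ᵥ w) w
  rw [e2, e3, mulVec_sub, be_sub_left, be_sub_right, be_sub_right, e5, e6] at e1
  rw [e4, be_sub_right]
  have e7 : (2 : E) * (be b K (N *ᵥ w) (s *ᵥ w) - be b K (N *ᵥ w) w) = 2 * be b K u u := by
    rw [e1]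
    ring
  exact mul_left_cancel₀ two_ne_zero e7

end alg

section red

/-- the action of one matrix on `MN T l k` -/
noncomputable def aM {A : Matrix (Fin n) (Fin n) E} (l : OE E) (k : ℕ) (hA : ∀ x ∈ T, A *ᵥ x ∈ T) :
    MN T l k →ₗ[OE E] MN T l k where
  toFun m := actN l k (fun _ : Unit => A) (fun _ => hA) () m
  map_add' x y := Subtype.ext (by
    rw [coe_actN, Submodule.coe_add, KR.actQ_add hA]
    rfl)
  map_smul' a x := Subtype.ext (by
    rw [coe_actN, Submodule.coe_smul, KR.actQ_smul hA]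
    rfl)

theorem aM_val {A : Matrix (Fin n) (Fin n) E} {k : ℕ} {hA : ∀ x ∈ T, A *ᵥ x ∈ T} {m : MN T l k}
    {x : Fin n → E} (hx : mq T x = m) : mq T (A *ᵥ x) = (aM l k hA m : Wq T) := by
  show _ = actQ T A m
  rw [← hx, actQ_mq hA]

/-- the reduction of `β` -/
noncomputable def bR (hl : Lat b l t T) (k : ℕ) (hK : ∀ x ∈ T, K *ᵥ x ∈ T) :
    MN T l k →+ MN T l k →+ A0 :=
  AddMonoidHom.mk' (fun x => (bN hl k x).comp (aM l k hK).toAddMonoidHom) fun x y => by
    ext z
    show bN hl k (x + y) _ = bN hl k x _ + bN hl k y _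
    rw [map_add]
    rfl

theorem bR_val (hl : Lat b l t T) {k : ℕ} {hK : ∀ x ∈ T, K *ᵥ x ∈ T} {x y : MN T l k}
    {x' y' : Fin n → E} (hx : mq T x' = x) (hy : mq T y' = y) :
    bR hl k hK x y = pr0 (t ((l : E) ^ k * be b K x' y')) := by
  show bN hl k x (aM l k hK y) = _
  rw [bN_val hl k x _ hx (aM_val hy)]
  rfl

theorem bR_bal (hl : Lat b l t T) {k : ℕ} {hK : ∀ x ∈ T, K *ᵥ x ∈ T} (a : OE E) (x y : MN T l k) :
    bR hl k hK (a • x) y = bR hl k hK x (a • y) := by
  show bN hl k (a • x) (aM l k hK y) = bN hl k x (aM l k hK (a • y))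
  rw [bN_bal, (aM l k hK).map_smul]

theorem bR_nd (hl : Lat b l t T) {k : ℕ} {hK : ∀ x ∈ T, K *ᵥ x ∈ T}
    (hK' : ∀ x, K *ᵥ x ∈ T → x ∈ T) (y : MN T l k) (h0 : ∀ x, bR hl k hK x y = 0) : y = 0 := by
  have h1 : aM l k hK y = 0 := bN_nd hl k _ fun z => by
    rw [bN_symm]
    exact h0 z
  have h2 := congrArg Subtype.val h1
  rw [← aM_val (mq_lft (y : Wq T))] at h2
  have h3 : K *ᵥ lft (y : Wq T) ∈ T := mq_eq_zero.1 h2
  apply Subtype.ext
  rw [← mq_lft (y : Wq T)]
  exact mq_eq_zero.2 (hK' _ h3)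

/-- 2 is 0 -/
theorem two_MN (hl : Lat b l t T) (m : MN T l 1) : m + m = 0 := by
  apply Subtype.ext
  rw [Submodule.coe_add, ← mq_lft (m : Wq T), ← mq_add]
  refine mq_eq_zero.2 ?_
  have h1 : (l : E) • lft (m : Wq T) ∈ T := by
    have := m.lft_mem
    rwa [pow_one] at this
  have h2 : ‖(2 : E)‖ < 1 := by
    have e : (2 : E) = algebraMap ℚ_[2] E 2 := by rw [map_ofNat]
    rw [e, norm_algebraMap']
    have := Padic.norm_p_lt_one (p := 2)
    exact_mod_cast this
  have h3 : ‖(l : E)⁻¹ * 2‖ ≤ 1 := by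
    rw [norm_mul, norm_inv, inv_mul_le_iff₀ (norm_pos_iff.2 hl.lne), mul_one]
    exact hl.lmax 2 h2
  have h4 := T.smul_mem (⟨(l : E)⁻¹ * 2, h3⟩ : OE E) h1
  have h5 : (⟨(l : E)⁻¹ * 2, h3⟩ : OE E) • ((l : E) • lft (m : Wq T)) =
      lft (m : Wq T) + lft (m : Wq T) := by
    show ((l : E)⁻¹ * 2) • ((l : E) • lft (m : Wq T)) = _
    rw [smul_smul, mul_comm ((l : E)⁻¹) 2, mul_assoc, inv_mul_cancel₀ hl.lne, mul_one, two_smul]
  rw [h5] at h4
  exact h4

variable (hl : Lat b l t T) (h : BT b T N s K)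

/-- the reduction of the form of `BT` -/
noncomputable def bb : MN T l 1 →+ MN T l 1 →+ A0 := bR hl 1 fun x hx => (h.kT x).2 hx

theorem bb_val {x y : MN T l 1} {x' y' : Fin n → E} (hx : mq T x' = x) (hy : mq T y' = y) :
    bb hl h x y = pr0 (t ((l : E) * be b K x' y')) := by
  show bR hl 1 _ x y = _
  rw [bR_val hl hx hy, pow_one]

/-- the reduction of `N` -/
noncomputable def nM : MN T l 1 →ₗ[OE E] MN T l 1 := aM l 1 h.nT

theorem bb_bal (a : OE E) (x y : MN T l 1) : bb hl h (a • x) y = bb hl h x (a • y) := bR_bal hl a x y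

theorem bb_two (x y : MN T l 1) : bb hl h x y + bb hl h x y = 0 := by
  rw [← map_add, two_MN hl, map_zero]

theorem bb_neg (x y : MN T l 1) : -bb hl h x y = bb hl h x y :=
  neg_eq_of_add_eq_zero_left (bb_two hl h x y)

theorem bb_skew (x y : MN T l 1) : bb hl h x y = bb hl h (y + nM h y) x := by
  rw [← bb_neg, bb_val hl h (mq_lft (x : Wq T)) (mq_lft (y : Wq T)),
    bb_val hl h (x' := lft (y : Wq T) + N *ᵥ lft (y : Wq T)) (by
      rw [mq_add, mq_lft, aM_val (l := l) (k := 1) (hA := h.nT) (mq_lft (y : Wq T))]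
      rfl) (mq_lft (x : Wq T)), be_skew h, mul_neg, map_neg, map_neg, neg_neg]

theorem nM_nM (x : MN T l 1) : nM h (nM h x) = 0 := by
  apply Subtype.ext
  show (aM l 1 h.nT (aM l 1 h.nT x) : Wq T) = 0
  rw [← aM_val (x := N *ᵥ lft (x : Wq T)) (aM_val (mq_lft (x : Wq T))), NN h]
  rfl

theorem bb_nd (y : MN T l 1) (h0 : ∀ x, bb hl h x y = 0) : y = 0 :=
  bR_nd hl (fun x hx => (h.kT x).1 hx) y h0

theorem bb_g (x y : MN T l 1) : bb hl h (x + nM h x) (y + nM h y) = bb hl h x y := by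
  rw [bb_skew hl h x y, bb_skew hl h (y + nM h y) x]

include hl in
theorem gg (y : MN T l 1) : (y + nM h y) + nM h (y + nM h y) = y := by
  rw [map_add, nM_nM, add_zero, add_assoc, two_MN hl, add_zero]

/-- the form with the two arguments exchanged -/
theorem bb_swap (x y : MN T l 1) : bb hl h x y = bb hl h y (x + nM h x) := by
  rw [bb_skew hl h x y, ← bb_g hl h (y + nM h y) x, gg hl h]

/-- the quadratic functions on `M × M` -/
noncomputable def QR (c : ℕ) (a : OE E) (p : MN T l 1 × MN T l 1) : A0 :=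
  bb hl h (a • p.2) p.1 + bb hl h (a • p.1) p.1 + c • bb hl h (a • p.2) p.2

/-- the bilinear form on `M × M` -/
noncomputable def BR (c : ℕ) : (MN T l 1 × MN T l 1) →+ (MN T l 1 × MN T l 1) →+ A0 :=
  AddMonoidHom.mk' (fun p => AddMonoidHom.mk'
    (fun q => bb hl h p.2 q.1 + bb hl h q.2 p.1 + (bb hl h p.1 q.1 + bb hl h q.1 p.1) +
      c • (bb hl h p.2 q.2 + bb hl h q.2 p.2)) (fun q q' => by
      simp only [Prod.fst_add, Prod.snd_add, map_add, AddMonoidHom.add_apply, smul_add]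
      abel)) (fun p p' => by
      ext q
      show bb hl h (p + p').2 q.1 + bb hl h q.2 (p + p').1 + (bb hl h (p + p').1 q.1 +
        bb hl h q.1 (p + p').1) + c • (bb hl h (p + p').2 q.2 + bb hl h q.2 (p + p').2) =
        (bb hl h p.2 q.1 + bb hl h q.2 p.1 + (bb hl h p.1 q.1 + bb hl h q.1 p.1) +
      c • (bb hl h p.2 q.2 + bb hl h q.2 p.2)) + (bb hl h p'.2 q.1 + bb hl h q.2 p'.1 +
        (bb hl h p'.1 q.1 + bb hl h q.1 p'.1) + c • (bb hl h p'.2 q.2 + bb hl h q.2 p'.2))
      simp only [Prod.fst_add, Prod.snd_add, map_add, AddMonoidHom.add_apply, smul_add]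
      abel)

theorem BR_apply (c : ℕ) (p q : MN T l 1 × MN T l 1) :
    BR hl h c p q = bb hl h p.2 q.1 + bb hl h q.2 p.1 + (bb hl h p.1 q.1 + bb hl h q.1 p.1) +
      c • (bb hl h p.2 q.2 + bb hl h q.2 p.2) := rfl

/-- THE QUADRATIC FORM IS NONDEGENERATE. -/
theorem qw (c : ℕ) : QW (BR hl h c) (QR hl h c) where
  bal a x y := by
    rw [BR_apply, BR_apply]
    simp only [Prod.smul_fst, Prod.smul_snd, bb_bal hl h a]
  sym x y := by
    rw [BR_apply, BR_apply]
    abel
  pol a x y := by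
    rw [BR_apply]
    simp only [QR, Prod.fst_add, Prod.snd_add, smul_add, map_add, AddMonoidHom.add_apply,
      Prod.smul_fst, Prod.smul_snd, bb_bal hl h a]
    abel
  nd x hx := by
    have e1 : ∀ v', bb hl h v' (x.1 + c • nM h x.2) = 0 := fun v' => by
      have e2 := hx (0, v')
      rw [BR_apply] at e2
      simp only [map_zero, AddMonoidHom.zero_apply, zero_add, add_zero] at e2
      rw [bb_swap hl h x.2 v', ← map_add] at e2
      have e3 : x.2 + nM h x.2 + x.2 = nM h x.2 := by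
        rw [add_assoc, add_comm (nM h x.2), ← add_assoc, two_MN hl, zero_add]
      rw [e3] at e2
      rw [map_add, map_nsmul]
      exact e2
    have e4 := bb_nd hl h _ e1
    have e5 : ∀ u', bb hl h u' (x.2 + nM h (x.2 + x.1)) = 0 := fun u' => by
      have e2 := hx (u', 0)
      rw [BR_apply] at e2
      simp only [map_zero, AddMonoidHom.zero_apply, add_zero, smul_zero] at e2
      rw [bb_swap hl h x.2 u', bb_swap hl h x.1 u', ← map_add, ← map_add] at e2
      have e3 : x.2 + nM h x.2 + (x.1 + nM h x.1 + x.1) = x.2 + nM h (x.2 + x.1) := by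
        rw [add_assoc x.1, add_comm (nM h x.1) x.1, ← add_assoc x.1 x.1, two_MN hl, zero_add,
          map_add]
        abel
      rw [e3] at e2
      exact e2
    have e6 := bb_nd hl h _ e5
    have e7 : nM h (x.2 + x.1) = nM h x.2 + nM h x.1 := map_add _ _ _
    have e8 : nM h x.1 = 0 := by
      have e9 : x.1 = -(c • nM h x.2) := eq_neg_of_add_eq_zero_left e4
      rw [e9, map_neg, map_nsmul, nM_nM, smul_zero, neg_zero]
    rw [e7, e8, add_zero] at e6
    have e10 : x.2 = -nM h x.2 := eq_neg_of_add_eq_zero_left e6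
    have e11 : nM h x.2 = 0 := by
      rw [e10, map_neg, nM_nM, neg_zero]
    have e12 : x.2 = 0 := by
      rw [e11, add_zero] at e6
      exact e6
    rw [e11, smul_zero, add_zero] at e4
    exact Prod.ext e4 e12

end red

end Pool.Agent.Work.MP_787500_nt.CP
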