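import Mathlib
import Pool.Agent.Work.MP_787500_nt.CP.RForm
import Pool.Agent.Work.MP_787500_nt.GP.L13_CardN
import Pool.Agent.Work.MP_787500_nt.QU.UrV

/-!
The reductions of the elements of a subspace, their number, and orthogonality.
-/

set_option autoImplicit false
set_option linter.unusedSectionVars false

namespace Pool.Agent.Work.MP_787500_nt.CP

open Matrix
open Pool.Agent.Work.MP_787500_nt.GP (A0 OE MN actN actQ bil bN mq lft mq_lft mq_eq mq_add mq_smul mq_eq_zero Wq Lat
  pr0 bil_add_left bil_add_right bil_sub_left bil_sub_right bil_smul_left bil_smul_right pr0_zero_of_norm bN_val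
  bN_nd bN_symm bN_bal coe_actN actQ_mq lamN perpL)
open Pool.Agent.Work.MP_787500_nt.ER (BT kerN ranN W5 mem_kerN)

variable {E : Type*} [NormedField E] [NormedAlgebra ℚ_[2] E] [FiniteDimensional ℚ_[2] E] {n : ℕ}
  {b N s K : Matrix (Fin n) (Fin n) E}
  {T : Submodule (OE E) (Fin n → E)} {l : OE E} {t : E →ₗ[ℚ_[2]] ℚ_[2]}

/-- the classes of the elements of a subspace -/
def mS (T : Submodule (OE E) (Fin n → E)) (l : OE E) (k : ℕ) (S : Submodule E (Fin n → E)) :
    Submodule (OE E) (MN T l k) where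
  carrier := {m | ∃ x ∈ S, mq T x = m}
  add_mem' := by
    rintro x y ⟨x', hx, h1⟩ ⟨y', hy, h2⟩
    exact ⟨x' + y', S.add_mem hx hy, by rw [mq_add, h1, h2, Submodule.coe_add]⟩
  zero_mem' := ⟨0, S.zero_mem, rfl⟩
  smul_mem' := by
    rintro a x ⟨x', hx, h1⟩
    exact ⟨(a : E) • x', S.smul_mem _ hx, by rw [mq_smul, h1, Submodule.coe_smul]⟩

theorem mem_mS {k : ℕ} {S : Submodule E (Fin n → E)} {m : MN T l k} :
    m ∈ mS T l k S ↔ ∃ x ∈ S, mq T x = m := Iff.rfl

theorem mS_mono {k : ℕ} {S S' : Submodule E (Fin n → E)} (h : S ≤ S') : mS T l k S ≤ mS T l k S' := by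
  rintro m ⟨x, hx, h1⟩
  exact ⟨x, h hx, h1⟩

theorem card_mS [IsLocalRing (OE E)] (hl : Lat b l t T) (k : ℕ) (S : Submodule E (Fin n → E)) :
    Nat.card (mS T l k S) =
      Nat.card (IsLocalRing.ResidueField (OE E)) ^ (k * Module.finrank E S) := by
  let e := LinearEquiv.funUnique Unit E (Fin n → E)
  let L : Submodule E (Unit → Fin n → E) := S.comap (e : (Unit → Fin n → E) →ₗ[E] (Fin n → E))
  have h1 : Module.finrank E L = Module.finrank E S := (LinearEquiv.ofSubmodule' e S).finrank_eq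
  have h2 : FiniteDimensional E L := inferInstance
  have h3 := GP.card_lamN hl k L fun X _ => ⟨‖X ()‖, fun d => le_rfl⟩
  rw [h1] at h3
  rw [← h3]
  refine Nat.card_congr ⟨fun m => ⟨fun _ => m.1, ?_⟩, fun x => ⟨x.1 (), ?_⟩, fun m => rfl,
    fun x => rfl⟩
  · obtain ⟨x, hx, h4⟩ := m.2
    exact ⟨fun _ => x, hx, fun _ => h4.symm⟩
  · obtain ⟨X, hX, h4⟩ := x.2
    exact ⟨X (), hX, (h4 ()).symm⟩

theorem mS_top {k : ℕ} : mS T l k ⊤ = ⊤ :=
  eq_top_iff.2 fun m _ => ⟨lft (m : Wq T), trivial, mq_lft _⟩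

theorem card_MN [IsLocalRing (OE E)] (hl : Lat b l t T) (k : ℕ) :
    Nat.card (MN T l k) = Nat.card (IsLocalRing.ResidueField (OE E)) ^ (k * n) := by
  have h1 := card_mS hl k ⊤
  rw [mS_top, finrank_top, Module.finrank_fin_fun] at h1
  rw [← h1]
  exact (Nat.card_congr (Equiv.Set.univ _)).symm

/-- ORTHOGONALITY. -/
theorem perp_mS [IsLocalRing (OE E)] (hl : Lat b l t T) {k : ℕ} {hK : ∀ x ∈ T, K *ᵥ x ∈ T}
    (hK' : ∀ x, K *ᵥ x ∈ T → x ∈ T) {S S' : Submodule E (Fin n → E)}
    (h0 : ∀ x ∈ S, ∀ y ∈ S', be b K x y = 0) (hd : Module.finrank E S + Module.finrank E S' = n)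
    {x : MN T l k} (hx : ∀ y ∈ mS T l k S', bR hl k hK x y = 0) : x ∈ mS T l k S := by
  have hf : Finite (MN T l k) := GP.MN_finite hl k
  have hres : Finite (IsLocalRing.ResidueField (OE E)) := GP.res_finite
  set β := (bR hl k hK).flip with hβ
  have hnd : ∀ a, (∀ a', β a a' = 0) → a = 0 := fun a ha => bR_nd hl hK' a fun x => ha x
  have h1 := GP.card_perp β (mS T l k S').toAddSubgroup fun a ha => by
    rw [hnd a ha]
    exact (mS T l k S').zero_mem
  have e1 : Nat.card (perpL β.flip (⊤ : AddSubgroup (MN T l k))) = 1 := by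
    rw [AddSubgroup.card_eq_one, eq_bot_iff]
    intro x hx
    exact hnd x fun y => hx y trivial
  have e2 : Nat.card (mS T l k S').toAddSubgroup = Nat.card (mS T l k S') := rfl
  rw [e1, mul_one, e2, card_mS hl, card_MN hl] at h1
  have hle : (mS T l k S).toAddSubgroup ≤ perpL β (mS T l k S').toAddSubgroup := by
    rintro m ⟨x, hx, hxm⟩ m' ⟨y, hy, hym⟩
    show bR hl k hK m m' = 0
    rw [bR_val hl hxm hym, h0 x hx y hy, mul_zero, map_zero, map_zero]
  have hq : 0 < Nat.card (IsLocalRing.ResidueField (OE E)) := Nat.card_pos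
  have e3 : Nat.card (perpL β (mS T l k S').toAddSubgroup) = Nat.card (mS T l k S).toAddSubgroup := by
    show _ = Nat.card (mS T l k S)
    rw [card_mS hl]
    refine Nat.eq_of_mul_eq_mul_left (Nat.pow_pos (n := k * Module.finrank E S') hq) ?_
    rw [h1, ← pow_add, ← mul_add, add_comm, hd]
  have e4 : ((mS T l k S).toAddSubgroup : Set (MN T l k)) = perpL β (mS T l k S').toAddSubgroup :=
    Set.eq_of_subset_of_ncard_le hle (by
      rw [← Nat.card_coe_set_eq, ← Nat.card_coe_set_eq]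
      exact e3.le) (Set.toFinite _)
  have e5 : x ∈ ((mS T l k S).toAddSubgroup : Set (MN T l k)) := by
    rw [e4]
    exact fun y hy => hx y hy
  exact e5

section lin

/-- a vector with all its multiples in the lattice is 0 -/
theorem zero_of_T (hl : Lat b l t T) {v : Fin n → E} (hv : ∀ c : E, c • v ∈ T) : v = 0 := by
  by_contra h0
  obtain ⟨R, hR⟩ := hl.bdd
  have hl0 : 0 < ‖(l : E)‖ := norm_pos_iff.2 hl.lne
  have hv1 : 0 < ‖v‖ := norm_pos_iff.2 h0
  obtain ⟨k, hk⟩ := pow_unbounded_of_one_lt (R / ‖v‖) (one_lt_inv_iff₀.2 ⟨hl0, hl.llt⟩)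
  have h3 := hR _ (hv (((l : E)⁻¹) ^ k))
  rw [norm_smul, norm_pow, norm_inv] at h3
  rw [div_lt_iff₀ hv1] at hk
  linarith

theorem K_surj (hl : Lat b l t T) (hK' : ∀ x, K *ᵥ x ∈ T → x ∈ T) (y : Fin n → E) :
    ∃ x, K *ᵥ x = y := by
  have h1 : Function.Injective K.mulVecLin := by
    rw [← LinearMap.ker_eq_bot, LinearMap.ker_eq_bot']
    intro x hx
    refine zero_of_T hl fun c => hK' _ ?_
    rw [mulVec_smul]
    have : K *ᵥ x = 0 := hx
    rw [this, smul_zero]
    exact T.zero_mem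
  exact LinearMap.injective_iff_surjective.1 h1 y

theorem be_nd (hl : Lat b l t T) (hK' : ∀ x, K *ᵥ x ∈ T → x ∈ T) {v : Fin n → E}
    (hv : ∀ y, be b K v y = 0) : v = 0 := by
  refine zero_of_T hl fun c => (hl.dual _).2 fun y _ => ?_
  obtain ⟨x, rfl⟩ := K_surj hl hK' y
  have h1 := hv x
  rw [be] at h1
  rw [bil_smul_left, h1, mul_zero, norm_zero]
  exact zero_le_one

/-- `v ↦ be (v, ·)` -/
def beL (b K : Matrix (Fin n) (Fin n) E) : (Fin n → E) →ₗ[E] Module.Dual E (Fin n → E) where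
  toFun v := {
    toFun := fun y => be b K v y
    map_add' := be_add_right v
    map_smul' := fun a y => be_smul_right a v y }
  map_add' v w := LinearMap.ext fun y => be_add_left v w y
  map_smul' a v := LinearMap.ext fun y => be_smul_left a v y

/-- the left orthogonal of a subspace -/
def lP (b K : Matrix (Fin n) (Fin n) E) (S : Submodule E (Fin n → E)) : Submodule E (Fin n → E) :=
  S.dualAnnihilator.comap (beL b K)

theorem mem_lP {S : Submodule E (Fin n → E)} {v : Fin n → E} :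
    v ∈ lP b K S ↔ ∀ y ∈ S, be b K v y = 0 := by
  rw [lP, Submodule.mem_comap, Submodule.mem_dualAnnihilator]
  rfl

theorem finrank_lP (hl : Lat b l t T) (hK' : ∀ x, K *ᵥ x ∈ T → x ∈ T)
    (S : Submodule E (Fin n → E)) :
    Module.finrank E (lP b K S) + Module.finrank E S = n := by
  have h1 : Function.Injective (beL b K) := by
    rw [← LinearMap.ker_eq_bot, LinearMap.ker_eq_bot']
    intro x hx
    exact be_nd hl hK' fun y => LinearMap.congr_fun hx y
  have h2 : Function.Surjective (beL b K) :=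
    (LinearMap.injective_iff_surjective_of_finrank_eq_finrank (by
      rw [Subspace.dual_finrank_eq])).1 h1
  let e := LinearEquiv.ofBijective (beL b K) ⟨h1, h2⟩
  have h3 : Module.finrank E (lP b K S) = Module.finrank E S.dualAnnihilator :=
    (LinearEquiv.ofSubmodule' e S.dualAnnihilator).finrank_eq
  have h4 := Subspace.finrank_add_finrank_dualAnnihilator_eq S
  rw [Module.finrank_fin_fun] at h4
  omega

variable (hl : Lat b l t T) (h : BT b T N s K)

include hl h

theorem finrank_NN : Module.finrank E (ranN N) + Module.finrank E (kerN N) = n := by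
  have h1 := LinearMap.finrank_range_add_finrank_ker N.mulVecLin
  rw [Module.finrank_fin_fun] at h1
  exact h1

/-- the image of `N` is the orthogonal of the kernel -/
theorem mem_ranN {v : Fin n → E} (hv : ∀ z, N *ᵥ z = 0 → be b K v z = 0) : ∃ w, N *ᵥ w = v := by
  have h1 : ranN N ≤ lP b K (kerN N) := by
    rintro _ ⟨w, rfl⟩
    exact mem_lP.2 fun z hz => be_ker h hz w
  have h2 := finrank_lP hl (fun x hx => (h.kT x).1 hx) (kerN N)
  have h3 := finrank_NN hl h
  have h4 : ranN N = lP b K (kerN N) := Submodule.eq_of_le_of_finrank_eq h1 (by omega)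
  have h5 : v ∈ lP b K (kerN N) := mem_lP.2 fun z hz => hv z hz
  rw [← h4] at h5
  exact h5

end lin

end Pool.Agent.Work.MP_787500_nt.CP
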