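import Mathlib
import Pool.Agent.Work.MP_787500_nt.CP.RLat
import Pool.Agent.Work.MP_787500_nt.EV.Core
import Pool.Agent.Work.MP_787500_nt.GP.L03_Ring

/-!
The lattice `T ∩ ((s - 1) V + ker N)`: an alternating form, and the parity of the number of the elements of a quotient.
-/

set_option autoImplicit false
set_option linter.unusedSectionVars false

namespace Pool.Agent.Work.MP_787500_nt.CP

open Matrix
open Pool.Agent.Work.MP_787500_nt.GP (A0 OE MN actN actQ bil bN mq lft mq_lft mq_eq mq_add mq_sub mq_smul mq_eq_zero Wq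
  Lat pr0 bil_add_left bil_add_right bil_sub_left bil_sub_right bil_smul_left bil_smul_right pr0_zero_of_norm bN_val
  bN_nd bN_symm bN_bal coe_actN actQ_mq lamN perpL EvPow IsPow pr0_eq_zero)
open Pool.Agent.Work.MP_787500_nt.ER (BT kerN ranN W5 mem_kerN)
open Pool.Agent.Work.MP_787500_nt.EV (lX mem_lX card_lquot)

/-- a finite module with a nondegenerate alternating form -/
theorem alt_l {O : Type*} [CommRing O] [IsLocalRing O] [Finite (IsLocalRing.ResidueField O)]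
    {X : Type*} [AddCommGroup X] [Module O X] [Finite X] (l : O) (β : X →+ X →+ A0)
    (hbal : ∀ (a : O) x y, β (a • x) y = β x (a • y)) (halt : ∀ (a : O) x, β (a • x) x = 0)
    (hnd : ∀ x, (∀ y, β x y = 0) → x = 0) :
    EvPow (Nat.card (IsLocalRing.ResidueField O)) (Nat.card (X ⧸ lX O X l)) := by
  set q := Nat.card (IsLocalRing.ResidueField O) with hq
  have hq2 : 2 ≤ q := GP.q_two_le
  obtain ⟨m, hm⟩ := GP.alt_card β hbal halt ⊥ fun x => by
    rw [Submodule.mem_bot]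
    exact ⟨fun hx y => by rw [hx, map_zero, AddMonoidHom.zero_apply], hnd x⟩
  let βl : X →+ X →+ A0 := β.comp (DistribSMul.toAddMonoidHom X l)
  have hβl : ∀ x y, βl x y = β (l • x) y := fun x y => rfl
  obtain ⟨m', hm'⟩ := GP.alt_card βl
    (by
      intro a x y
      rw [hβl, hβl, smul_comm l a x, hbal])
    (by
      intro a x
      rw [hβl, smul_smul]
      exact halt _ x)
    ((⊥ : Submodule O X).comap (LinearMap.lsmul O X l)) (by
      intro x
      rw [Submodule.mem_comap, Submodule.mem_bot]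
      constructor
      · intro hx y
        rw [hβl]
        have hx' : l • x = 0 := hx
        rw [hx', map_zero, AddMonoidHom.zero_apply]
      · intro hx
        exact hnd _ fun y => hx y)
  have e0 := card_lquot l (⊥ : Submodule O X)
  rw [bot_sup_eq] at e0
  rw [e0, ← hq] at hm'
  rw [← hq] at hm
  have e1 : Nat.card (⊥ : Submodule O X) = 1 := by
    rw [Nat.card_eq_one_iff_unique]
    exact ⟨inferInstance, ⟨0⟩⟩
  rw [e1, mul_one] at hm hm'
  have hfin : Finite (X ⧸ lX O X l) := Finite.of_surjective _ (Submodule.mkQ_surjective _)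
  refine GP.evPow_cancel hq2 (GP.card_pow (O := O) _) (b := q ^ (2 * m')) ⟨m', rfl⟩ ?_
  exact ⟨m, by rw [← hm, hm']; ring⟩

variable {E : Type*} [NormedField E] [NormedAlgebra ℚ_[2] E] [FiniteDimensional ℚ_[2] E] {n : ℕ}
  {b N s K : Matrix (Fin n) (Fin n) E}
  {T : Submodule (OE E) (Fin n → E)} {l : OE E} {t : E →ₗ[ℚ_[2]] ℚ_[2]}

theorem mem_W5 {u : Fin n → E} : u ∈ W5 N s ↔ ∃ w, N *ᵥ (u - (s *ᵥ w - w)) = 0 := by
  rw [W5, Submodule.mem_sup]
  constructor
  · rintro ⟨_, ⟨w, rfl⟩, z, hz, rfl⟩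
    refine ⟨w, ?_⟩
    have e : (s - 1).mulVecLin w + z - (s *ᵥ w - w) = z := by
      rw [mulVecLin_apply, sub_mulVec, one_mulVec]
      abel
    rw [e]
    exact hz
  · rintro ⟨w, hw⟩
    refine ⟨(s - 1).mulVecLin w, ⟨w, rfl⟩, u - (s *ᵥ w - w), hw, ?_⟩
    rw [mulVecLin_apply, sub_mulVec, one_mulVec]
    abel

/-- a multiple of a vector is in the lattice -/
theorem exists_powT (hl : Lat b l t T) (x : Fin n → E) : ∃ k : ℕ, (l : E) ^ k • x ∈ T := by
  obtain ⟨r, hr, hT⟩ := hl.opn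
  have h1 : Filter.Tendsto (fun k : ℕ => ‖(l : E)‖ ^ k * ‖x‖) Filter.atTop (nhds (0 * ‖x‖)) :=
    (tendsto_pow_atTop_nhds_zero_of_lt_one (norm_nonneg _) hl.llt).mul_const ‖x‖
  rw [zero_mul] at h1
  obtain ⟨k, hk⟩ := (h1.eventually (gt_mem_nhds hr)).exists
  exact ⟨k, hT _ (by rwa [norm_smul, norm_pow])⟩

/-- `T ∩ W5` -/
def T5 (T : Submodule (OE E) (Fin n → E)) (N s : Matrix (Fin n) (Fin n) E) :
    Submodule (OE E) (Fin n → E) := T ⊓ (W5 N s).restrictScalars (OE E)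

theorem T5_fg (hl : Lat b l t T) : Module.Finite (OE E) (T5 T N s) := by
  have hpid : IsPrincipalIdealRing (OE E) := GP.isPID hl.lne hl.llt hl.lmax
  obtain ⟨R, hR⟩ := hl.bdd
  have h1 : Filter.Tendsto (fun k : ℕ => ‖(l : E)‖ ^ k * R) Filter.atTop (nhds (0 * R)) :=
    (tendsto_pow_atTop_nhds_zero_of_lt_one (norm_nonneg _) hl.llt).mul_const R
  rw [zero_mul] at h1
  obtain ⟨k, hk⟩ := (h1.eventually (gt_mem_nhds one_pos)).exists
  have hle : ∀ (x : T5 T N s) (i : Fin n), ‖(l : E) ^ k * x.1 i‖ ≤ 1 := fun x i => by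
    rw [norm_mul, norm_pow]
    exact (mul_le_mul_of_nonneg_left ((norm_le_pi_norm _ i).trans (hR _ x.2.1)) (by positivity)).trans
      hk.le
  let Φ : T5 T N s →ₗ[OE E] (Fin n → OE E) :=
    { toFun := fun x i => ⟨(l : E) ^ k * x.1 i, hle x i⟩
      map_add' := fun x y => by
        funext i
        apply Subtype.ext
        show (l : E) ^ k * (x.1 i + y.1 i) = (l : E) ^ k * x.1 i + (l : E) ^ k * y.1 i
        ring
      map_smul' := fun a x => by
        funext i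
        apply Subtype.ext
        show (l : E) ^ k * ((a : E) * x.1 i) = (a : E) * ((l : E) ^ k * x.1 i)
        ring }
  refine Module.Finite.of_injective Φ fun x y hxy => Subtype.ext (funext fun i => ?_)
  have h2 : (l : E) ^ k * x.1 i = (l : E) ^ k * y.1 i := congrArg Subtype.val (congrFun hxy i)
  exact mul_left_cancel₀ (pow_ne_zero _ hl.lne) h2

/-- the elements with `N w` in the lattice -/
def J2 (T : Submodule (OE E) (Fin n → E)) (N s : Matrix (Fin n) (Fin n) E) :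
    Submodule (OE E) (T5 T N s) where
  carrier := {u | ∃ w, N *ᵥ ((u : Fin n → E) - (s *ᵥ w - w)) = 0 ∧ N *ᵥ w ∈ T}
  add_mem' := by
    rintro u u' ⟨w, h1, h2⟩ ⟨w', h1', h2'⟩
    refine ⟨w + w', ?_, by rw [mulVec_add]; exact T.add_mem h2 h2'⟩
    have e : ((u + u' : T5 T N s) : Fin n → E) - (s *ᵥ (w + w') - (w + w')) =
        ((u : Fin n → E) - (s *ᵥ w - w)) + ((u' : Fin n → E) - (s *ᵥ w' - w')) := by
      rw [mulVec_add, Submodule.coe_add]
      abel
    rw [e, mulVec_add, h1, h1', add_zero]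
  zero_mem' := ⟨0, by rw [mulVec_zero, sub_zero, Submodule.coe_zero, sub_zero, mulVec_zero], by
    rw [mulVec_zero]
    exact T.zero_mem⟩
  smul_mem' := by
    rintro a u ⟨w, h1, h2⟩
    refine ⟨(a : E) • w, ?_, by rw [mulVec_smul]; exact T.smul_mem a h2⟩
    have e : ((a • u : T5 T N s) : Fin n → E) - (s *ᵥ ((a : E) • w) - (a : E) • w) =
        (a : E) • ((u : Fin n → E) - (s *ᵥ w - w)) := by
      rw [mulVec_smul, smul_sub, smul_sub]
      rfl
    rw [e, mulVec_smul, h1, smul_zero]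

/-- the classes of level 1 of the elements `x` with `l x ∈ J2` -/
def U2 (T : Submodule (OE E) (Fin n → E)) (l : OE E) (N s : Matrix (Fin n) (Fin n) E) :
    Submodule (OE E) (MN T l 1) where
  carrier := {m | ∃ x w, mq T x = m ∧ N *ᵥ (x - (s *ᵥ w - w)) = 0 ∧ (l : E) • (N *ᵥ w) ∈ T}
  add_mem' := by
    rintro u u' ⟨x, w, h0, h1, h2⟩ ⟨x', w', h0', h1', h2'⟩
    refine ⟨x + x', w + w', by rw [mq_add, h0, h0', Submodule.coe_add], ?_, by
      rw [mulVec_add, smul_add]; exact T.add_mem h2 h2'⟩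
    have e : x + x' - (s *ᵥ (w + w') - (w + w')) = (x - (s *ᵥ w - w)) + (x' - (s *ᵥ w' - w')) := by
      rw [mulVec_add]
      abel
    rw [e, mulVec_add, h1, h1', add_zero]
  zero_mem' := ⟨0, 0, rfl, by rw [mulVec_zero, sub_zero, sub_zero, mulVec_zero], by
    rw [mulVec_zero, smul_zero]
    exact T.zero_mem⟩
  smul_mem' := by
    rintro a u ⟨x, w, h0, h1, h2⟩
    refine ⟨(a : E) • x, (a : E) • w, by rw [mq_smul, h0, Submodule.coe_smul], ?_, by
      rw [mulVec_smul, smul_comm]; exact T.smul_mem a h2⟩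
    have e : (a : E) • x - (s *ᵥ ((a : E) • w) - (a : E) • w) = (a : E) • (x - (s *ᵥ w - w)) := by
      rw [mulVec_smul, smul_sub, smul_sub]
    rw [e, mulVec_smul, h1, smul_zero]

section form

variable (hl : Lat b l t T) (h : BT b T N s K)

include h

theorem be_zero {w u : Fin n → E} (hw : N *ᵥ (s *ᵥ w - w) = 0) (hu : u ∈ W5 N s) :
    be b K (N *ᵥ w) u = 0 := by
  obtain ⟨w', hw'⟩ := mem_W5.1 hu
  have e4 : be b K (N *ᵥ w) u = be b K (N *ᵥ w) (s *ᵥ w' - w') := by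
    have := be_ker h hw' w
    rw [be_sub_right, sub_eq_zero] at this
    exact this
  rw [mulVec_sub, sub_eq_zero] at hw
  have e5 : be b K (N *ᵥ (s *ᵥ w)) (s *ᵥ w') = be b K (N *ᵥ w) w' := h.inv w w'
  rw [e4, be_sub_right]
  rw [hw] at e5
  rw [e5, sub_self]

/-- the values of the form -/
theorem be_indep {u w w' u' : Fin n → E} (hw : N *ᵥ (u - (s *ᵥ w - w)) = 0)
    (hw' : N *ᵥ (u - (s *ᵥ w' - w')) = 0) (hu' : u' ∈ W5 N s) :
    be b K (N *ᵥ w) u' = be b K (N *ᵥ w') u' := by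
  have e : N *ᵥ (s *ᵥ (w - w') - (w - w')) = 0 := by
    have e1 : s *ᵥ (w - w') - (w - w') = (u - (s *ᵥ w' - w')) - (u - (s *ᵥ w - w)) := by
      rw [mulVec_sub]
      abel
    rw [e1, mulVec_sub, hw, hw', sub_zero]
  have e2 := be_zero h e hu'
  rw [mulVec_sub, be_sub_left, sub_eq_zero] at e2
  exact e2

include hl

theorem be_int {x y : Fin n → E} (hx : x ∈ T) (hy : y ∈ T) : ‖be b K x y‖ ≤ 1 :=
  (hl.dual x).1 hx _ ((h.kT y).2 hy)

end form

/-- a chosen vector `w` -/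
noncomputable def wf (u : T5 T N s) : Fin n → E := Classical.choose (mem_W5.1 u.2.2)

theorem wf_spec (u : T5 T N s) : N *ᵥ ((u : Fin n → E) - (s *ᵥ wf u - wf u)) = 0 :=
  Classical.choose_spec (mem_W5.1 u.2.2)

/-- the value of the form at two elements -/
noncomputable def p0 (t : E →ₗ[ℚ_[2]] ℚ_[2]) (b K : Matrix (Fin n) (Fin n) E) (u u' : T5 T N s) : A0 :=
  pr0 (t (be b K (N *ᵥ wf u) u'))

section form

variable (hl : Lat b l t T) (h : BT b T N s K)

include h

theorem p0_val {u u' : T5 T N s} {w : Fin n → E} (hw : N *ᵥ ((u : Fin n → E) - (s *ᵥ w - w)) = 0) :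
    p0 t b K u u' = pr0 (t (be b K (N *ᵥ w) u')) := by
  rw [p0, be_indep h (wf_spec u) hw u'.2.2]

theorem p0_add (u v u' : T5 T N s) : p0 t b K (u + v) u' = p0 t b K u u' + p0 t b K v u' := by
  rw [p0_val h (u := u + v) (w := wf u + wf v), p0, p0, mulVec_add, be_add_left, map_add, map_add]
  have e : ((u + v : T5 T N s) : Fin n → E) - (s *ᵥ (wf u + wf v) - (wf u + wf v)) =
      ((u : Fin n → E) - (s *ᵥ wf u - wf u)) + ((v : Fin n → E) - (s *ᵥ wf v - wf v)) := by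
    rw [mulVec_add, Submodule.coe_add]
    abel
  rw [e, mulVec_add, wf_spec, wf_spec, add_zero]

omit h in
theorem p0_add' (u v u' : T5 T N s) : p0 t b K u (v + u') = p0 t b K u v + p0 t b K u u' := by
  rw [p0, p0, p0, Submodule.coe_add, be_add_right, map_add, map_add]

theorem p0_smul (a : OE E) (u u' : T5 T N s) :
    p0 t b K (a • u) u' = pr0 (t ((a : E) * be b K (N *ᵥ wf u) u')) := by
  rw [p0_val h (u := a • u) (w := (a : E) • wf u), mulVec_smul, be_smul_left]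
  have e : ((a • u : T5 T N s) : Fin n → E) - (s *ᵥ ((a : E) • wf u) - (a : E) • wf u) =
      (a : E) • ((u : Fin n → E) - (s *ᵥ wf u - wf u)) := by
    rw [mulVec_smul, smul_sub, smul_sub]
    rfl
  rw [e, mulVec_smul, wf_spec, smul_zero]

omit h in
theorem p0_smul' (a : OE E) (u u' : T5 T N s) :
    p0 t b K u (a • u') = pr0 (t ((a : E) * be b K (N *ᵥ wf u) u')) := by
  rw [p0]
  have e : ((a • u' : T5 T N s) : Fin n → E) = (a : E) • (u' : Fin n → E) := rfl
  rw [e, be_smul_right]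

include hl

theorem p0_alt (a : OE E) (u : T5 T N s) : p0 t b K (a • u) u = 0 := by
  rw [p0_smul h, be_vu h (wf_spec u)]
  refine pr0_zero_of_norm (hl.tint _ ?_)
  rw [norm_mul]
  exact mul_le_one₀ a.2 (norm_nonneg _) (be_int hl h u.2.1 u.2.1)

theorem p0_J2 {u : T5 T N s} (hu : u ∈ J2 T N s) (u' : T5 T N s) : p0 t b K u u' = 0 := by
  obtain ⟨w, h1, h2⟩ := hu
  rw [p0_val h h1]
  exact pr0_zero_of_norm (hl.tint _ (be_int hl h h2 u'.2.1))

theorem p0_swap (u u' : T5 T N s) : p0 t b K u u' = -p0 t b K u' u := by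
  have h1 := p0_alt hl h 1 (u + u')
  have h2 := p0_alt hl h 1 u
  have h3 := p0_alt hl h 1 u'
  rw [one_smul] at h1 h2 h3
  rw [p0_add h, p0_add', p0_add', h2, h3, zero_add, add_zero] at h1
  exact eq_neg_of_add_eq_zero_left h1

theorem p0_J2' {u : T5 T N s} (hu : u ∈ J2 T N s) (u' : T5 T N s) : p0 t b K u' u = 0 := by
  rw [p0_swap hl h, p0_J2 hl h hu, neg_zero]

/-- THE RADICAL. -/
theorem rad_J2 [IsLocalRing (OE E)] {u : T5 T N s} (hu : ∀ u', p0 t b K u u' = 0) :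
    u ∈ J2 T N s := by
  -- integrality
  have h1 : ∀ u' : T5 T N s, ‖be b K (N *ᵥ wf u) u'‖ ≤ 1 := fun u' => by
    refine hl.tdual _ fun a ha => ?_
    have h2 := hu ((⟨a, ha⟩ : OE E) • u')
    rw [p0_smul', pr0_eq_zero] at h2
    obtain ⟨c, hc⟩ := h2
    rw [← hc]
    exact c.2
  obtain ⟨k, hk⟩ := exists_powT hl (N *ᵥ wf u)
  have hkm : (l ^ k : OE E) • mq T (N *ᵥ wf u) = 0 := by
    rw [← mq_smul, mq_eq_zero, Subring.coe_pow]
    exact hk
  have hK' : ∀ x, K *ᵥ x ∈ T → x ∈ T := fun x hx => (h.kT x).1 hx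
  have hdim := finrank_lP hl hK' (W5 N s)
  have h2 : (⟨mq T (N *ᵥ wf u), (Submodule.mem_torsionBy_iff _ _).2 hkm⟩ : MN T l k) ∈
      mS T l k (lP b K (W5 N s)) := by
    refine perp_mS hl (hK := fun x hx => (h.kT x).2 hx) hK' (S' := W5 N s)
      (fun x hx y hy => mem_lP.1 hx y hy) hdim ?_
    rintro m ⟨y, hy, hym⟩
    rw [bR_val hl rfl hym]
    have h3 : (l : E) ^ k • y ∈ T := by
      have h4 : l ^ k • (m : Wq T) = 0 := m.2
      rw [← hym, ← mq_smul, mq_eq_zero, Subring.coe_pow] at h4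
      exact h4
    have h4 := h1 ⟨(l : E) ^ k • y, h3, (W5 N s).smul_mem _ hy⟩
    have h5 : (l : E) ^ k * be b K (N *ᵥ wf u) y = be b K (N *ᵥ wf u) ((l : E) ^ k • y) := by
      rw [be_smul_right]
    rw [h5]
    exact pr0_zero_of_norm (hl.tint _ h4)
  obtain ⟨y0, hy0, hy1⟩ := h2
  have hy2 : N *ᵥ wf u - y0 ∈ T := by
    rw [← mq_eq]
    exact hy1.symm
  rw [mem_lP] at hy0
  obtain ⟨w0, rfl⟩ := mem_ranN hl h fun z hz => hy0 z (Submodule.mem_sup_right hz)
  -- `w0` is fixed modulo the kernel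
  have h3 : N *ᵥ (s *ᵥ w0) = N *ᵥ w0 := by
    rw [← sub_eq_zero]
    refine be_nd hl hK' fun y => ?_
    obtain ⟨A, hA⟩ := h.su
    have hy : y = s *ᵥ ((A⁻¹ : (Matrix (Fin n) (Fin n) E)ˣ) *ᵥ y) := by
      rw [mulVec_mulVec, ← hA, ← Units.val_mul, mul_inv_cancel, Units.val_one, one_mulVec]
    rw [hy]
    generalize ((A⁻¹ : (Matrix (Fin n) (Fin n) E)ˣ) : Matrix (Fin n) (Fin n) E) *ᵥ y = x
    have e1 : be b K (N *ᵥ (s *ᵥ w0)) (s *ᵥ x) = be b K (N *ᵥ w0) x := h.inv w0 x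
    have e2 := hy0 (s *ᵥ x - x) (mem_W5.2 ⟨x, by rw [sub_self, mulVec_zero]⟩)
    rw [be_sub_right, sub_eq_zero] at e2
    rw [be_sub_left, e1, e2, sub_self]
  refine ⟨wf u - w0, ?_, ?_⟩
  · have e : (u : Fin n → E) - (s *ᵥ (wf u - w0) - (wf u - w0)) =
        ((u : Fin n → E) - (s *ᵥ wf u - wf u)) + (s *ᵥ w0 - w0) := by
      rw [mulVec_sub]
      abel
    rw [e, mulVec_add, wf_spec, mulVec_sub, h3, sub_self, add_zero]
  · rw [mulVec_sub]
    exact hy2

theorem J2_pow : ∃ k : ℕ, ∀ u : T5 T N s, l ^ k • u ∈ J2 T N s := by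
  have hfg := T5_fg (N := N) (s := s) hl
  obtain ⟨S, hS⟩ := hfg.fg_top
  have h1 : ∀ u : T5 T N s, ∃ k : ℕ, l ^ k • u ∈ J2 T N s := fun u => by
    obtain ⟨k, hk⟩ := exists_powT hl (N *ᵥ wf u)
    refine ⟨k, (l : E) ^ k • wf u, ?_, by rw [mulVec_smul]; exact hk⟩
    have e : ((l ^ k • u : T5 T N s) : Fin n → E) - (s *ᵥ ((l : E) ^ k • wf u) - (l : E) ^ k • wf u) =
        (l : E) ^ k • ((u : Fin n → E) - (s *ᵥ wf u - wf u)) := by
      rw [mulVec_smul, smul_sub, smul_sub]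
      rfl
    rw [e, mulVec_smul, wf_spec, smul_zero]
  choose f hf using h1
  refine ⟨S.sup f, fun u => ?_⟩
  have h2 : (⊤ : Submodule (OE E) (T5 T N s)) ≤
      (J2 T N s).comap (LinearMap.lsmul (OE E) (T5 T N s) (l ^ S.sup f)) := by
    rw [← hS, Submodule.span_le]
    intro v hv
    show l ^ S.sup f • v ∈ J2 T N s
    have h3 : f v ≤ S.sup f := Finset.le_sup hv
    rw [← Nat.sub_add_cancel h3, pow_add, ← smul_smul]
    exact (J2 T N s).smul_mem _ (hf v)
  exact h2 trivial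

/-- the map to the level `k` -/
noncomputable def lev (k : ℕ) : T5 T N s →ₗ[OE E] MN T l k where
  toFun u := ⟨mq T (((l : E) ^ k)⁻¹ • (u : Fin n → E)), by
    rw [Submodule.mem_torsionBy_iff, ← mq_smul, mq_eq_zero, Subring.coe_pow, smul_smul,
      mul_inv_cancel₀ (pow_ne_zero _ hl.lne), one_smul]
    exact u.2.1⟩
  map_add' u v := Subtype.ext (by
    show mq T (((l : E) ^ k)⁻¹ • ((u : Fin n → E) + v)) = _
    rw [smul_add, mq_add]
    rfl)
  map_smul' a u := Subtype.ext (by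
    show mq T (((l : E) ^ k)⁻¹ • ((a : E) • (u : Fin n → E))) = _
    rw [smul_comm, mq_smul]
    rfl)

end form

end Pool.Agent.Work.MP_787500_nt.CP
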