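import Mathlib
import Pool.Agent.Work.MP_787500_nt.CP.RAlt

/-!
The parity of the number of elements of `mS W5 / U2`.
-/

set_option autoImplicit false
set_option linter.unusedSectionVars false

namespace Pool.Agent.Work.MP_787500_nt.CP

open Matrix
open Pool.Agent.Work.MP_787500_nt.GP (A0 OE MN actN actQ bil bN mq lft mq_lft mq_eq mq_add mq_sub mq_smul mq_eq_zero Wq
  Lat pr0 lamN perpL EvPow IsPow pr0_eq_zero)
open Pool.Agent.Work.MP_787500_nt.ER (BT kerN ranN W5 mem_kerN)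
open Pool.Agent.Work.MP_787500_nt.EV (lX mem_lX card_lquot)

variable {E : Type*} [NormedField E] [NormedAlgebra ℚ_[2] E] [FiniteDimensional ℚ_[2] E] {n : ℕ}
  {b N s K : Matrix (Fin n) (Fin n) E}
  {T : Submodule (OE E) (Fin n → E)} {l : OE E} {t : E →ₗ[ℚ_[2]] ℚ_[2]}

variable (hl : Lat b l t T) (h : BT b T N s K)

theorem lev_val (k : ℕ) (u : T5 T N s) :
    ((lev hl k u : MN T l k) : Wq T) = mq T (((l : E) ^ k)⁻¹ • (u : Fin n → E)) := rfl

theorem ker_lev {k : ℕ} {u : T5 T N s} (hu : lev hl k u = 0) : ∃ v : T5 T N s, l ^ k • v = u := by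
  have h1 : mq T (((l : E) ^ k)⁻¹ • (u : Fin n → E)) = 0 := congrArg Subtype.val hu
  refine ⟨⟨((l : E) ^ k)⁻¹ • (u : Fin n → E), mq_eq_zero.1 h1, (W5 N s).smul_mem _ u.2.2⟩,
    Subtype.ext ?_⟩
  show ((l ^ k : OE E) : E) • (((l : E) ^ k)⁻¹ • (u : Fin n → E)) = u
  rw [Subring.coe_pow, smul_smul, mul_inv_cancel₀ (pow_ne_zero _ hl.lne), one_smul]

include hl h in
theorem fin_X : Finite (T5 T N s ⧸ J2 T N s) := by
  obtain ⟨k, hk⟩ := J2_pow hl h
  have hf : Finite (MN T l k) := GP.MN_finite hl k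
  have h1 : LinearMap.ker (lev hl k) ≤ J2 T N s := by
    intro u hu
    obtain ⟨v, rfl⟩ := ker_lev hl (LinearMap.mem_ker.1 hu)
    exact hk v
  have h2 : Finite (T5 T N s ⧸ LinearMap.ker (lev hl k)) :=
    Finite.of_equiv _ (lev hl k).quotKerEquivRange.symm.toEquiv
  exact Finite.of_surjective _ (Submodule.factor_surjective h1)

/-- representatives -/
noncomputable def rp (x : T5 T N s ⧸ J2 T N s) : T5 T N s :=
  Function.surjInv (Submodule.Quotient.mk_surjective (J2 T N s)) x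

theorem mk_rp (x : T5 T N s ⧸ J2 T N s) : Submodule.Quotient.mk (rp x) = x :=
  Function.surjInv_eq _ x

include hl h in
theorem p0_cl {u v : T5 T N s} (hv : u - v ∈ J2 T N s) (w : T5 T N s) :
    p0 t b K u w = p0 t b K v w := by
  have e : u = (u - v) + v := by abel
  rw [e, p0_add h, p0_J2 hl h hv, zero_add]

include hl h in
theorem p0_cl' {u v : T5 T N s} (hv : u - v ∈ J2 T N s) (w : T5 T N s) :
    p0 t b K w u = p0 t b K w v := by
  rw [p0_swap hl h w u, p0_swap hl h w v, p0_cl hl h hv]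

/-- the form on the quotient -/
noncomputable def pX : (T5 T N s ⧸ J2 T N s) →+ (T5 T N s ⧸ J2 T N s) →+ A0 :=
  AddMonoidHom.mk' (fun x => AddMonoidHom.mk' (fun y => p0 t b K (rp x) (rp y)) fun y z => by
    rw [← p0_add']
    refine p0_cl' hl h ?_ _
    rw [← Submodule.Quotient.eq, mk_rp, Submodule.Quotient.mk_add, mk_rp, mk_rp]) fun x x' => by
    ext y
    show p0 t b K (rp (x + x')) (rp y) = p0 t b K (rp x) (rp y) + p0 t b K (rp x') (rp y)
    rw [← p0_add h]
    refine p0_cl hl h ?_ _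
    rw [← Submodule.Quotient.eq, mk_rp, Submodule.Quotient.mk_add, mk_rp, mk_rp]

theorem pX_apply (x y : T5 T N s ⧸ J2 T N s) : pX hl h x y = p0 t b K (rp x) (rp y) := rfl

include hl h in
theorem evX [IsLocalRing (OE E)] : EvPow (Nat.card (IsLocalRing.ResidueField (OE E)))
    (Nat.card ((T5 T N s ⧸ J2 T N s) ⧸ lX (OE E) (T5 T N s ⧸ J2 T N s) l)) := by
  have hres : Finite (IsLocalRing.ResidueField (OE E)) := GP.res_finite
  have hf := fin_X hl h
  refine alt_l l (pX hl h) (fun a x y => ?_) (fun a x => ?_) fun x hx => ?_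
  · rw [pX_apply, pX_apply]
    have e1 : rp (a • x) - a • rp x ∈ J2 T N s := by
      rw [← Submodule.Quotient.eq, mk_rp, Submodule.Quotient.mk_smul, mk_rp]
    have e2 : rp (a • y) - a • rp y ∈ J2 T N s := by
      rw [← Submodule.Quotient.eq, mk_rp, Submodule.Quotient.mk_smul, mk_rp]
    rw [p0_cl hl h e1, p0_cl' hl h e2, p0_smul h, p0_smul']
  · rw [pX_apply]
    have e1 : rp (a • x) - a • rp x ∈ J2 T N s := by
      rw [← Submodule.Quotient.eq, mk_rp, Submodule.Quotient.mk_smul, mk_rp]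
    rw [p0_cl hl h e1, p0_alt hl h]
  · rw [← mk_rp x, Submodule.Quotient.mk_eq_zero]
    refine rad_J2 hl h fun u' => ?_
    have e1 := hx (Submodule.Quotient.mk u')
    rw [pX_apply] at e1
    have e2 : u' - rp (Submodule.Quotient.mk u') ∈ J2 T N s := by
      rw [← Submodule.Quotient.eq, mk_rp]
    rw [p0_cl' hl h e2]
    exact e1

theorem U2_le : U2 T l N s ≤ mS T l 1 (W5 N s) := by
  rintro m ⟨x, w, h0, h1, -⟩
  exact ⟨x, mem_W5.2 ⟨w, h1⟩, h0⟩

include hl h in
/-- THE PARITY. -/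
theorem ev52 [IsLocalRing (OE E)] : EvPow (Nat.card (IsLocalRing.ResidueField (OE E)))
    (Nat.card (mS T l 1 (W5 N s)) * Nat.card (U2 T l N s)) := by
  have hres : Finite (IsLocalRing.ResidueField (OE E)) := GP.res_finite
  have hf := fin_X hl h
  have hfM : Finite (MN T l 1) := GP.MN_finite hl 1
  set q := Nat.card (IsLocalRing.ResidueField (OE E)) with hq
  let X := T5 T N s ⧸ J2 T N s
  let f1 : T5 T N s →ₗ[OE E] X ⧸ lX (OE E) X l :=
    (lX (OE E) X l).mkQ.comp (J2 T N s).mkQ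
  have hs1 : Function.Surjective f1 :=
    (Submodule.mkQ_surjective _).comp (Submodule.mkQ_surjective _)
  let f2 : T5 T N s →ₗ[OE E] MN T l 1 ⧸ U2 T l N s := (U2 T l N s).mkQ.comp (lev hl 1)
  let f3 : mS T l 1 (W5 N s) →ₗ[OE E] MN T l 1 ⧸ U2 T l N s :=
    (U2 T l N s).mkQ.comp (mS T l 1 (W5 N s)).subtype
  have hr23 : LinearMap.range f2 = LinearMap.range f3 := by
    apply le_antisymm
    · rintro _ ⟨u, rfl⟩
      exact ⟨⟨lev hl 1 u, ((l : E) ^ 1)⁻¹ • (u : Fin n → E), (W5 N s).smul_mem _ u.2.2, rfl⟩, rfl⟩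
    · rintro _ ⟨⟨m, x, hx, hxm⟩, rfl⟩
      have hm : (l : E) ^ 1 • x ∈ T := by
        have h4 : l ^ 1 • (m : Wq T) = 0 := m.2
        rw [← hxm, ← mq_smul, mq_eq_zero, Subring.coe_pow] at h4
        exact h4
      refine ⟨⟨(l : E) ^ 1 • x, hm, (W5 N s).smul_mem _ hx⟩, ?_⟩
      show (U2 T l N s).mkQ _ = (U2 T l N s).mkQ m
      congr 1
      apply Subtype.ext
      show mq T (((l : E) ^ 1)⁻¹ • ((l : E) ^ 1 • x)) = m
      rw [smul_smul, inv_mul_cancel₀ (pow_ne_zero _ hl.lne), one_smul, hxm]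
  have hker : LinearMap.ker f1 = LinearMap.ker f2 := by
    ext u
    have k1 : u ∈ LinearMap.ker f1 ↔ ∃ v : T5 T N s, u - l • v ∈ J2 T N s := by
      rw [LinearMap.mem_ker]
      show (lX (OE E) X l).mkQ ((J2 T N s).mkQ u) = 0 ↔ _
      rw [Submodule.mkQ_apply, Submodule.Quotient.mk_eq_zero, mem_lX]
      constructor
      · rintro ⟨y, hy⟩
        refine ⟨rp y, ?_⟩
        rw [← Submodule.Quotient.eq, Submodule.Quotient.mk_smul, mk_rp, hy]
        rfl
      · rintro ⟨v, hv⟩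
        refine ⟨Submodule.Quotient.mk v, ?_⟩
        rw [← Submodule.Quotient.eq, Submodule.Quotient.mk_smul] at hv
        rw [← hv]
        rfl
    have k2 : u ∈ LinearMap.ker f2 ↔ lev hl 1 u ∈ U2 T l N s := by
      rw [LinearMap.mem_ker]
      show (U2 T l N s).mkQ (lev hl 1 u) = 0 ↔ _
      rw [Submodule.mkQ_apply, Submodule.Quotient.mk_eq_zero]
    rw [k1, k2]
    constructor
    · rintro ⟨v, w, h1, h2⟩
      refine ⟨(l : E)⁻¹ • ((u : Fin n → E) - (l : E) • v), (l : E)⁻¹ • w, ?_, ?_, ?_⟩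
      · rw [lev_val, mq_eq, smul_sub, smul_smul, inv_mul_cancel₀ hl.lne, one_smul, pow_one]
        have e : (l : E)⁻¹ • (u : Fin n → E) - v - (l : E)⁻¹ • (u : Fin n → E) = -v := by abel
        rw [e]
        exact T.neg_mem v.2.1
      · have e : (l : E)⁻¹ • ((u : Fin n → E) - (l : E) • (v : Fin n → E)) -
            (s *ᵥ ((l : E)⁻¹ • w) - (l : E)⁻¹ • w) =
            (l : E)⁻¹ • (((u - l • v : T5 T N s) : Fin n → E) - (s *ᵥ w - w)) := by
          rw [mulVec_smul, ← smul_sub, ← smul_sub]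
          rfl
        rw [e, mulVec_smul, h1, smul_zero]
      · rw [mulVec_smul, smul_smul, mul_inv_cancel₀ hl.lne, one_smul]
        exact h2
    · rintro ⟨x, w, h0, h1, h2⟩
      rw [lev_val, mq_eq, pow_one] at h0
      have hxW : x ∈ W5 N s := mem_W5.2 ⟨w, h1⟩
      have hy : (l : E)⁻¹ • (u : Fin n → E) - x ∈ T := by
        rw [← neg_sub]
        exact T.neg_mem h0
      have hyW : (l : E)⁻¹ • (u : Fin n → E) - x ∈ W5 N s :=
        (W5 N s).sub_mem ((W5 N s).smul_mem _ u.2.2) hxW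
      refine ⟨⟨_, hy, hyW⟩, (l : E) • w, ?_, ?_⟩
      · have e : ((u - l • (⟨_, hy, hyW⟩ : T5 T N s) : T5 T N s) : Fin n → E) -
            (s *ᵥ ((l : E) • w) - (l : E) • w) = (l : E) • (x - (s *ᵥ w - w)) := by
          rw [mulVec_smul, smul_sub, smul_sub]
          show (u : Fin n → E) - (l : E) • ((l : E)⁻¹ • (u : Fin n → E) - x) - _ = _
          rw [smul_sub, smul_smul, mul_inv_cancel₀ hl.lne, one_smul]
          abel
        rw [e, mulVec_smul, h1, smul_zero]
      · rw [mulVec_smul]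
        exact h2
  have hcard : Nat.card (X ⧸ lX (OE E) X l) = Nat.card (LinearMap.range f3) := by
    rw [← hr23]
    exact Nat.card_congr ((LinearMap.quotKerEquivOfSurjective f1 hs1).symm.trans
      ((Submodule.quotEquivOfEq _ _ hker).trans f2.quotKerEquivRange)).toEquiv
  have h3 := evX hl h
  have h4 := EV.card_ker_range (O := OE E) (X := ↥(mS T l 1 (W5 N s)))
    (Y := MN T l 1 ⧸ U2 T l N s) f3
  have h5 : Nat.card (LinearMap.ker f3) = Nat.card (U2 T l N s) := by
    refine Nat.card_congr ⟨fun x => ⟨x.1.1, ?_⟩, fun x => ⟨⟨x.1, U2_le x.2⟩, ?_⟩, fun x => rfl,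
      fun x => rfl⟩
    · have h6 := x.2
      rw [LinearMap.mem_ker] at h6
      exact (Submodule.Quotient.mk_eq_zero _).1 h6
    · rw [LinearMap.mem_ker]
      exact (Submodule.Quotient.mk_eq_zero _).2 x.2
  have h6 : EvPow q (Nat.card (LinearMap.range f3)) := by
    rw [← hcard]
    exact h3
  have h7 : Nat.card (mS T l 1 (W5 N s)) * Nat.card (U2 T l N s) =
      Nat.card (LinearMap.range f3) * Nat.card (U2 T l N s) ^ 2 := by
    rw [h4, h5]
    ring
  rw [h7]
  exact GP.evPow_mul h6 (GP.evPow_sq (GP.card_pow (O := OE E) _))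

end Pool.Agent.Work.MP_787500_nt.CP
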