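import Mathlib
import Pool.Agent.Work.MP_787500_nt.CP.RAlt2

/-!
The distance of two planes of generator values.
-/

set_option autoImplicit false
set_option linter.unusedSectionVars false

namespace Pool.Agent.Work.MP_787500_nt.CP

open Matrix
open Pool.Agent.Work.MP_787500_nt.GP (A0 OE MN actN actQ bil bN mq lft mq_lft mq_eq mq_add mq_sub mq_smul mq_eq_zero Wq
  Lat pr0 lamN perpL EvPow IsPow pr0_eq_zero)
open Pool.Agent.Work.MP_787500_nt.ER (BT kerN ranN W5 mem_kerN)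
open Pool.Agent.Work.MP_787500_nt.EV (lX mem_lX card_lquot)

variable {E : Type*} [NormedField E] [NormedAlgebra ℚ_[2] E] [FiniteDimensional ℚ_[2] E] {n : ℕ}
  {b N s K b' N' s' K' : Matrix (Fin n) (Fin n) E}
  {T : Submodule (OE E) (Fin n → E)} {l : OE E} {t : E →ₗ[ℚ_[2]] ℚ_[2]}

/-- the classes of the pairs `(x, N w)` -/
def LamM (T : Submodule (OE E) (Fin n → E)) (l : OE E) (N s : Matrix (Fin n) (Fin n) E) :
    Submodule (OE E) (MN T l 1 × MN T l 1) where
  carrier := {p | ∃ x w, mq T x = p.1 ∧ mq T (N *ᵥ w) = p.2 ∧ N *ᵥ (x - (s *ᵥ w - w)) = 0}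
  add_mem' := by
    rintro u u' ⟨x, w, h0, h1, h2⟩ ⟨x', w', h0', h1', h2'⟩
    refine ⟨x + x', w + w', by rw [mq_add, h0, h0', Prod.fst_add, Submodule.coe_add], by
      rw [mulVec_add, mq_add, h1, h1', Prod.snd_add, Submodule.coe_add], ?_⟩
    have e : x + x' - (s *ᵥ (w + w') - (w + w')) = (x - (s *ᵥ w - w)) + (x' - (s *ᵥ w' - w')) := by
      rw [mulVec_add]
      abel
    rw [e, mulVec_add, h2, h2', add_zero]
  zero_mem' := ⟨0, 0, rfl, by rw [mulVec_zero]; rfl, by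
    rw [mulVec_zero, sub_zero, sub_zero, mulVec_zero]⟩
  smul_mem' := by
    rintro a u ⟨x, w, h0, h1, h2⟩
    refine ⟨(a : E) • x, (a : E) • w, by rw [mq_smul, h0, Prod.smul_fst, Submodule.coe_smul], by
      rw [mulVec_smul, mq_smul, h1, Prod.smul_snd, Submodule.coe_smul], ?_⟩
    have e : (a : E) • x - (s *ᵥ ((a : E) • w) - (a : E) • w) = (a : E) • (x - (s *ᵥ w - w)) := by
      rw [mulVec_smul, smul_sub, smul_sub]
    rw [e, mulVec_smul, h2, smul_zero]

/-- the reference plane -/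
def LPM (T : Submodule (OE E) (Fin n → E)) (l : OE E) (N : Matrix (Fin n) (Fin n) E) :
    Submodule (OE E) (MN T l 1 × MN T l 1) := (mS T l 1 (kerN N)).prod (mS T l 1 (ranN N))

theorem card_prodS {M : Type*} [AddCommGroup M] {O : Type*} [CommRing O] [Module O M]
    (A B : Submodule O M) : Nat.card (A.prod B) = Nat.card A * Nat.card B := by
  rw [← Nat.card_prod]
  exact Nat.card_congr ⟨fun x => (⟨x.1.1, x.2.1⟩, ⟨x.1.2, x.2.2⟩),
    fun x => ⟨(x.1.1, x.2.1), x.1.2, x.2.2⟩, fun x => rfl, fun x => rfl⟩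

section one

variable (hl : Lat b l t T) (h : BT b T N s K)

include h in
theorem bb_NN {x y : MN T l 1} {w w' : Fin n → E} (hx : mq T (N *ᵥ w) = x) (hy : mq T (N *ᵥ w') = y) :
    bb hl h x y = 0 := by
  rw [bb_val hl h hx hy, be_NN h, mul_zero, map_zero, map_zero]

theorem lam_iso (c : ℕ) (a : OE E) {p : MN T l 1 × MN T l 1} (hp : p ∈ LamM T l N s) :
    QR hl h c a p = 0 := by
  obtain ⟨x, w, h0, h1, h2⟩ := hp
  have e1 : mq T ((a : E) • (N *ᵥ w)) = ((a • p.2 : MN T l 1) : Wq T) := by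
    rw [mq_smul, h1, Submodule.coe_smul]
  have e2 : mq T ((a : E) • x) = ((a • p.1 : MN T l 1) : Wq T) := by
    rw [mq_smul, h0, Submodule.coe_smul]
  have e3 : bb hl h (a • p.2) p.1 = bb hl h (a • p.1) p.1 := by
    rw [bb_val hl h e1 h0, bb_val hl h e2 h0, be_smul_left, be_smul_left, be_vu h h2]
  have e4 : bb hl h (a • p.2) p.2 = 0 := by
    rw [bb_val hl h e1 h1, be_smul_left, be_NN h, mul_zero, mul_zero, map_zero, map_zero]
  rw [QR, e3, e4, bb_two, smul_zero, add_zero]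

theorem lp_iso (c : ℕ) (a : OE E) {p : MN T l 1 × MN T l 1} (hp : p ∈ LPM T l N) :
    QR hl h c a p = 0 := by
  obtain ⟨⟨z, hz, h0⟩, ⟨v, ⟨w, rfl⟩, h1⟩⟩ := hp
  have h1' : mq T (N *ᵥ w) = p.2 := h1
  have e1 : mq T ((a : E) • (N *ᵥ w)) = ((a • p.2 : MN T l 1) : Wq T) := by
    rw [mq_smul, h1', Submodule.coe_smul]
  have e2 : mq T ((a : E) • z) = ((a • p.1 : MN T l 1) : Wq T) := by
    rw [mq_smul, h0, Submodule.coe_smul]
  have e3 : bb hl h (a • p.2) p.1 = 0 := by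
    rw [bb_val hl h e1 h0, be_smul_left, be_ker h hz, mul_zero, mul_zero, map_zero, map_zero]
  have e5 : bb hl h (a • p.1) p.1 = 0 := by
    rw [bb_val hl h e2 h0, be_smul_left, be_ker' h hz, mul_zero, mul_zero, map_zero, map_zero]
  have e4 : bb hl h (a • p.2) p.2 = 0 := by
    rw [bb_val hl h e1 h1', be_smul_left, be_NN h, mul_zero, mul_zero, map_zero, map_zero]
  rw [QR, e3, e4, e5, smul_zero, add_zero, add_zero]

variable [IsLocalRing (OE E)]

include hl h in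
theorem lp_card : Nat.card (LPM T l N) = Nat.card (MN T l 1) := by
  have h1 := finrank_NN hl h
  rw [LPM, card_prodS, card_mS hl, card_mS hl, card_MN hl, ← pow_add, one_mul, one_mul, one_mul,
    add_comm, h1]

theorem lp_LQ (c : ℕ) : LQ (QR hl h c) (LPM T l N) where
  iso a x hx := lp_iso hl h c a hx
  half := by rw [lp_card hl h, Nat.card_prod]

theorem lam_LQ (c : ℕ) (hc : Nat.card (LamM T l N s) = Nat.card (MN T l 1)) :
    LQ (QR hl h c) (LamM T l N s) where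
  iso a x hx := lam_iso hl h c a hx
  half := by rw [hc, Nat.card_prod]

include hl h in
/-- the distance of `LamM` and the reference plane -/
theorem dist_lp (hc : Nat.card (LamM T l N s) = Nat.card (MN T l 1)) :
    ∃ x : ℕ, Nat.card ↥(LamM T l N s ⊓ LPM T l N) =
      Nat.card (IsLocalRing.ResidueField (OE E)) ^ x ∧
      Even (x + Module.finrank E (W5 N s) + Module.finrank E (ranN N)) := by
  have hres : Finite (IsLocalRing.ResidueField (OE E)) := GP.res_finite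
  have hfM : Finite (MN T l 1) := GP.MN_finite hl 1
  set q := Nat.card (IsLocalRing.ResidueField (OE E)) with hq
  have hq1 : 1 < q := Finite.one_lt_card
  have hinj := Nat.pow_right_injective hq1
  -- the projection
  let f : LamM T l N s →ₗ[OE E] MN T l 1 ⧸ mS T l 1 (kerN N) :=
    (mS T l 1 (kerN N)).mkQ.comp ((LinearMap.fst (OE E) (MN T l 1) (MN T l 1)).comp
      (LamM T l N s).subtype)
  let g : U2 T l N s →ₗ[OE E] MN T l 1 ⧸ mS T l 1 (kerN N) :=
    (mS T l 1 (kerN N)).mkQ.comp (U2 T l N s).subtype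
  have hfg : LinearMap.range f = LinearMap.range g := by
    apply le_antisymm
    · rintro _ ⟨⟨p, x, w, h0, h1, h2⟩, rfl⟩
      refine ⟨⟨p.1, x, w, h0, h2, ?_⟩, rfl⟩
      have h4 : l ^ 1 • (p.2 : Wq T) = 0 := p.2.2
      rw [← h1, ← mq_smul, mq_eq_zero, Subring.coe_pow, pow_one] at h4
      exact h4
    · rintro _ ⟨⟨m, x, w, h0, h2, h1⟩, rfl⟩
      have h4 : (l ^ 1 : OE E) • mq T (N *ᵥ w) = 0 := by
        rw [← mq_smul, mq_eq_zero, Subring.coe_pow, pow_one]
        exact h1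
      exact ⟨⟨(m, ⟨mq T (N *ᵥ w), (Submodule.mem_torsionBy_iff _ _).2 h4⟩), x, w, h0, rfl, h2⟩, rfl⟩
  have c1 := EV.card_ker_range (O := OE E) (X := ↥(LamM T l N s))
    (Y := MN T l 1 ⧸ mS T l 1 (kerN N)) f
  have c2 := EV.card_ker_range (O := OE E) (X := ↥(U2 T l N s))
    (Y := MN T l 1 ⧸ mS T l 1 (kerN N)) g
  have k1 : Nat.card (LinearMap.ker f) = Nat.card ↥(LamM T l N s ⊓ LPM T l N) := by
    refine Nat.card_congr ⟨fun x => ⟨x.1.1, x.1.2, ?_⟩, fun x => ⟨⟨x.1, x.2.1⟩, ?_⟩, fun x => rfl,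
      fun x => rfl⟩
    · have h6 := x.2
      rw [LinearMap.mem_ker] at h6
      obtain ⟨y, w, h0, h1, h2⟩ := x.1.2
      exact ⟨(Submodule.Quotient.mk_eq_zero _).1 h6, N *ᵥ w, ⟨w, rfl⟩, h1⟩
    · rw [LinearMap.mem_ker]
      exact (Submodule.Quotient.mk_eq_zero _).2 x.2.2.1
  have hle : mS T l 1 (kerN N) ≤ U2 T l N s := by
    rintro m ⟨z, hz, h0⟩
    refine ⟨z, 0, h0, ?_, ?_⟩
    · rw [mulVec_zero, sub_zero, sub_zero]
      exact hz
    · rw [mulVec_zero, smul_zero]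
      exact T.zero_mem
  have k2 : Nat.card (LinearMap.ker g) = Nat.card (mS T l 1 (kerN N)) := by
    refine Nat.card_congr ⟨fun x => ⟨x.1.1, ?_⟩, fun x => ⟨⟨x.1, hle x.2⟩, ?_⟩, fun x => rfl,
      fun x => rfl⟩
    · have h6 := x.2
      rw [LinearMap.mem_ker] at h6
      exact (Submodule.Quotient.mk_eq_zero _).1 h6
    · rw [LinearMap.mem_ker]
      exact (Submodule.Quotient.mk_eq_zero _).2 x.2
  obtain ⟨x, hx⟩ := GP.card_pow (O := OE E) ↥(LamM T l N s ⊓ LPM T l N)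
  obtain ⟨y, hy⟩ := GP.card_pow (O := OE E) (U2 T l N s)
  have hfq : Finite (MN T l 1 ⧸ mS T l 1 (kerN N)) :=
    Finite.of_surjective _ (Submodule.mkQ_surjective _)
  have hfr : Finite (LinearMap.range g) := Subtype.finite
  obtain ⟨z, hz⟩ := GP.card_pow (O := OE E) (LinearMap.range g)
  have h5 := ev52 hl h
  obtain ⟨m, hm⟩ := h5
  have h1 := finrank_NN hl h
  rw [k1, hfg, hc, card_MN hl, hx, hz, ← pow_add] at c1
  rw [k2, hy, hz, card_mS hl, ← pow_add] at c2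
  rw [card_mS hl, hy, ← pow_add] at hm
  have d1 := hinj c1
  have d2 := hinj c2
  have d3 := hinj hm
  refine ⟨x, hx, ?_⟩
  rw [Nat.even_iff]
  omega

end one

variable (hl : Lat b l t T) (h : BT b T N s K) (hl' : Lat b' l t T) (h' : BT b' T N' s' K')
  [IsLocalRing (OE E)]

include hl h in
/-- the orthogonal of the image -/
theorem perp_ran {u : MN T l 1} (hu : ∀ p ∈ mS T l 1 (ranN N), bb hl h p u = 0) :
    u ∈ mS T l 1 (kerN N) := by
  refine perp_mS hl (K := K) (hK := fun x hx => (h.kT x).2 hx) (fun x hx => (h.kT x).1 hx)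
    (S' := ranN N) ?_ ?_ fun y hy => ?_
  · rintro z hz _ ⟨w, rfl⟩
    have e1 := be_N h w z
    have hz' : N *ᵥ z = 0 := hz
    have e2 := be_skew h z (N *ᵥ w)
    rw [NN h, add_zero] at e2
    show be b K z (N *ᵥ w) = 0
    rw [e2, be_ker h hz, neg_zero]
  · have h1 := finrank_NN hl h
    omega
  · show bb hl h u y = 0
    obtain ⟨v, ⟨w, rfl⟩, h1⟩ := hy
    have h1' : mq T (N *ᵥ w) = y := h1
    rw [bb_skew hl h]
    have e1 : nM h y = 0 := by
      apply Subtype.ext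
      show (aM l 1 h.nT y : Wq T) = 0
      rw [← aM_val h1', NN h]
      rfl
    rw [e1, add_zero]
    exact hu y ⟨N *ᵥ w, ⟨w, rfl⟩, h1'⟩

include hl h in
theorem perp_ran' {u p : MN T l 1} (hu : u ∈ mS T l 1 (kerN N)) (hp : p ∈ mS T l 1 (ranN N)) :
    bb hl h p u = 0 := by
  obtain ⟨z, hz, h0⟩ := hu
  obtain ⟨v, ⟨w, rfl⟩, h1⟩ := hp
  rw [bb_val hl h h1 h0]
  show pr0 (t ((l : E) * be b K (N *ᵥ w) z)) = 0
  rw [be_ker h hz, mul_zero, map_zero, map_zero]

include hl h hl' h' in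
/-- the distance of the reference planes -/
theorem dist_pp (hbb : ∀ x y : MN T l 1, bb hl' h' x y = bb hl h x y) :
    ∃ x : ℕ, Nat.card ↥(LPM T l N ⊓ LPM T l N') =
      Nat.card (IsLocalRing.ResidueField (OE E)) ^ x ∧
      Even (x + n + Module.finrank E (ranN N) + Module.finrank E (ranN N')) := by
  have hres : Finite (IsLocalRing.ResidueField (OE E)) := GP.res_finite
  have hfM : Finite (MN T l 1) := GP.MN_finite hl 1
  set q := Nat.card (IsLocalRing.ResidueField (OE E)) with hq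
  have hq1 : 1 < q := Finite.one_lt_card
  have hinj := Nat.pow_right_injective hq1
  have e1 : LPM T l N ⊓ LPM T l N' = (mS T l 1 (kerN N) ⊓ mS T l 1 (kerN N')).prod
      (mS T l 1 (ranN N) ⊓ mS T l 1 (ranN N')) := by
    rw [LPM, LPM, Submodule.prod_inf_prod]
  have c1 := card_sup_inf (mS T l 1 (ranN N)) (mS T l 1 (ranN N'))
  have hnd : ∀ a, (∀ a', bb hl h a a' = 0) → a = 0 := fun a ha => bb_nd hl h a fun x => by
    rw [bb_swap hl h]
    exact ha _
  have h1 := GP.card_perp (bb hl h) (mS T l 1 (ranN N) ⊔ mS T l 1 (ranN N')).toAddSubgroup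
    fun a ha => by
      rw [hnd a ha]
      exact (mS T l 1 (ranN N) ⊔ mS T l 1 (ranN N')).zero_mem
  have e2 : Nat.card (perpL (bb hl h).flip (⊤ : AddSubgroup (MN T l 1))) = 1 := by
    rw [AddSubgroup.card_eq_one, eq_bot_iff]
    intro x hx
    exact hnd x fun y => hx y trivial
  have e3 : Nat.card (perpL (bb hl h) (mS T l 1 (ranN N) ⊔ mS T l 1 (ranN N')).toAddSubgroup) =
      Nat.card ↥(mS T l 1 (kerN N) ⊓ mS T l 1 (kerN N')) := by
    refine Nat.card_congr ⟨fun x => ⟨x.1, ?_, ?_⟩, fun x => ⟨x.1, ?_⟩, fun x => rfl,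
      fun x => rfl⟩
    · exact perp_ran hl h fun p hp => x.2 p (Submodule.mem_sup_left hp)
    · refine perp_ran hl' h' fun p hp => ?_
      rw [hbb]
      exact x.2 p (Submodule.mem_sup_right hp)
    · intro p hp
      obtain ⟨y, hy, z, hz, rfl⟩ := Submodule.mem_sup.1 (show p ∈ _ from hp)
      rw [map_add, AddMonoidHom.add_apply, perp_ran' hl h x.2.1 hy, ← hbb,
        perp_ran' hl' h' x.2.2 hz, add_zero]
  have e4 : Nat.card (mS T l 1 (ranN N) ⊔ mS T l 1 (ranN N')).toAddSubgroup =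
      Nat.card ↥(mS T l 1 (ranN N) ⊔ mS T l 1 (ranN N')) := rfl
  rw [e2, e3, e4, mul_one] at h1
  obtain ⟨i, hi⟩ := GP.card_pow (O := OE E) ↥(mS T l 1 (ranN N) ⊓ mS T l 1 (ranN N'))
  obtain ⟨j, hj⟩ := GP.card_pow (O := OE E) ↥(mS T l 1 (ranN N) ⊔ mS T l 1 (ranN N'))
  obtain ⟨k, hk⟩ := GP.card_pow (O := OE E) ↥(mS T l 1 (kerN N) ⊓ mS T l 1 (kerN N'))
  rw [hi, hj, card_mS hl, card_mS hl, ← pow_add, ← pow_add] at c1
  rw [hj, hk, card_MN hl, ← pow_add] at h1
  have d1 := hinj c1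
  have d2 := hinj h1
  refine ⟨k + i, ?_, ?_⟩
  · rw [e1, card_prodS, hi, hk, ← pow_add]
  · rw [Nat.even_iff]
    omega

include hl h hl' h' in
/-- THE DISTANCE. -/
theorem dist_lam (hbb : ∀ x y : MN T l 1, bb hl' h' x y = bb hl h x y)
    (hc : Nat.card (LamM T l N s) = Nat.card (MN T l 1))
    (hc' : Nat.card (LamM T l N' s') = Nat.card (MN T l 1)) :
    ∃ x : ℕ, Nat.card ↥(LamM T l N s ⊓ LamM T l N' s') =
      Nat.card (IsLocalRing.ResidueField (OE E)) ^ x ∧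
      Even (x + n + Module.finrank E (W5 N s) + Module.finrank E (W5 N' s')) := by
  have hres : Finite (IsLocalRing.ResidueField (OE E)) := GP.res_finite
  have hfM : Finite (MN T l 1) := GP.MN_finite hl 1
  set q := Nat.card (IsLocalRing.ResidueField (OE E)) with hq
  have hq1 : 1 < q := Finite.one_lt_card
  have hinj := Nat.pow_right_injective hq1
  have hQ : QR hl' h' 0 = QR hl h 0 := by
    funext a p
    simp only [QR, hbb]
  have L1 := lam_LQ hl h 0 hc
  have L1' : LQ (QR hl h 0) (LamM T l N' s') := by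
    rw [← hQ]
    exact lam_LQ hl' h' 0 hc'
  have P1 := lp_LQ hl h 0
  have P1' : LQ (QR hl h 0) (LPM T l N') := by
    rw [← hQ]
    exact lp_LQ hl' h' 0
  obtain ⟨m1, t1⟩ := tri (qw hl h 0) L1 L1' P1
  obtain ⟨m2, t2⟩ := tri (qw hl h 0) L1' P1 P1'
  obtain ⟨x1, a1, b1⟩ := dist_lp hl h hc
  obtain ⟨x2, a2, b2⟩ := dist_lp hl' h' hc'
  obtain ⟨x3, a3, b3⟩ := dist_pp hl h hl' h' hbb
  obtain ⟨x, hx⟩ := GP.card_pow (O := OE E) ↥(LamM T l N s ⊓ LamM T l N' s')
  obtain ⟨y, hy⟩ := GP.card_pow (O := OE E) ↥(LamM T l N' s' ⊓ LPM T l N)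
  rw [hx, a1, hy, lp_card hl h, card_MN hl, ← pow_add, ← pow_add, ← pow_add] at t1
  rw [hy, a2, a3, lp_card hl' h', card_MN hl', ← pow_add, ← pow_add, ← pow_add] at t2
  have d1 := hinj t1
  have d2 := hinj t2
  refine ⟨x, hx, ?_⟩
  rw [Nat.even_iff] at b1 b2 b3 ⊢
  omega

end Pool.Agent.Work.MP_787500_nt.CP
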