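import Mathlib
import Pool.Agent.Work.MP_787500_nt.QL.Defs
import Pool.Agent.Work.MP_787500_nt.QL.CountL
import Pool.Agent.Work.MP_787500_nt.QL.Lag
import Pool.Agent.Work.MP_787500_nt.QS.KQ
import Pool.Agent.Work.MP_787500_nt.EV.Core

/-!
A place ramified in the quadratic field: cocycles with values in `M × M` and their values at the generators.
-/

set_option autoImplicit false
set_option linter.unusedSectionVars false

namespace Pool.Agent.Work.MP_787500_nt.CP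

open Pool.Agent.Work.MP_787500_nt.GP (A0 IsAct d0 d1 d2 tw cup11 EvPow IsPow)
open Pool.Agent.Work.MP_787500_nt.KR (FSys Sm1 Sm2 IsChar Smooth Z1 Z2 B2 LocH Pair LDual zM z1s b1s)
open Pool.Agent.Work.MP_787500_nt.QL (TameF)
open Pool.Agent.Work.MP_787500_nt.QS (Two ac2)

section det

variable {D : Type*} [Group D] {S : FSys D} {χ a : D → ℤ_[2]} {σ τ : D} {q : ℕ} {I : Subgroup D}
  {V : Type*} [AddCommGroup V]

/-- an odd power of an element of `P` is in `W` -/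
theorem odd_powP (h : TameF S χ a σ τ q I) {W : Subgroup D} (hW : S.mem W) {p : D}
    (hp : p ∈ h.P) : ∃ r : ℕ, Odd r ∧ p ^ r ∈ W := by
  have hWn := S.normal hW
  refine ⟨_, h.odd_quot hW, ?_⟩
  have h1 : ((⟨p, hp⟩ : h.P) : h.P ⧸ W.subgroupOf h.P) ^
      Nat.card (h.P ⧸ W.subgroupOf h.P) = 1 := pow_card_eq_one'
  rw [← QuotientGroup.mk_pow, QuotientGroup.eq_one_iff, Subgroup.mem_subgroupOf] at h1
  exact h1

theorem y_one' {A : D → V → V} (hA : IsAct A) {y : D → V} (hy : Z1 S A y) : y 1 = 0 := by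
  have := hy.2 1 1
  rw [mul_one, hA.one] at this
  exact left_eq_add.1 this

theorem odd_smul (h2 : ∀ m : V, m + m = 0) {r : ℕ} (hr : Odd r) (m : V) : r • m = m := by
  obtain ⟨k, rfl⟩ := hr
  rw [add_smul, one_smul, mul_comm, mul_smul, two_smul, h2, smul_zero, zero_add]

/-- an element of the inertia group with a power in `W` -/
theorem y_odd (h2 : ∀ m : V, m + m = 0) {A : D → V → V}
    (hA : IsAct A) {y : D → V} (hy : Z1 S A y) {W : Subgroup D}
    (hAW : ∀ w ∈ W, ∀ m, A w m = m) (hyW : ∀ g, ∀ w ∈ W, y (g * w) = y g) {g : D}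
    (h4 : ∀ m, A (g ^ 4) m = m) {r : ℕ} (hr : Odd r) (hg : g ^ r ∈ W) : y g = 0 := by
  have hAg : ∀ m, A g m = m := by
    intro m
    obtain ⟨k, hk⟩ := hr
    have h3 : r * r = 4 * (k * k + k) + 1 := by rw [hk]; ring
    have h5 : ∀ (i : ℕ) (m : V), A (g ^ (4 * i)) m = m := by
      intro i
      induction i with
      | zero => intro m; rw [mul_zero, pow_zero, hA.one]
      | succ i ih => intro m; rw [mul_add, mul_one, pow_add, hA.mul, h4, ih]
    have h6 : A (g ^ (r * r)) m = m := by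
      rw [pow_mul]
      exact hAW _ (W.pow_mem hg r) m
    rw [h3, pow_succ, hA.mul, h5] at h6
    exact h6
  have hpow : ∀ k : ℕ, y (g ^ k) = k • y g := by
    intro k
    have hAk : ∀ (k : ℕ) (m : V), A (g ^ k) m = m := by
      intro k
      induction k with
      | zero => intro m; rw [pow_zero, hA.one]
      | succ k ih => intro m; rw [pow_succ, hA.mul, hAg, ih]
    induction k with
    | zero => rw [pow_zero, y_one' hA hy, zero_smul]
    | succ k ih => rw [pow_succ, hy.2, ih, hAk, add_smul, one_smul]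
  have h6 := hyW 1 _ hg
  rw [one_mul, y_one' hA hy, hpow, odd_smul h2 hr] at h6
  exact h6

/-- a cocycle is determined by its values at the generators -/
theorem det_gen (h : TameF S χ a σ τ q I) (h2 : ∀ m : V, m + m = 0) {A : D → V → V}
    (hA : IsAct A) (hs : Smooth S A) (h4 : ∀ i ∈ I, ∀ m, A (i ^ 4) m = m) {y : D → V}
    (hy : Z1 S A y) (h0 : y σ = 0) (h1 : y τ = 0) : y = 0 := by
  obtain ⟨W1, hW1, hyW⟩ := hy.1
  obtain ⟨W2, hW2, hAW⟩ := hs
  have hW := S.inf hW1 hW2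
  set W := W1 ⊓ W2 with hWdef
  have hyW' : ∀ g, ∀ w ∈ W, y (g * w) = y g := fun g w hw => hyW g w hw.1
  have hAW' : ∀ w ∈ W, ∀ m, A w m = m := fun w hw => hAW w hw.2
  have hWn := S.normal hW
  have hpow0 : ∀ x, y x = 0 → ∀ k : ℕ, y (x ^ k) = 0 := by
    intro x hx k
    induction k with
    | zero => rw [pow_zero, y_one' hA hy]
    | succ k ih => rw [pow_succ, hy.2, ih, hx, hA.zero, add_zero]
  have hI : ∀ g ∈ I, y g = 0 := by
    intro g hg
    obtain ⟨N, hN⟩ := h.sep W hW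
    obtain ⟨j, hj⟩ := GP.g1_nat (a g) (N + 1)
    obtain ⟨g', hg'⟩ : ∃ g', g' = (τ ^ j)⁻¹ * g := ⟨_, rfl⟩
    have e1 : τ ^ j * g' = g := by
      rw [hg']
      exact mul_inv_cancel_left _ _
    have hgI : g' ∈ I := by
      rw [hg']
      exact I.mul_mem (I.inv_mem (I.pow_mem h.τI j)) hg
    have e2 : a g' = a g - j := by
      have e := congrArg a e1
      rw [h.coc, (h.tau_pow j).1, (h.tau_pow j).2, one_mul] at e
      linear_combination e
    obtain ⟨p, hp1, hp2, hp3⟩ := hN g' (by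
      rw [h.Iχ g' hgI, sub_self]
      exact dvd_zero _) (by
      rw [e2]
      exact (pow_dvd_pow _ (Nat.le_succ N)).trans hj)
    obtain ⟨r, hro, hr⟩ := odd_powP h hW (p := p) ⟨hp1, hp2⟩
    have h4' : g' ^ r ∈ W := by
      have h5 : ((g' : D) : D ⧸ W) = ((p : D) : D ⧸ W) := (QuotientGroup.eq.2 hp3).symm
      have h6 : ((g' ^ r : D) : D ⧸ W) = ((p ^ r : D) : D ⧸ W) := by
        rw [QuotientGroup.mk_pow, QuotientGroup.mk_pow, h5]
      rw [(QuotientGroup.eq_one_iff _).2 hr] at h6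
      exact (QuotientGroup.eq_one_iff _).1 h6
    have h5 := y_odd h2 hA hy hAW' hyW' (h4 g' hgI) hro h4'
    rw [← e1, hy.2, h5, hA.zero, add_zero, hpow0 τ h1]
  funext g
  obtain ⟨i, m, hm, hw⟩ := h.frob g W hW
  have e : g = σ ^ i * m * ((σ ^ i * m)⁻¹ * g) := (mul_inv_cancel_left _ _).symm
  rw [e, hyW' _ _ hw, hy.2, hpow0 σ h0, hI m hm, hA.zero, add_zero]
  rfl

/-- the pro-odd part of inertia -/
theorem y_P' (h : TameF S χ a σ τ q I) (h2 : ∀ m : V, m + m = 0) {A : D → V → V}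
    (hA : IsAct A) (hs : Smooth S A) (h4 : ∀ i ∈ I, ∀ m, A (i ^ 4) m = m) {y : D → V}
    (hy : Z1 S A y) {p : D} (hp : p ∈ I) (hap : a p = 0) : y p = 0 := by
  obtain ⟨W1, hW1, hyW⟩ := hy.1
  obtain ⟨W2, hW2, hAW⟩ := hs
  have hW := S.inf hW1 hW2
  set W := W1 ⊓ W2 with hWdef
  have hyW' : ∀ g, ∀ w ∈ W, y (g * w) = y g := fun g w hw => hyW g w hw.1
  have hAW' : ∀ w ∈ W, ∀ m, A w m = m := fun w hw => hAW w hw.2
  obtain ⟨r, hro, hr⟩ := odd_powP h hW (p := p) ⟨h.Iχ p hp, hap⟩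
  exact y_odd h2 hA hy hAW' hyW' (h4 p hp) hro hr

/-- the relation, with an element of the inertia group -/
theorem relI' (h : TameF S χ a σ τ q I) :
    ∃ p, p ∈ I ∧ a p = 0 ∧ σ * τ = τ ^ q * σ * p := by
  obtain ⟨p, hp, hrel⟩ := h.rel
  have hIn := h.In
  have h1 : p = (σ⁻¹ * (τ ^ q)⁻¹ * σ) * τ := by
    have : p = (τ ^ q * σ)⁻¹ * (σ * τ) := by rw [hrel]; group
    rw [this]
    group
  refine ⟨p, ?_, hp.2, hrel⟩
  rw [h1]
  refine I.mul_mem ?_ h.τI
  have := hIn.conj_mem _ (I.inv_mem (I.pow_mem h.τI q)) σ⁻¹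
  rwa [inv_inv] at this

end det

section ker

variable {G Γ : Type*} [Group G] [Group Γ] {e : G →* Γ} {c : Γ} {κ : G →* G} {P : Type*} [Group P]
  {TP : FSys P} {jp : P →* Γ} {χ a : P → ℤ_[2]} {σ τ : P} {q : ℕ} {In : Subgroup P} {θ s : G}
  {M : Type*} [AddCommGroup M] {A : G → M → M}

/-- powers of `τ` with an odd exponent exchange the components -/
theorem swap_pow (X : Two e c κ) (hθ : e θ * c = jp τ) {k : ℕ} (hk : Odd k) :
    ∃ g, e g * c = jp (τ ^ k) := by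
  obtain ⟨i, rfl⟩ := hk
  refine ⟨(θ * κ θ) ^ i * θ, ?_⟩
  have h1 : jp (τ * τ) = e (θ * κ θ) := by
    rw [map_mul, ← hθ, map_mul, X.kap]
    group
  rw [pow_succ, pow_mul, map_mul e, map_pow e, pow_two, map_mul jp, map_pow jp, h1, ← hθ, mul_assoc]

/-- THE KERNEL. -/
theorem ker_gam (X : Two e c κ) (h : TameF TP χ a σ τ q In) (hA : IsAct A)
    (h2 : ∀ m : M, m + m = 0) (hs : Smooth TP (fun d => ac2 e c κ A (jp d)))
    (h4 : ∀ i ∈ In, ∀ v : M × M, ac2 e c κ A (jp (i ^ 4)) v = v) (hθ : e θ * c = jp τ)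
    (hσ : e s = jp σ) {y : P → M × M} (hy : Z1 TP (fun d => ac2 e c κ A (jp d)) y)
    (h0 : (y σ).1 = 0) (h1 : (y (τ * τ)).1 = 0) :
    ∃ m : M, y = d0 (fun d => ac2 e c κ A (jp d)) (0, m) := by
  have hV2 : ∀ v : M × M, v + v = 0 := fun v => Prod.ext (h2 _) (h2 _)
  have hAc : IsAct (fun d => ac2 e c κ A (jp d)) := (X.act hA).comp jp
  have e1 : ∀ v, ac2 e c κ A (jp τ) v = (A θ v.2, A (κ θ) v.1) := fun v => by
    rw [← hθ, X.ac_ec]
  have e2 : ∀ v, ac2 e c κ A (jp σ) v = (A s v.1, A (κ s) v.2) := fun v => by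
    rw [← hσ, X.ac_e]
  have htt : jp (τ * τ) = e (θ * κ θ) := by
    rw [map_mul, ← hθ, map_mul, X.kap]
    group
  set m : M := A θ⁻¹ (y τ).1 with hm
  have hAm : A θ m = (y τ).1 := by
    rw [hm, ← hA.mul, mul_inv_cancel, hA.one]
  refine ⟨m, ?_⟩
  set y' : P → M × M := fun d => y d - d0 (fun d => ac2 e c κ A (jp d)) (0, m) d with hy'
  have hy1 : Z1 TP (fun d => ac2 e c κ A (jp d)) y' := by
    have h5 := (z1s TP hAc).sub_mem hy (KR.d0_Z1 hAc hs (0, m))
    exact h5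
  have k1 : (y' τ).1 = 0 := by
    show (y τ).1 - (ac2 e c κ A (jp τ) (0, m) - (0, m)).1 = 0
    rw [e1]
    show (y τ).1 - (A θ m - 0) = 0
    rw [hAm, sub_zero, sub_self]
  have k2 : (y' (τ * τ)).1 = 0 := by
    show (y (τ * τ)).1 - (ac2 e c κ A (jp (τ * τ)) (0, m) - (0, m)).1 = 0
    rw [htt, X.ac_e, h1]
    show 0 - (A (θ * κ θ) 0 - 0) = 0
    rw [hA.zero, sub_self, sub_self]
  have k3 : (y' σ).1 = 0 := by
    show (y σ).1 - (ac2 e c κ A (jp σ) (0, m) - (0, m)).1 = 0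
    rw [e2, h0]
    show 0 - (A s 0 - 0) = 0
    rw [hA.zero, sub_self, sub_self]
  have k4 : y' τ = 0 := by
    have h5 : y' (τ * τ) = y' τ + ac2 e c κ A (jp τ) (y' τ) := hy1.2 τ τ
    rw [e1] at h5
    have h6 := congrArg Prod.fst h5
    rw [k2, Prod.fst_add, k1, zero_add] at h6
    have h7 : (y' τ).2 = 0 := by
      have h8 := congrArg (A θ⁻¹) h6.symm
      rw [← hA.mul, inv_mul_cancel, hA.one, hA.zero] at h8
      exact h8
    exact Prod.ext k1 h7
  have k5 : y' σ = 0 := by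
    obtain ⟨p, hp1, hp2, hrel⟩ := relI' h
    obtain ⟨g, hg⟩ := swap_pow (jp := jp) X hθ h.lodd
    have hz : ∀ d : P, ac2 e c κ A (jp d) (0 : M × M) = 0 := fun d => hAc.zero d
    have hpow : ∀ k : ℕ, y' (τ ^ k) = 0 := by
      intro k
      induction k with
      | zero => rw [pow_zero, y_one' hAc hy1]
      | succ k ih =>
        rw [pow_succ, hy1.2, ih, k4, zero_add]
        exact hz (τ ^ k)
    have h5 := congrArg y' hrel
    rw [hy1.2, hy1.2, hy1.2, k4, hpow, y_P' h hV2 hAc hs h4 hy1 hp1 hp2] at h5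
    beta_reduce at h5
    rw [hz, hz, add_zero, add_zero, zero_add, ← hg, X.ac_ec] at h5
    refine Prod.ext k3 ?_
    have h6 := congrArg Prod.snd h5
    rw [k3, hA.zero] at h6
    exact h6
  have k6 := det_gen h hV2 hAc hs h4 hy1 k5 k4
  funext d
  have h7 : y d - d0 (fun d => ac2 e c κ A (jp d)) (0, m) d = 0 := congrFun k6 d
  exact sub_eq_zero.1 h7

end ker

section count

variable {G Γ : Type*} [Group G] [Group Γ] {e : G →* Γ} {c : Γ} {κ : G →* G} {P : Type*} [Group P]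
  {TP : FSys P} {jp : P →* Γ} {χ a : P → ℤ_[2]} {σ τ : P} {q : ℕ} {In : Subgroup P} {θ s : G}
  {O : Type*} [CommRing O] {M : Type*} [AddCommGroup M] [Module O M] {A : G → M → M}

/-- the values at the generators -/
def gam (O : Type*) [CommRing O] {M : Type*} [AddCommGroup M] [Module O M] {P : Type*} [Group P]
    (σ τ : P) : (P → M × M) →ₗ[O] M × M where
  toFun x := ((x σ).1, (x (τ * τ)).1)
  map_add' _ _ := rfl
  map_smul' _ _ := rfl

theorem gam_apply (x : P → M × M) : gam O σ τ x = ((x σ).1, (x (τ * τ)).1) := rfl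

theorem card_gam (X : Two e c κ) (h : TameF TP χ a σ τ q In) (hA : IsAct A)
    (h2 : ∀ m : M, m + m = 0) (hs : Smooth TP (fun d => ac2 e c κ A (jp d)))
    (h4 : ∀ i ∈ In, ∀ v : M × M, ac2 e c κ A (jp (i ^ 4)) v = v) (hθ : e θ * c = jp τ)
    (hσ : e s = jp σ) {Y : Submodule O (P → M × M)} [Finite Y]
    (hY : ∀ x ∈ Y, Z1 TP (fun d => ac2 e c κ A (jp d)) x)
    (hc : ∀ m : M, d0 (fun d => ac2 e c κ A (jp d)) (0, m) ∈ Y) :
    Nat.card Y = Nat.card M * Nat.card (Y.map (gam O σ τ)) := by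
  have htt : jp (τ * τ) = e (θ * κ θ) := by
    rw [map_mul, ← hθ, map_mul, X.kap]
    group
  let f : Y →ₗ[O] M × M := (gam O σ τ).comp Y.subtype
  have c1 := EV.card_ker_range f
  have hr : LinearMap.range f = Y.map (gam O σ τ) := by
    rw [LinearMap.range_comp, Submodule.range_subtype]
  have hv : ∀ m : M, gam O σ τ (d0 (fun d => ac2 e c κ A (jp d)) (0, m)) = 0 := fun m => by
    rw [gam_apply, d0, d0, htt, ← hσ, X.ac_e, X.ac_e]
    show (A s 0 - 0, A (θ * κ θ) 0 - 0) = 0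
    rw [hA.zero, hA.zero, sub_self]
    rfl
  have hk : Nat.card (LinearMap.ker f) = Nat.card M := by
    refine (Nat.card_congr (Equiv.ofBijective (fun m : M => (⟨⟨_, hc m⟩, by
      rw [LinearMap.mem_ker]
      exact hv m⟩ : LinearMap.ker f)) ⟨fun m m' hmm => ?_, ?_⟩)).symm
    · have h5 : d0 (fun d => ac2 e c κ A (jp d)) (0, m) = d0 (fun d => ac2 e c κ A (jp d)) (0, m') :=
        congrArg (fun z : LinearMap.ker f => z.1.1) hmm
      have h6 := congrArg Prod.fst (congrFun h5 τ)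
      rw [d0, d0, ← hθ, X.ac_ec, X.ac_ec] at h6
      have h7 : A θ m - 0 = A θ m' - 0 := h6
      rw [sub_zero, sub_zero] at h7
      have h8 := congrArg (A θ⁻¹) h7
      rwa [← hA.mul, ← hA.mul, inv_mul_cancel, hA.one, hA.one] at h8
    · rintro ⟨⟨y, hy⟩, hy0⟩
      rw [LinearMap.mem_ker] at hy0
      have h5 : gam O σ τ y = 0 := hy0
      obtain ⟨m, rfl⟩ := ker_gam X h hA h2 hs h4 hθ hσ (hY y hy) (congrArg Prod.fst h5)
        (congrArg Prod.snd h5)
      exact ⟨m, rfl⟩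
  rw [c1, hk, hr]

theorem map_inf (X : Two e c κ) (h : TameF TP χ a σ τ q In) (hA : IsAct A)
    (h2 : ∀ m : M, m + m = 0) (hs : Smooth TP (fun d => ac2 e c κ A (jp d)))
    (h4 : ∀ i ∈ In, ∀ v : M × M, ac2 e c κ A (jp (i ^ 4)) v = v) (hθ : e θ * c = jp τ)
    (hσ : e s = jp σ) {Y Y' : Submodule O (P → M × M)}
    (hY : ∀ x ∈ Y, Z1 TP (fun d => ac2 e c κ A (jp d)) x)
    (hY' : ∀ x ∈ Y', Z1 TP (fun d => ac2 e c κ A (jp d)) x)
    (hc : ∀ m : M, d0 (fun d => ac2 e c κ A (jp d)) (0, m) ∈ Y) :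
    (Y ⊓ Y').map (gam O σ τ) = Y.map (gam O σ τ) ⊓ Y'.map (gam O σ τ) := by
  apply le_antisymm
  · exact Submodule.map_inf_le _
  · rintro p ⟨⟨x, hx, h5⟩, ⟨x', hx', h6⟩⟩
    refine ⟨x', ⟨?_, hx'⟩, h6⟩
    have hAc : IsAct (fun d => ac2 e c κ A (jp d)) := (X.act hA).comp jp
    have h7 : Z1 TP (fun d => ac2 e c κ A (jp d)) (x' - x) :=
      (z1s TP hAc).sub_mem (hY' x' hx') (hY x hx)
    have h8 : gam O σ τ (x' - x) = 0 := by
      rw [map_sub, h5, h6, sub_self]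
    obtain ⟨m, hm⟩ := ker_gam X h hA h2 hs h4 hθ hσ h7 (congrArg Prod.fst h8)
      (congrArg Prod.snd h8)
    have h9 : x' = x + (x' - x) := by abel
    rw [h9, hm]
    exact Y.add_mem hx (hc m)

end count

end Pool.Agent.Work.MP_787500_nt.CP
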