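import Mathlib
import Pool.Agent.Work.MP_787500_nt.CP.RDist
import Pool.Agent.Work.MP_787500_nt.CP.RGen
import Pool.Agent.Work.MP_787500_nt.CP.Lev
import Pool.Agent.Work.MP_787500_nt.ER.Rep
import Pool.Agent.Work.MP_787500_nt.ER.FixR
import Pool.Agent.Work.MP_787500_nt.ER.Sig
import Pool.Agent.Work.MP_787500_nt.QV.LagSq
import Pool.Agent.Work.MP_787500_nt.QL.Lag

/-!
A place ramified in the quadratic field: the distance of the conditions of two congruent representations that are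
semistable at the place.
-/

set_option autoImplicit false
set_option linter.unusedSectionVars false

namespace Pool.Agent.Work.MP_787500_nt.CP

open Matrix
open Pool.Agent.Work.MP_787500_nt.GP (A0 IsAct OE MN actN actQ actQ_mq bil bN mq lft mq_lft mq_eq mq_add mq_sub
  mq_smul mq_eq_zero Wq Lat pr0 lamN d0 EvPow coe_actN)
open Pool.Agent.Work.MP_787500_nt.KR (FSys Smooth Z1 LocH Pair LDual LocRep SDualF sdualF_MN z1s b1s ZV)
open Pool.Agent.Work.MP_787500_nt.KS (ep)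
open Pool.Agent.Work.MP_787500_nt.QL (TameF)
open Pool.Agent.Work.MP_787500_nt.QS (Two ac2 be2 la2 Lag QM pB)
open Pool.Agent.Work.MP_787500_nt.QV (rho2 blk T2 J2 v1 v2 isoN v1_rho)
open Pool.Agent.Work.MP_787500_nt.QU (urV mem_urV)
open Pool.Agent.Work.MP_787500_nt.KI (PlQ YM tra mem_tra siso_iso)
open Pool.Agent.Work.MP_787500_nt.ER (BT kerN ranN W5 VI QI)

universe w

section card

variable {D : Type*} [Group D] {S : FSys D} {χ a : D → ℤ_[2]} {σ τ : D} {q : ℕ} {I : Subgroup D}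
  {iv : (D → D → A0) → A0} {O : Type*} [CommRing O] {V : Type*} [AddCommGroup V] [Module O V]
  [Finite V] {ρ : D → V → V} {β : V →+ V →+ A0} {la : O → D → V → A0}

/-- the number of elements of a Lagrangian condition at a tame place -/
theorem card_lag (h : TameF S χ a σ τ q I) (L : LocH S χ iv) (hq : QM S χ O ρ β la)
    (hl : LDual S iv ρ ρ (pB β)) {Y : Submodule O (D → V)} (hY : Lag S iv ρ β la Y) :
    Nat.card Y = Nat.card V := by
  have f1 : Finite (z1s S hq.act) := hl.fin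
  have e1 := QV.lag_sq L hq hl hY
  have e2 := QL.h1_eq h L hq.pair hl
  have e3 := KR.card_z1s hq.pair
  have e4 := QL.card_b1s hq.pair
  have e5 : Nat.card Y * Nat.card Y = Nat.card V * Nat.card V := by
    have e6 : Nat.card (z1s S hq.act) = Nat.card (b1s hq.act) *
        (Nat.card (QL.fixG hq.pair.act) * Nat.card (QL.fixG hq.pair.act')) := by
      rw [← e3, e2]
    rw [e1, e6, ← e4]
    show Nat.card (b1s hq.act) * (Nat.card (QL.fixG hq.pair.act) * Nat.card (QL.fixG hq.pair.act)) *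
      Nat.card (b1s hq.act) = Nat.card (QL.fixG hq.pair.act) * Nat.card (b1s hq.pair.act) *
      (Nat.card (QL.fixG hq.pair.act) * Nat.card (b1s hq.pair.act))
    ring
  exact Nat.mul_self_inj.1 e5

end card

variable {G Γ : Type*} [Group G] [Group Γ] {S : FSys G} {Sq : FSys Γ} {χ : G → ℤ_[2]}
  {χq : Γ → ℤ_[2]} {e : G →* Γ} {c : Γ} {κ : G →* G} {P : Type*} [Group P] {TP : FSys P}
  {jp : P →* Γ} {iv : (P → P → A0) → A0} {E : Type w} [NormedField E] [NormedAlgebra ℚ_[2] E]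
  [FiniteDimensional ℚ_[2] E] {n : ℕ} {b b' : Matrix (Fin n) (Fin n) E} {l : OE E}
  {t : E →ₗ[ℚ_[2]] ℚ_[2]} {T : Submodule (OE E) (Fin n → E)} {ρ ρ' : G → Matrix (Fin n) (Fin n) E}
  {a : P → ℤ_[2]} {σ τ : P} {q : ℕ} {In : Subgroup P} {θ s : G}

private theorem v1s (v w : Fin (n + n) → E) : v1 (v - w) = v1 v - v1 w := rfl

/-- the generator values of the unramified classes -/
theorem gam_le (X : Two e c κ) (hr : LocRep S χ T b ρ (fun g => ρ (κ g)))
    (h : TameF TP (fun d => χq (jp d)) a σ τ q In) (hθ : e θ * c = jp τ) (hs : e s = jp σ) :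
    (YM T l (urV TP In (fun d => rho2 e c κ ρ (jp d)))).map (gam (OE E) σ τ) ≤
      LamM T l (ρ (θ * κ θ) - 1) (ρ s) := by
  rintro _ ⟨y, hy, rfl⟩
  obtain ⟨X0, ⟨⟨-, hX⟩, W, hW⟩, hx⟩ := (mem_tra (siso_iso T l)).1 hy
  have htt : jp (τ * τ) = e (θ * κ θ) := by
    rw [map_mul, ← hθ, map_mul, X.kap]
    group
  have hy1 : ∀ d, ((y d).1 : Wq T) = mq T (v1 (X0 d)) := by
    intro d
    have h1 : ((((isoN T l 1).toAddEquiv.symm (y d) : MN (T2 T) l 1)) : Wq (T2 T)) = mq (T2 T) (X0 d) := hx d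
    have h2 := QV.iso_one h1
    have h3 : (isoN T l 1) ((isoN T l 1).toAddEquiv.symm (y d)) = y d :=
      (isoN T l 1).toAddEquiv.apply_symm_apply (y d)
    rw [h3] at h2
    exact h2
  have hm : ∀ d d' : P, rho2 e c κ ρ (jp (d * d')) = rho2 e c κ ρ (jp d) * rho2 e c κ ρ (jp d') :=
    fun d d' => by rw [map_mul, QV.rho2_mul X hr.mul]
  refine ⟨v1 (X0 σ), v1 W, (hy1 σ).symm, ?_, ?_⟩
  · rw [show (gam (OE E) σ τ y).2 = (y (τ * τ)).1 from rfl, hy1, hW _ (In.mul_mem h.τI h.τI)]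
    beta_reduce
    rw [htt, v1s, v1_rho X, Matrix.sub_mulVec, Matrix.one_mulVec]
  · -- the cocycle that vanishes on the inertia group
    have hIn := h.In
    set Z : P → Fin (n + n) → E := fun d => X0 d - (rho2 e c κ ρ (jp d) *ᵥ W - W) with hZ
    have hZ0 : ∀ d ∈ In, Z d = 0 := fun d hd => by
      show X0 d - _ = 0
      rw [hW d hd, sub_self]
    have hZm : ∀ d d', Z (d * d') = Z d + rho2 e c κ ρ (jp d) *ᵥ Z d' := by
      intro d d'
      show X0 (d * d') - (rho2 e c κ ρ (jp (d * d')) *ᵥ W - W) = X0 d - (rho2 e c κ ρ (jp d) *ᵥ W - W) +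
        rho2 e c κ ρ (jp d) *ᵥ (X0 d' - (rho2 e c κ ρ (jp d') *ᵥ W - W))
      rw [hX, hm, mulVec_sub, mulVec_sub, mulVec_mulVec]
      abel
    have e1 : τ * τ * σ = σ * (σ⁻¹ * (τ * τ) * σ) := by group
    have e0 : σ⁻¹ * (τ * τ) * σ ∈ In := by
      have := hIn.conj_mem _ (In.mul_mem h.τI h.τI) σ⁻¹
      rwa [inv_inv] at this
    have e2 : Z (τ * τ * σ) = Z σ := by
      rw [e1, hZm, hZ0 _ e0, mulVec_zero, add_zero]
    rw [hZm, hZ0 _ (In.mul_mem h.τI h.τI), zero_add, htt] at e2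
    have e3 := congrArg v1 e2
    rw [v1_rho X] at e3
    have e4 : v1 (Z σ) = v1 (X0 σ) - (ρ s *ᵥ v1 W - v1 W) := by
      show v1 (X0 σ - (rho2 e c κ ρ (jp σ) *ᵥ W - W)) = _
      rw [v1s, v1s, ← hs, v1_rho X]
    rw [← e4, Matrix.sub_mulVec, Matrix.one_mulVec, e3, sub_self]

/-- squares of unipotent elements are trivial at the level 1 -/
theorem act_sq (hl : Lat b l t T) (hm : ∀ g h, ρ (g * h) = ρ g * ρ h)
    (hst : ∀ d, ∀ x ∈ T, ρ d *ᵥ x ∈ T) {g : G} (hg : (ρ g - 1) * (ρ g - 1) = 0) (m : MN T l 1) :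
    actN l 1 ρ hst (g * g) m = m := by
  apply Subtype.ext
  have e1 : mq T (lft (m : Wq T)) = (m : Wq T) := mq_lft _
  have e2 : ((actN l 1 ρ hst g m : MN T l 1) : Wq T) = mq T (ρ g *ᵥ lft (m : Wq T)) := by
    rw [coe_actN]
    rfl
  have e3 : ((actN l 1 ρ hst (g * g) m : MN T l 1) : Wq T) =
      mq T (ρ (g * g) *ᵥ lft (m : Wq T)) := by
    rw [coe_actN]
    rfl
  have e4 : ρ (g * g) *ᵥ lft (m : Wq T) = lft (m : Wq T) +
      ((ρ g *ᵥ lft (m : Wq T) - lft (m : Wq T)) + (ρ g *ᵥ lft (m : Wq T) - lft (m : Wq T))) := by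
    have e5 : ρ (g * g) = 1 + ((ρ g - 1) + (ρ g - 1)) + (ρ g - 1) * (ρ g - 1) := by
      rw [hm]
      noncomm_ring
    rw [e5, hg, add_zero, Matrix.add_mulVec, Matrix.add_mulVec, Matrix.sub_mulVec, Matrix.one_mulVec]
  have e6 : actN l 1 ρ hst g m - m + (actN l 1 ρ hst g m - m) = 0 := two_MN hl _
  have e7 := congrArg (fun z : MN T l 1 => (z : Wq T)) e6
  rw [e3, e4, mq_add, mq_add, mq_sub, e1, ← e2]
  have e8 : ((actN l 1 ρ hst g m : MN T l 1) : Wq T) - (m : Wq T) +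
      (((actN l 1 ρ hst g m : MN T l 1) : Wq T) - (m : Wq T)) = 0 := e7
  rw [e8, add_zero]

/-- the action of inertia at the level 1 -/
theorem act4 (p : PlQ.{w} S Sq χ χq e c κ TP jp iv) (hl : Lat b l t T)
    (hr : LocRep S χ T b ρ (fun g => ρ (κ g)))
    (h : TameF TP (fun d => χq (jp d)) a σ τ q In)
    (hun : ∀ g, (∃ d ∈ In, jp d = e g) → (ρ g - 1) * (ρ g - 1) = 0) (hθ : e θ * c = jp τ)
    {i : P} (hi : i ∈ In) (v : MN T l 1 × MN T l 1) :
    ac2 e c κ (actN l 1 ρ hr.st) (jp (i ^ 4)) v = v := by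
  have X := p.two
  have hIn := h.In
  have hunit : ρ (κ θ⁻¹) * ρ (κ θ) = 1 := by rw [← hr.mul, ← map_mul, inv_mul_cancel, map_one, hr.one]
  have hunit' : ρ (κ θ) * ρ (κ θ⁻¹) = 1 := by
    rw [← hr.mul, ← map_mul, mul_inv_cancel, map_one, hr.one]
  have key : ∀ k : G, (∃ d ∈ In, jp d = e k) → ∀ v : MN T l 1 × MN T l 1,
      ac2 e c κ (actN l 1 ρ hr.st) (e (k * k)) v = v := by
    rintro k ⟨d, hd, hk⟩ v
    have h1 := hun k ⟨d, hd, hk⟩
    have h2 : (ρ (κ (θ⁻¹ * k * θ)) - 1) * (ρ (κ (θ⁻¹ * k * θ)) - 1) = 0 := by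
      refine hun _ ⟨τ⁻¹ * d * τ, ?_, ?_⟩
      · have := hIn.conj_mem _ hd τ⁻¹
        rwa [inv_inv] at this
      · rw [map_mul, map_mul, map_inv, ← hθ, hk, X.kap, map_mul, map_mul, map_inv]
        have hcc : c⁻¹ = c := inv_eq_of_mul_eq_one_left X.cc
        rw [_root_.mul_inv_rev, hcc]
        group
    have h3 : ρ (κ (θ⁻¹ * k * θ)) = ρ (κ θ⁻¹) * ρ (κ k) * ρ (κ θ) := by
      rw [map_mul, map_mul, hr.mul, hr.mul]
    have h4 : (ρ (κ k) - 1) * (ρ (κ k) - 1) = 0 := by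
      have h5 : ρ (κ k) - 1 = ρ (κ θ) * (ρ (κ (θ⁻¹ * k * θ)) - 1) * ρ (κ θ⁻¹) := by
        rw [h3, mul_sub, sub_mul, mul_one, hunit', ← mul_assoc, ← mul_assoc, hunit', one_mul, mul_assoc,
          hunit', mul_one]
      rw [h5]
      calc ρ (κ θ) * (ρ (κ (θ⁻¹ * k * θ)) - 1) * ρ (κ θ⁻¹) *
            (ρ (κ θ) * (ρ (κ (θ⁻¹ * k * θ)) - 1) * ρ (κ θ⁻¹))
          = ρ (κ θ) * ((ρ (κ (θ⁻¹ * k * θ)) - 1) * (ρ (κ θ⁻¹) * ρ (κ θ)) *
            (ρ (κ (θ⁻¹ * k * θ)) - 1)) * ρ (κ θ⁻¹) := by noncomm_ring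
        _ = 0 := by rw [hunit, mul_one, h2, mul_zero, zero_mul]
    rw [X.ac_e]
    refine Prod.ext ?_ ?_
    · exact act_sq hl hr.mul hr.st h1 v.1
    · show actN l 1 ρ hr.st (κ (k * k)) v.2 = v.2
      rw [map_mul]
      exact act_sq hl hr.mul hr.st h4 v.2
  rcases X.cases (jp i) with ⟨k, hk⟩ | ⟨k, hk⟩
  · have e1 : jp (i ^ 4) = e ((k * k) * (k * k)) := by
      rw [map_pow, ← hk, ← map_pow]
      congr 1
      simp only [pow_succ, pow_zero, one_mul, mul_assoc]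
    have hst2 : ∀ w : MN T l 1 × MN T l 1, ac2 e c κ (actN l 1 ρ hr.st) (e ((k * k) * (k * k))) w = w := by
      intro w
      have hA : IsAct (actN l 1 ρ hr.st) :=
        (sdualF_MN hl hr (fun p hp => absurd hp (Set.notMem_empty p)) 1).act
      rw [map_mul, (X.act hA).mul, key k ⟨i, hi, hk.symm⟩, key k ⟨i, hi, hk.symm⟩]
    rw [e1]
    exact hst2 v
  · have e0 : jp (i * i) = e (k * κ k) := by
      rw [map_mul, ← hk, map_mul, X.kap]
      group
    have e1 : jp (i ^ 4) = e ((k * κ k) * (k * κ k)) := by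
      have e2 : i ^ 4 = (i * i) * (i * i) := by simp only [pow_succ, pow_zero, one_mul, mul_assoc]
      rw [e2, map_mul, e0, ← map_mul]
    rw [e1]
    exact key _ ⟨i * i, In.mul_mem hi hi, e0⟩ v

theorem bb_bN (hl : Lat b l t T) (hst : ∀ d, ∀ x ∈ T, ρ d *ᵥ x ∈ T) {N s : Matrix (Fin n) (Fin n) E}
    (h : BT b T N s (ρ (κ θ))) (x y : MN T l 1) :
    bb hl h x y = bN hl 1 x (actN l 1 ρ hst (κ θ) y) := by
  rw [bb_val hl h (mq_lft (x : Wq T)) (mq_lft (y : Wq T)),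
    GP.bN_val hl 1 x (actN l 1 ρ hst (κ θ) y) (mq_lft (x : Wq T))
      (y' := ρ (κ θ) *ᵥ lft (y : Wq T)) (by rw [coe_actN]; rfl)]
  show pr0 (t ((l : E) * _)) = pr0 (t ((l : E) ^ 1 * _))
  congr 3
  exact (pow_one _).symm

section lam

variable (hl : Lat b l t T) {N s K : Matrix (Fin n) (Fin n) E} (h : BT b T N s K)

include hl h in
theorem lamM_le : Nat.card (LamM T l N s) ≤ Nat.card (MN T l 1) := by
  have hfM : Finite (MN T l 1) := GP.MN_finite hl 1
  have h1 := card_pS (qw hl h 0) (LamM T l N s)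
  have hle : LamM T l N s ≤ pS (BR hl h 0) (qw hl h 0).bal (LamM T l N s) := fun x hx y hy => by
    have h1 := (qw hl h 0).pol 1 y x
    rw [lam_iso hl h 0 1 ((LamM T l N s).add_mem hy hx), lam_iso hl h 0 1 hy, lam_iso hl h 0 1 hx,
      one_smul, add_zero, zero_add] at h1
    exact h1.symm
  have h2 : Nat.card (LamM T l N s) ≤ Nat.card (pS (BR hl h 0) (qw hl h 0).bal (LamM T l N s)) :=
    Nat.card_le_card_of_injective _ (Submodule.inclusion_injective hle)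
  rw [Nat.card_prod] at h1
  by_contra h3
  push Not at h3
  have h4 : Nat.card (MN T l 1) * Nat.card (MN T l 1) <
      Nat.card (LamM T l N s) * Nat.card (pS (BR hl h 0) (qw hl h 0).bal (LamM T l N s)) :=
    Nat.mul_lt_mul'' h3 (h3.trans_le h2)
  omega

end lam

section dist

variable [IsLocalRing (OE E)]

/-- The distance, in terms of the generators. -/
theorem dist_gen (p : PlQ.{w} S Sq χ χq e c κ TP jp iv) (hl : Lat b l t T) (hl' : Lat b' l t T)
    (hr : LocRep S χ T b ρ (fun g => ρ (κ g))) (hr' : LocRep S χ T b' ρ' (fun g => ρ' (κ g)))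
    (h : TameF TP (fun d => χq (jp d)) a σ τ q In)
    (hun : ∀ g, (∃ d ∈ In, jp d = e g) → (ρ g - 1) * (ρ g - 1) = 0)
    (hun' : ∀ g, (∃ d ∈ In, jp d = e g) → (ρ' g - 1) * (ρ' g - 1) = 0)
    (hact : ∀ g m, actN l 1 ρ' hr'.st g m = actN l 1 ρ hr.st g m) (hbN : bN hl' 1 = bN hl 1)
    (hθ : e θ * c = jp τ) (hs : e s = jp σ)
    (hY : Lag TP iv (fun d => ac2 e c κ (actN l 1 ρ hr.st) (jp d)) (be2 (bN hl 1))
      (fun (x : OE E) d => la2 e c κ (actN l 1 ρ hr.st) (bN hl 1) x (jp d))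
      (YM T l (urV TP In (fun d => rho2 e c κ ρ (jp d)))))
    (hY' : Lag TP iv (fun d => ac2 e c κ (actN l 1 ρ' hr'.st) (jp d)) (be2 (bN hl' 1))
      (fun (x : OE E) d => la2 e c κ (actN l 1 ρ' hr'.st) (bN hl' 1) x (jp d))
      (YM T l (urV TP In (fun d => rho2 e c κ ρ' (jp d))))) :
    ∃ x y : ℕ, Nat.card ↥(YM T l (urV TP In (fun d => rho2 e c κ ρ (jp d))) ⊓
        YM T l (urV TP In (fun d => rho2 e c κ ρ' (jp d)))) =
        Nat.card (IsLocalRing.ResidueField (OE E)) ^ x ∧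
      Nat.card (YM T l (urV TP In (fun d => rho2 e c κ ρ (jp d)))) =
        Nat.card (IsLocalRing.ResidueField (OE E)) ^ y ∧
      Even (x + y + Module.finrank E (W5 (ρ (θ * κ θ) - 1) (ρ s)) +
        Module.finrank E (W5 (ρ' (θ * κ θ) - 1) (ρ' s))) := by
  have hres : Finite (IsLocalRing.ResidueField (OE E)) := GP.res_finite
  have hfM : Finite (MN T l 1) := GP.MN_finite hl 1
  have X := p.two
  have hA' : actN l 1 ρ' hr'.st = actN l 1 ρ hr.st := by
    funext g m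
    exact hact g m
  rw [hA', hbN] at hY'
  have hsd : SDualF S χ κ ∅ (OE E) (actN l 1 ρ hr.st) (bN hl 1) :=
    sdualF_MN hl hr (fun p hp => absurd hp (Set.notMem_empty p)) 1
  have hq := p.qm hsd
  have hld := p.ldM hsd
  have hB := ER.bt_of p hl hr h hun hθ hs
  have hB' := ER.bt_of p hl' hr' h hun' hθ hs
  have hbb : ∀ x y : MN T l 1, bb hl' hB' x y = bb hl hB x y := by
    intro x y
    rw [bb_bN hl hr.st hB, bb_bN hl' hr'.st hB', hbN, hA']
  have h2 : ∀ m : MN T l 1, m + m = 0 := fun m => two_MN hl m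
  have h4 : ∀ i ∈ In, ∀ v : MN T l 1 × MN T l 1, ac2 e c κ (actN l 1 ρ hr.st) (jp (i ^ 4)) v = v :=
    fun i hi v => act4 p hl hr h hun hθ hi v
  -- finiteness
  have f1 : Finite (z1s TP hq.act) := hld.fin
  have fin : ∀ {Y : Submodule (OE E) (P → MN T l 1 × MN T l 1)}, (∀ x ∈ Y, Z1 TP
      (fun d => ac2 e c κ (actN l 1 ρ hr.st) (jp d)) x) → Finite Y := fun {Y} hc =>
    Finite.of_injective (fun x : Y => (⟨x.1, hc x.1 x.2⟩ : z1s TP hq.act))
      fun x y hxy => Subtype.ext (by simpa using hxy)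
  set Y := YM T l (urV TP In (fun d => rho2 e c κ ρ (jp d))) with hYd
  set Y' := YM T l (urV TP In (fun d => rho2 e c κ ρ' (jp d))) with hYd'
  have f2 : Finite Y := fin hY.coc
  have f3 : Finite Y' := fin hY'.coc
  have f4 : Finite ↥(Y ⊓ Y') := fin fun x hx => hY.coc x hx.1
  have hcob := fun m : MN T l 1 => QS.Lag.cob p.loc.toLocH hq hY (0, m)
  have hcob' := fun m : MN T l 1 => QS.Lag.cob p.loc.toLocH hq hY' (0, m)
  have c1 := card_gam (O := OE E) X h hsd.act h2 hq.sm h4 hθ hs hY.coc hcob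
  have c2 := card_gam (O := OE E) X h hsd.act h2 hq.sm h4 hθ hs hY'.coc hcob'
  have c3 := card_gam (O := OE E) X h hsd.act h2 hq.sm h4 hθ hs (Y := Y ⊓ Y')
    (fun x hx => hY.coc x hx.1) fun m => ⟨hcob m, hcob' m⟩
  rw [map_inf X h hsd.act h2 hq.sm h4 hθ hs hY.coc hY'.coc hcob] at c3
  have k1 := card_lag h p.loc.toLocH hq hld hY
  have k2 := card_lag h p.loc.toLocH hq hld hY'
  rw [Nat.card_prod] at k1 k2
  have hpos : 0 < Nat.card (MN T l 1) := Nat.card_pos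
  have g1 : Nat.card (Y.map (gam (OE E) σ τ)) = Nat.card (MN T l 1) :=
    Nat.eq_of_mul_eq_mul_left hpos (by rw [← c1, k1])
  have g2 : Nat.card (Y'.map (gam (OE E) σ τ)) = Nat.card (MN T l 1) :=
    Nat.eq_of_mul_eq_mul_left hpos (by rw [← c2, k2])
  -- the planes
  have full : ∀ {A B : Submodule (OE E) (MN T l 1 × MN T l 1)}, A ≤ B →
      Nat.card A = Nat.card (MN T l 1) → Nat.card B ≤ Nat.card (MN T l 1) → A = B := by
    intro A B hAB hA hB
    refine le_antisymm hAB fun x hx => ?_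
    have h5 : Function.Bijective (Submodule.inclusion hAB) :=
      (Nat.bijective_iff_injective_and_card _).2 ⟨Submodule.inclusion_injective hAB,
        le_antisymm (Nat.card_le_card_of_injective _ (Submodule.inclusion_injective hAB)) (by omega)⟩
    obtain ⟨y, hy⟩ := h5.2 ⟨x, hx⟩
    have h6 := congrArg Subtype.val hy
    change y.1 = x at h6
    rw [← h6]
    exact y.2
  have m1 : Y.map (gam (OE E) σ τ) = LamM T l (ρ (θ * κ θ) - 1) (ρ s) :=
    full (gam_le X hr h hθ hs) g1 (lamM_le hl hB)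
  have m2 : Y'.map (gam (OE E) σ τ) = LamM T l (ρ' (θ * κ θ) - 1) (ρ' s) :=
    full (gam_le X hr' h hθ hs) g2 (lamM_le hl' hB')
  rw [m1] at g1
  rw [m2] at g2
  rw [m1, m2] at c3
  obtain ⟨x, hx, hev⟩ := dist_lam hl hB hl' hB' hbb g1 g2
  refine ⟨n + x, n + n, ?_, ?_, ?_⟩
  · rw [c3, hx, card_MN hl, one_mul, pow_add]
  · rw [k1, card_MN hl, one_mul, pow_add]
  · rw [Nat.even_iff] at hev ⊢
    omega

/-- THE DISTANCE at a place that is ramified in the quadratic field. -/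
theorem dist_ram (p : PlQ.{w} S Sq χ χq e c κ TP jp iv) (hl : Lat b l t T) (hl' : Lat b' l t T)
    (hr : LocRep S χ T b ρ (fun g => ρ (κ g))) (hr' : LocRep S χ T b' ρ' (fun g => ρ' (κ g)))
    (h : TameF TP (fun d => χq (jp d)) a σ τ q In) (hI : ∃ d ∈ In, ep e (jp d) ≠ 0)
    (hun : ∀ g, (∃ d ∈ In, jp d = e g) → (ρ g - 1) * (ρ g - 1) = 0)
    (hun' : ∀ g, (∃ d ∈ In, jp d = e g) → (ρ' g - 1) * (ρ' g - 1) = 0)
    (hact : ∀ g m, actN l 1 ρ' hr'.st g m = actN l 1 ρ hr.st g m) (hbN : bN hl' 1 = bN hl 1)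
    (hY : Lag TP iv (fun d => ac2 e c κ (actN l 1 ρ hr.st) (jp d)) (be2 (bN hl 1))
      (fun (x : OE E) d => la2 e c κ (actN l 1 ρ hr.st) (bN hl 1) x (jp d))
      (YM T l (urV TP In (fun d => rho2 e c κ ρ (jp d)))))
    (hY' : Lag TP iv (fun d => ac2 e c κ (actN l 1 ρ' hr'.st) (jp d)) (be2 (bN hl' 1))
      (fun (x : OE E) d => la2 e c κ (actN l 1 ρ' hr'.st) (bN hl' 1) x (jp d))
      (YM T l (urV TP In (fun d => rho2 e c κ ρ' (jp d))))) {δ : ℕ}
    (hδ : Even (Module.finrank E (QI e jp In ρ) + Module.finrank E (VI e jp In ρ) +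
      (Module.finrank E (QI e jp In ρ') + Module.finrank E (VI e jp In ρ')) + δ)) :
    EvPow (Nat.card (IsLocalRing.ResidueField (OE E)))
      (Nat.card ↥(YM T l (urV TP In (fun d => rho2 e c κ ρ (jp d))) ⊓
          YM T l (urV TP In (fun d => rho2 e c κ ρ' (jp d)))) *
        Nat.card (YM T l (urV TP In (fun d => rho2 e c κ ρ (jp d)))) *
        Nat.card (IsLocalRing.ResidueField (OE E)) ^ δ) := by
  have hε : ∀ g k : P, ep e (jp (g * k)) = ep e (jp g) + ep e (jp k) := fun g k => by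
    rw [map_mul, QP.ep_add2 p.two]
  have hτ : ep e (jp τ) = 1 := ER.eps_tau h (ε := fun d => ep e (jp d)) hε p.esm hI
  obtain ⟨a', σ', h', hσ', -⟩ := ER.exists_sig h (ε := fun d => ep e (jp d)) hε hτ
  obtain ⟨s, hs⟩ : ∃ s, e s = jp σ' := by
    rcases p.two.cases (jp σ') with h1 | ⟨g, h1⟩
    · exact h1
    · exfalso
      have h2 : ep e (jp σ') = 0 := hσ'
      rw [← h1, QP.ep_ec p.two] at h2
      exact one_ne_zero h2
  obtain ⟨θ, hθ⟩ : ∃ θ, e θ * c = jp τ := by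
    rcases p.two.cases (jp τ) with ⟨g, h1⟩ | h1
    · exfalso
      rw [← h1, QP.ep_e] at hτ
      exact zero_ne_one hτ
    · exact h1
  obtain ⟨x, y, hx, hy, hev⟩ := dist_gen p hl hl' hr hr' h' hun hun' hact hbN hθ hs hY hY'
  have d1 := ER.dim_W5 p hl hr h' hun hθ hs
  have d2 := ER.dim_W5 p hl' hr' h' hun' hθ hs
  obtain ⟨u, hu⟩ := hev
  obtain ⟨v, hv⟩ := hδ
  have hev : Even (x + y + δ) := by
    rw [Nat.even_iff]
    omega
  obtain ⟨z, hz⟩ := hev
  refine ⟨z, ?_⟩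
  rw [hx, hy, ← pow_add, ← pow_add, hz]
  first
  | rfl
  | (congr 1; ring)

end dist

end Pool.Agent.Work.MP_787500_nt.CP
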