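import Mathlib
import Pool.Agent.Work.MP_787500_nt.CP.Main
import Pool.Agent.Work.MP_787500_nt.CP.RTame
import Pool.Agent.Work.MP_787500_nt.CP.RDefs
import Pool.Agent.Work.MP_787500_nt.ER.Fam

/-!
Congruent representations: the theorem for the arithmetic instance, with semistable representations at the prime divisors
of `D`.
-/

set_option autoImplicit false
set_option linter.unusedSectionVars false

namespace Pool.Agent.Work.MP_787500_nt.CP

open Matrix NumberField
open Pool.Agent.Work.MP_787500_nt.GP (A0 IsAct OE bil Lat inT stabD cupE EvPow actN lamN MN pr0 bN)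
open Pool.Agent.Work.MP_787500_nt.KR (FSys IsChar ZV zV LocRep LocD IsBig fullC fullD fullK fullQ big Opn PerpV
  perpSub)
open Pool.Agent.Work.MP_787500_nt.PA (toE cyc)
open Pool.Agent.Work.MP_787500_nt.HP (IsQ Spl IsP inr stb cyQ OpnQ)
open Pool.Agent.Work.MP_787500_nt.KS (iK)
open Pool.Agent.Work.MP_787500_nt.QS (Two Lag QM)
open Pool.Agent.Work.MP_787500_nt.QL (zur zurM TameF)
open Pool.Agent.Work.MP_787500_nt.QV (ind rho2 N1e selK selE selNQ spE prE QRep T2 J2 blk beN laN qm_N)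
open Pool.Agent.Work.MP_787500_nt.QU (urV mem_urV)
open Pool.Agent.Work.MP_787500_nt.GA (HQ SQ)
open Pool.Agent.Work.MP_787500_nt.QW (famL Ari ari_inst eSt eSt_symm sysQ)
open Pool.Agent.Work.MP_787500_nt.KI (YM card_YM card_tra mem_YM tra siso_iso)

universe u w

variable {K : Type u} [Field K] [NumberField K] {D : ℕ} {s : K}
  {c : AlgebraicClosure K ≃+* AlgebraicClosure K} {κ : AbsGal K →* AbsGal K} {T : Finset ℕ}
  {P : ℕ → Ideal (𝓞 (AlgebraicClosure K))} {N₀ : Subgroup (AbsGal K)}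
  {iv ivF : ∀ w : Option T, (stb (HP.PP P w) → stb (HP.PP P w) → A0) → A0}
  {tr : (((AlgebraicClosure K ≃+* AlgebraicClosure K) → (AlgebraicClosure K ≃+* AlgebraicClosure K) →
      (AlgebraicClosure K ≃+* AlgebraicClosure K) → A0) ×
      (∀ i : Option (Option T), HQ c P i → HQ c P i → A0)) →+ A0}
  {E : Type w} [NormedField E] [NormedAlgebra ℚ_[2] E] [FiniteDimensional ℚ_[2] E] {n : ℕ}
  {ρ ρ' : AbsGal K →* Matrix (Fin n) (Fin n) E} {b b' : Matrix (Fin n) (Fin n) E}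
  {l : OE E} {t : E →ₗ[ℚ_[2]] ℚ_[2]} {L₀ : Submodule (OE E) (Fin n → E)}
  {L L' : Submodule E (stabD (K := K) (P 2) → Fin n → E)}

/-- the dimension of the quotient, for a place of `K` -/
noncomputable abbrev qd (P : ℕ → Ideal (𝓞 (AlgebraicClosure K)))
    (ρ : AbsGal K →* Matrix (Fin n) (Fin n) E) (p : ℕ) : ℕ :=
  Parity.quotDim (stabD (P p)) ((P p).inertia (AbsGal K)) ρ

section U

/-- a matrix congruent to 1 is invertible -/
theorem Cg.unit (hl : Lat b l t L₀) {U : Matrix (Fin n) (Fin n) E} (h : Cg l L₀ U 1) :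
    Function.Injective U.mulVecLin := by
  rw [← LinearMap.ker_eq_bot, LinearMap.ker_eq_bot']
  intro v hv
  have hv' : U *ᵥ v = 0 := hv
  -- `v ∈ l L₀` as soon as `v ∈ L₀`
  have key : ∀ w : Fin n → E, w ∈ L₀ → U *ᵥ w = 0 → ∃ y ∈ L₀, w = (l : E) • y := by
    intro w hw hUw
    obtain ⟨y, hy, h1⟩ := h w hw
    rw [hUw, one_mulVec, zero_sub] at h1
    exact ⟨-y, L₀.neg_mem hy, by rw [smul_neg, ← h1, neg_neg]⟩
  have hind : ∀ (k : ℕ) (w : Fin n → E), w ∈ L₀ → U *ᵥ w = 0 → ∃ y ∈ L₀, w = (l : E) ^ k • y := by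
    intro k
    induction k with
    | zero => exact fun w hw _ => ⟨w, hw, by rw [pow_zero, one_smul]⟩
    | succ k ih =>
      intro w hw hUw
      obtain ⟨y, hy, h1⟩ := ih w hw hUw
      have h2 : U *ᵥ y = 0 := by
        rw [h1, mulVec_smul] at hUw
        exact (smul_eq_zero.1 hUw).resolve_left (pow_ne_zero _ hl.lne)
      obtain ⟨z, hz, h3⟩ := key y hy h2
      exact ⟨z, hz, by rw [h1, h3, smul_smul, pow_succ]⟩
  obtain ⟨R, hR⟩ := hl.bdd
  obtain ⟨r, hr, hop⟩ := hl.opn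
  by_contra hne
  have hv1 : 0 < ‖v‖ := norm_pos_iff.2 hne
  have hl0 : 0 < ‖(l : E)‖ := norm_pos_iff.2 hl.lne
  -- a multiple in the lattice
  obtain ⟨i, hi⟩ := exists_pow_lt_of_lt_one (div_pos hr hv1) hl.llt
  have hw : (l : E) ^ i • v ∈ L₀ := by
    refine hop _ ?_
    rw [norm_smul, norm_pow]
    rwa [lt_div_iff₀ hv1] at hi
  have hUw : U *ᵥ ((l : E) ^ i • v) = 0 := by rw [mulVec_smul, hv', smul_zero]
  have hwn : 0 < ‖(l : E) ^ i • v‖ := by
    rw [norm_smul, norm_pow]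
    positivity
  obtain ⟨j, hj⟩ := exists_pow_lt_of_lt_one (div_pos hwn (lt_of_lt_of_le zero_lt_one
    (le_max_left 1 R))) hl.llt
  obtain ⟨y, hy, h1⟩ := hind j _ hw hUw
  have h2 := hR y hy
  have h3 : ‖(l : E) ^ i • v‖ ≤ ‖(l : E)‖ ^ j * max 1 R := by
    rw [h1, norm_smul, norm_pow]
    exact mul_le_mul_of_nonneg_left (h2.trans (le_max_right _ _)) (by positivity)
  rw [lt_div_iff₀ (lt_of_lt_of_le zero_lt_one (le_max_left 1 R))] at hj
  exact absurd h3 (not_le.2 hj)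

/-- isomorphic local representations -/
theorem qd_eq {D₀ I₀ : Subgroup (AbsGal K)} (hI : I₀ ≤ D₀) {U : Matrix (Fin n) (Fin n) E}
    (hU : Function.Injective U.mulVecLin) (hUg : ∀ g ∈ D₀, U * ρ g = ρ' g * U) :
    Parity.quotDim D₀ I₀ ρ = Parity.quotDim D₀ I₀ ρ' := by
  have hbij : Function.Bijective U.mulVecLin :=
    ⟨hU, LinearMap.injective_iff_surjective.1 hU⟩
  have e1 : (Parity.fixedBy (fun σ : I₀ => ρ σ)).map U.mulVecLin =
      Parity.fixedBy (fun σ : I₀ => ρ' σ) := by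
    ext v
    constructor
    · rintro ⟨w, hw, rfl⟩ σ
      have h1 : ρ σ *ᵥ w = w := hw σ
      show ρ' σ *ᵥ (U *ᵥ w) = U *ᵥ w
      rw [mulVec_mulVec, ← hUg _ (hI σ.2), ← mulVec_mulVec, h1]
    · intro hv
      obtain ⟨w, rfl⟩ := hbij.2 v
      refine ⟨w, fun σ => hU ?_, rfl⟩
      have h1 : ρ' σ *ᵥ (U *ᵥ w) = U *ᵥ w := hv σ
      show U *ᵥ (ρ σ *ᵥ w) = U *ᵥ w
      rw [mulVec_mulVec, hUg _ (hI σ.2), ← mulVec_mulVec, h1]
  have e2 : (Parity.fixedModulo (fun σ : D₀ => ρ σ) (Parity.fixedBy (fun σ : I₀ => ρ σ))).map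
      U.mulVecLin = Parity.fixedModulo (fun σ : D₀ => ρ' σ) (Parity.fixedBy (fun σ : I₀ => ρ' σ)) := by
    have key : ∀ (σ : D₀) w, ρ' σ *ᵥ (U *ᵥ w) - U *ᵥ w = U *ᵥ (ρ σ *ᵥ w - w) := by
      intro σ w
      rw [mulVec_sub, mulVec_mulVec, mulVec_mulVec, hUg _ σ.2]
    ext v
    constructor
    · rintro ⟨w, hw, rfl⟩ σ
      rw [← e1]
      exact ⟨_, hw σ, (key σ w).symm⟩
    · intro hv
      obtain ⟨w, rfl⟩ := hbij.2 v
      refine ⟨w, fun σ => ?_, rfl⟩
      have h1 : ρ' σ *ᵥ (U *ᵥ w) - U *ᵥ w ∈ Parity.fixedBy (fun σ : I₀ => ρ' σ) := hv σ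
      rw [← e1, key] at h1
      obtain ⟨z, hz, h2⟩ := h1
      rwa [← hU h2]
  unfold Parity.quotDim
  rw [← e2, ← e1]
  congr 1
  · exact (Submodule.equivMapOfInjective _ hU _).finrank_eq
  · exact (Submodule.equivMapOfInjective _ hU _).finrank_eq

end U

open scoped Classical in
/-- the local numbers -/
noncomputable def dlR (P : ℕ → Ideal (𝓞 (AlgebraicClosure K))) (D : ℕ)
    (ρ ρ' : AbsGal K →* Matrix (Fin n) (Fin n) E)
    (L L' : Submodule E (stabD (K := K) (P 2) → Fin n → E)) : Option (Option T) → ℕ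
  | none => 0
  | some none => Module.finrank E L + Module.finrank E L'
  | some (some p) => (if Parity.Inert D p then
      Parity.dimInertia ρ (P p) + Parity.dimInertia ρ' (P p) else 0) +
      if (p : ℕ) ∣ D then qd P ρ p + qd P ρ' p else 0

/-- the hypothesis at the prime divisors of `D` -/
def HDvdR (P : ℕ → Ideal (𝓞 (AlgebraicClosure K))) (D : ℕ) (T : Finset ℕ)
    (ρ ρ' : AbsGal K →* Matrix (Fin n) (Fin n) E) (l : OE E)
    (L₀ : Submodule (OE E) (Fin n → E)) : Prop :=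
  ∀ p ∈ T, p ∣ D → (Parity.SemistableOn ((P p).inertia (AbsGal K)) ρ ∧
      Parity.SemistableOn ((P p).inertia (AbsGal K)) ρ') ∨
    ∃ U : Matrix (Fin n) (Fin n) E, Cg l L₀ U 1 ∧
      ∀ g : AbsGal K, iK K g ∈ stb (P p) → U * ρ g = ρ' g * U

section loc

variable [IsLocalRing (OE E)] (I : QU.Inst.{u, w} s c κ D T P N₀ iv ivF tr)

include I

/-- THE DISTANCE at a prime divisor of `D`. -/
theorem dist_dvd (C : Cong N₀ T κ b b' l t L₀ ρ ρ') (hL : Mid P ρ L) (hL' : Mid P ρ' L') {p : T}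
    (hp : (p : ℕ) ∣ D) (hun : Parity.SemistableOn ((P p).inertia (AbsGal K)) ρ)
    (hun' : Parity.SemistableOn ((P p).inertia (AbsGal K)) ρ') :
    EvPow (Nat.card (IsLocalRing.ResidueField (OE E)))
      (Nat.card ↥(lamN (T2 L₀) l 1 (famL c κ T P N₀ ρ b (ari_inst I).h2 L (some (some p))) ⊓
          lamN (T2 L₀) l 1 (famL c κ T P N₀ ρ' b' (ari_inst I).h2 L' (some (some p)))) *
        Nat.card (lamN (T2 L₀) l 1 (famL c κ T P N₀ ρ b (ari_inst I).h2 L (some (some p)))) *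
        Nat.card (IsLocalRing.ResidueField (OE E)) ^ (qd P ρ p + qd P ρ' p)) := by
  have hres : Finite (IsLocalRing.ResidueField (OE E)) := GP.res_finite
  have hF2 : (2 : IsLocalRing.ResidueField (OE E)) = 0 := by
    have h3 := (IsLocalRing.residue_eq_zero_iff (2 : OE E)).2 GP.two_mem
    rwa [map_ofNat] at h3
  have hchar : CharP (IsLocalRing.ResidueField (OE E)) 2 :=
    (CharP.charP_iff_prime_eq_zero Nat.prime_two).2 (by exact_mod_cast hF2)
  let _ : Algebra (ZMod 2) (IsLocalRing.ResidueField (OE E)) := ZMod.algebra _ 2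
  have hA := ari_inst I
  have hpD : (p : ℕ) ∈ D.primeFactors := Nat.mem_primeFactors.2 ⟨I.prime p, hp, I.hK.sqf.ne_zero⟩
  obtain ⟨θ, hθ⟩ := I.theta hpD
  obtain ⟨a, σ, τ, hT⟩ := QL.exists_tameQ_big (HP.alg_closure K) (I.prime p) (I.odd p) (I.isPrime p)
    (I.natMem p) ((N₀.map (iK K)).subgroupOf (stb (P p)))
  have k1 := dist_ram (jp := (stb (P p)).subtype) (KI.plQ I (some (some p))) C.lat C.lat'
    (hA.rep C.cd C.st) (hA.rep C.cd' C.st') hT
    ⟨⟨iK K θ * c, HP.inr_le_stb _ hθ⟩, hθ, fun h0 => by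
      obtain ⟨g, hg⟩ := (KS.ep_zero _).1 h0
      exact I.isTwo.out θ g hg⟩
    (by
      rintro g ⟨d, hd, hdg⟩
      refine hun g (iK_inertia.1 ?_)
      rw [← hdg]
      exact hd)
    (by
      rintro g ⟨d, hd, hdg⟩
      refine hun' g (iK_inertia.1 ?_)
      rw [← hdg]
      exact hd)
    (fun g m => actN_cg C.lat.lne C.cg C.st C.st' g m) (bN_cg C.lat C.lat' C.cgf)
    (KI.lag_fam I hA C.cd C.lat C.st hL.le hL.ge (some (some p)))
    (KI.lag_fam I hA C.cd' C.lat' C.st' hL'.le hL'.ge (some (some p)))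
    (δ := qd P ρ p + qd P ρ' p) (by
      obtain ⟨x, hx⟩ := ER.even_quot (ρ := ρ) (P p)
      obtain ⟨y, hy⟩ := ER.even_quot (ρ := ρ') (P p)
      refine ⟨x + y, ?_⟩
      have e1 := congrArg₂ (· + ·) hx hy
      beta_reduce at e1
      rw [show x + y + (x + y) = x + x + (y + y) by ring, ← e1]
      show _ + (Parity.quotDim _ _ ρ + Parity.quotDim _ _ ρ') = _
      ring)
  have e1 : Nat.card ↥(lamN (T2 L₀) l 1 (famL c κ T P N₀ ρ b (ari_inst I).h2 L (some (some p))) ⊓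
      lamN (T2 L₀) l 1 (famL c κ T P N₀ ρ' b' (ari_inst I).h2 L' (some (some p)))) =
      Nat.card ↥(YM L₀ l (famL c κ T P N₀ ρ b (ari_inst I).h2 L (some (some p))) ⊓
        YM L₀ l (famL c κ T P N₀ ρ' b' (ari_inst I).h2 L' (some (some p)))) :=
    (card_tra (siso_iso L₀ l) _).symm
  rw [e1, ← card_YM]
  exact k1

/-- THE PLACES. -/
theorem loc_exR (C : Cong N₀ T κ b b' l t L₀ ρ ρ') (hL : Mid P ρ L) (hL' : Mid P ρ' L')
    (hd : HDvdR P D T ρ ρ' l L₀) (i : Option (Option T)) :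
    ∃ (Y0 : Submodule (OE E) (HQ c P i → MN (T2 L₀) l 1)) (d d' : ℕ),
      Lag (SQ c P (N₀.map (iK K)) i) (GA.iQ c P ivF i)
        (fun d => actN l 1 (rho2 (iK K) c κ fun g => ρ g) (C.qr I).rep.st (GA.jQ c P i d))
        (beN (C.qr I) 1)
        (fun a d => laN cyQ l t (blk 0 b 0 0) (rho2 (iK K) c κ fun g => ρ g) (T2 L₀) 1 a
          (GA.jQ c P i d)) Y0 ∧
      EvPow (Nat.card (IsLocalRing.ResidueField (OE E)))
        (Nat.card ↥(lamN (T2 L₀) l 1 (famL c κ T P N₀ ρ b (ari_inst I).h2 L i) ⊓ Y0) *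
          Nat.card (lamN (T2 L₀) l 1 (famL c κ T P N₀ ρ b (ari_inst I).h2 L i)) *
          Nat.card (IsLocalRing.ResidueField (OE E)) ^ d) ∧
      EvPow (Nat.card (IsLocalRing.ResidueField (OE E)))
        (Nat.card ↥(lamN (T2 L₀) l 1 (famL c κ T P N₀ ρ' b' (ari_inst I).h2 L' i) ⊓ Y0) *
          Nat.card (lamN (T2 L₀) l 1 (famL c κ T P N₀ ρ' b' (ari_inst I).h2 L' i)) *
          Nat.card (IsLocalRing.ResidueField (OE E)) ^ d') ∧
      Even (d + d' + dlR (T := T) P D ρ ρ' L L' i) := by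
  classical
  have hres : Finite (IsLocalRing.ResidueField (OE E)) := GP.res_finite
  have f1 := fin_lam I C hL
  have f2 := fin_lam I C.symm hL'
  -- equal conditions
  have same : ∀ i, lamN (T2 L₀) l 1 (famL c κ T P N₀ ρ b (ari_inst I).h2 L i) =
      lamN (T2 L₀) l 1 (famL c κ T P N₀ ρ' b' (ari_inst I).h2 L' i) → Even (dlR (T := T) P D ρ ρ' L L' i) →
      ∃ (Y0 : Submodule (OE E) (HQ c P i → MN (T2 L₀) l 1)) (d d' : ℕ),
      Lag (SQ c P (N₀.map (iK K)) i) (GA.iQ c P ivF i)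
        (fun d => actN l 1 (rho2 (iK K) c κ fun g => ρ g) (C.qr I).rep.st (GA.jQ c P i d))
        (beN (C.qr I) 1)
        (fun a d => laN cyQ l t (blk 0 b 0 0) (rho2 (iK K) c κ fun g => ρ g) (T2 L₀) 1 a
          (GA.jQ c P i d)) Y0 ∧
      EvPow (Nat.card (IsLocalRing.ResidueField (OE E)))
        (Nat.card ↥(lamN (T2 L₀) l 1 (famL c κ T P N₀ ρ b (ari_inst I).h2 L i) ⊓ Y0) *
          Nat.card (lamN (T2 L₀) l 1 (famL c κ T P N₀ ρ b (ari_inst I).h2 L i)) *
          Nat.card (IsLocalRing.ResidueField (OE E)) ^ d) ∧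
      EvPow (Nat.card (IsLocalRing.ResidueField (OE E)))
        (Nat.card ↥(lamN (T2 L₀) l 1 (famL c κ T P N₀ ρ' b' (ari_inst I).h2 L' i) ⊓ Y0) *
          Nat.card (lamN (T2 L₀) l 1 (famL c κ T P N₀ ρ' b' (ari_inst I).h2 L' i)) *
          Nat.card (IsLocalRing.ResidueField (OE E)) ^ d') ∧
      Even (d + d' + dlR (T := T) P D ρ ρ' L L' i) := by
    intro i he hev
    refine ⟨_, 0, 0, lag1 I C hL i, evp_self _, ?_, by simpa using hev⟩
    rw [← he]
    exact evp_self _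
  match i with
  | none =>
    refine same none ?_ ⟨0, rfl⟩
    rw [fam_inf I (ρ := ρ) (ρ' := ρ') (b := b) (b' := b') (L := L) (L' := L')]
  | some none =>
    refine ⟨_, Module.finrank E L' + Module.finrank E L, 0, lag1' I C hL' (some none),
      dist_two I C hL hL', evp_self _, ?_⟩
    show Even (Module.finrank E L' + Module.finrank E L + 0 +
      (Module.finrank E L + Module.finrank E L'))
    exact ⟨Module.finrank E L + Module.finrank E L', by ring⟩
  | some (some p) =>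
    rcases I.kinds p with hp | hp | hp
    · -- the prime splits
      have h : stb (P p) ≤ (iK K).range := fun g hg => by
        obtain ⟨m, hm⟩ := I.le_spl hp ⟨g, hg⟩
        exact ⟨m, hm⟩
      refine ⟨_, n + n, 0, lag1' I C hL' (some (some p)), dist_spl I C h, evp_self _, ?_⟩
      have h1 : ¬ Parity.Inert D p := fun h2 => by
        obtain ⟨A, hA⟩ := hp.2.2.2
        exact h2 A hA
      show Even (n + n + 0 + ((if Parity.Inert D p then _ else 0) + if (p : ℕ) ∣ D then _ else 0))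
      rw [if_neg h1, if_neg hp.2.2.1]
      exact ⟨n, by ring⟩
    · -- the prime divides `D`
      have h1 : ¬ Parity.Inert D p := fun h2 => h2 0 (by
        rw [zero_pow two_ne_zero, zero_add]
        exact_mod_cast hp)
      rcases hd p p.2 hp with ⟨h2, h3⟩ | ⟨U, hU, hUg⟩
      · refine ⟨_, qd P ρ p + qd P ρ' p, 0, lag1' I C hL' (some (some p)),
          dist_dvd I C hL hL' hp h2 h3, evp_self _, ?_⟩
        show Even (_ + _ + 0 + ((if Parity.Inert D p then _ else 0) + if (p : ℕ) ∣ D then _ else 0))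
        rw [if_neg h1, if_pos hp]
        exact ⟨qd P ρ p + qd P ρ' p, by ring⟩
      · refine same _ (dvd_U I C hL hL' hp hU hUg) ?_
        have hle : (P p).inertia (AbsGal K) ≤ stabD (P p) := fun g hg =>
          ER.mem_stb.1 (HP.inr_le_stb _ (iK_inertia.2 hg))
        have h4 : qd P ρ p = qd P ρ' p := qd_eq hle (hU.unit C.lat) fun g hg =>
          hUg g (ER.mem_stb.2 hg)
        show Even ((if Parity.Inert D p then _ else 0) + if (p : ℕ) ∣ D then _ else 0)
        rw [if_neg h1, if_pos hp, h4]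
        exact ⟨qd P ρ' p, by ring⟩
    · -- the prime is inert
      obtain ⟨k, hk, hev⟩ := dist_inr I C hL hp
      obtain ⟨k', hk', hev'⟩ := dist_inr I C.symm hL' hp
      have hq : 1 < Nat.card (IsLocalRing.ResidueField (OE E)) := Finite.one_lt_card
      have hkk : k = k' := by
        refine Nat.pow_right_injective hq ?_
        show _ ^ k = _ ^ k'
        rw [← hk, ← hk']
        refine Nat.card_congr (Equiv.setCongr (Set.ext fun m => ?_))
        constructor
        · intro h g hg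
          have h1 := h g hg
          have h2 := actN_cg C.lat.lne C.cg C.st C.st' g m
          exact h2.trans h1
        · intro h g hg
          have h1 := h g hg
          have h2 := actN_cg C.lat.lne C.cg C.st C.st' g m
          exact h2.symm.trans h1
      rw [zur_eq I C p] at hev'
      refine ⟨_, _, _, lag_ur I C hp.2.2.1, hev, hev', ?_⟩
      have h1 : Parity.Inert D p := fun A hA => hp.2.2.2 ⟨A, hA⟩
      show Even (_ + _ + ((if Parity.Inert D p then _ else 0) + if (p : ℕ) ∣ D then _ else 0))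
      rw [if_pos h1, if_neg hp.2.2.1, finrank_VI, finrank_VI, hkk]
      exact ⟨Parity.dimInertia ρ (P p) + Parity.dimInertia ρ' (P p) + k', by ring⟩

/-- THE THEOREM FOR THE ARITHMETIC INSTANCE. -/
theorem cong_instR (C : Cong N₀ T κ b b' l t L₀ ρ ρ') (hL : Mid P ρ L) (hL' : Mid P ρ' L')
    (hd : HDvdR P D T ρ ρ' l L₀) :
    Parity.IsFinSelmer (Parity.inertiaOffTwo K) (Parity.cyclo E) κ ρ b (stabD (P 2)) L ∧
    Parity.IsFinSelmer (Parity.inertiaOffTwo K) (Parity.cyclo E) κ ρ' b' (stabD (P 2)) L' ∧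
    Even (Parity.selmerNumber (Parity.inertiaOffTwo K) (Parity.cyclo E) κ ρ b (stabD (P 2)) L +
      Parity.selmerNumber (Parity.inertiaOffTwo K) (Parity.cyclo E) κ ρ' b' (stabD (P 2)) L' +
      ∑ p : T, dlR (T := T) P D ρ ρ' L L' (some (some p))) := by
  classical
  choose Y0 d d' h1 h2 h3 h4 using loc_exR I C hL hL' hd
  have hA := ari_inst I
  obtain ⟨-, -, key⟩ := cong_abs (L := famL c κ T P N₀ ρ b hA.h2 L)
    (L' := famL c κ T P N₀ ρ' b' hA.h2 L') I.glob I.gens (C.qr I) (C.qr' I)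
    (fun g m => C.act1 I g m) (fun a g m => C.la1 I a g m) (fun x y => C.be1 I x y)
    (QW.famL_fd hA C.cd hL.le fun i => I.locD i) (QW.famL_fd hA C.cd' hL'.le fun i => I.locD i)
    (QW.famL_zv hA C.cd hL.le) (QW.famL_zv hA C.cd' hL'.le)
    (QW.famL_cob hA C.cd C.lat C.st I.glob.glob.char.mul hL.le hL.ge)
    (QW.famL_cob hA C.cd' C.lat' C.st' I.glob.glob.char.mul hL'.le hL'.ge)
    (QW.famL_lag hA C.cd C.lat C.st I.glob.glob.char hL.le hL.ge fun i => I.locD i)
    (QW.famL_lag hA C.cd' C.lat' C.st' I.glob.glob.char hL'.le hL'.ge fun i => I.locD i)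
    h1 h2 h3
  obtain ⟨a1, a2, a3, a4, a5⟩ := QW.sel_dim I C.cd C.lat C.st hL.le hL.ge
  obtain ⟨b1, b2, b3, b4, b5⟩ := QW.sel_dim I C.cd' C.lat' C.st' hL'.le hL'.ge
  refine ⟨⟨a1, a3, a4⟩, ⟨b1, b3, b4⟩, ?_⟩
  have c1 := GP.dimModulo_add hL.ge a1
  have c2 := GP.dimModulo_add hL'.ge b1
  have c3 := GP.finrank_cob (fun σ : stabD (K := K) (P 2) => ρ σ)
  have c4 := GP.finrank_cob (fun σ : stabD (K := K) (P 2) => ρ' σ)
  have hsum : Even (∑ i, (d i + d' i + dlR (T := T) P D ρ ρ' L L' i)) :=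
    Finset.even_sum _ fun i _ => h4 i
  have e2 : ∑ i, dlR (T := T) P D ρ ρ' L L' i = Module.finrank E L + Module.finrank E L' +
      ∑ p : T, dlR (T := T) P D ρ ρ' L L' (some (some p)) := by
    rw [Fintype.sum_option, Fintype.sum_option]
    show 0 + (Module.finrank E L + Module.finrank E L' + _) = _
    rw [zero_add]
  rw [Finset.sum_add_distrib, e2] at hsum
  have key' : Even (Module.finrank E (selE (sysQ T N₀) (GA.jQ c P) (rho2 (iK K) c κ fun g => ρ g)
        (famL c κ T P N₀ ρ b hA.h2 L)) +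
      Module.finrank E (selE (sysQ T N₀) (GA.jQ c P) (rho2 (iK K) c κ fun g => ρ' g)
        (famL c κ T P N₀ ρ' b' hA.h2 L')) + ∑ i, (d i + d' i)) := key
  rw [Parity.selmerNumber, Parity.selmerNumber]
  rw [Nat.even_iff] at key' hsum ⊢
  omega

end loc

end Pool.Agent.Work.MP_787500_nt.CP
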