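import Mathlib
import Pool.Agent.Work.MP_787500_nt.CP.Core

/-!
The theorem on congruent representations.
-/

set_option autoImplicit false

namespace Pool.Agent.Work.MP_787500_nt.CP

open Pool.Agent.Work.MP_787500_nt Pool.Agent.Work.MP_787500_nt.Parity
open Pool.Agent.Work.MP_787500_nt.GP (inT stabD)
open Pool.Agent.Work.MP_787500_nt.HP (IsQ)
open NumberField Matrix

universe u w

open scoped Classical in
theorem final (K : Type u) [Field K] [NumberField K] (hK : Module.finrank ℚ K = 2) (D : ℕ)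
    (hD : Squarefree D) (hD8 : D % 8 = 7) (s : K) (hs : s ^ 2 = -(D : K))
    (P : Ideal (𝓞 (AlgebraicClosure K))) (hP : P.IsPrime)
    (hP2 : (2 : 𝓞 (AlgebraicClosure K)) ∈ P)
    (c : AlgebraicClosure K ≃+* AlgebraicClosure K) (hc : ∀ x, c (c x) = x)
    (hcs : c (algebraMap K (AlgebraicClosure K) s) = -algebraMap K (AlgebraicClosure K) s)
    (κ : AbsGal K → AbsGal K)
    (hκ : ∀ (σ : AbsGal K) (x : AlgebraicClosure K), κ σ x = c (σ (c x)))
    (T : Finset ℕ) (hT : ∀ l ∈ T, l.Prime ∧ l ≠ 2)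
    (R : ℕ → Ideal (𝓞 (AlgebraicClosure K)))
    (hR : ∀ l ∈ T, (R l).IsPrime ∧ (l : 𝓞 (AlgebraicClosure K)) ∈ R l)
    (E : Type w) [NormedField E] [NormedAlgebra ℚ_[2] E] [FiniteDimensional ℚ_[2] E] (n : ℕ)
    (ρ ρ' : AbsGal K →* Matrix (Fin n) (Fin n) E) (b b' : Matrix (Fin n) (Fin n) E)
    (hρ : IsDualRep (inT K T) (cyclo E) κ ρ b) (hρ' : IsDualRep (inT K T) (cyclo E) κ ρ' b')
    (Λ : Set (Fin n → E)) (hΛ : IsCongruent Λ ρ ρ' b b')
    (hloc : ∀ l ∈ T, l ∣ D →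
      ∃ U : Matrix (Fin n) (Fin n) E, CongruentOn Λ U 1 ∧ ∀ g ∈ stabD (R l), U * ρ g = ρ' g * U)
    (L L' : Submodule E (stabD P → Fin n → E))
    (hL : Between (coboundaries (fun σ : stabD P => ρ σ)) L (Parity.cocycles (fun σ : stabD P => ρ σ)))
    (hL' : Between (coboundaries (fun σ : stabD P => ρ' σ)) L'
      (Parity.cocycles (fun σ : stabD P => ρ' σ))) :
    FiniteDimensional E (selmerBK (inertiaOffTwo K) (cyclo E) κ ρ b (stabD P) L) ∧
    FiniteDimensional E (selmerBK (inertiaOffTwo K) (cyclo E) κ ρ' b' (stabD P) L') ∧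
    (selmerNumber (inertiaOffTwo K) (cyclo E) κ ρ b (stabD P) L +
        ∑ l ∈ T.filter (Inert D), dimInertia ρ (R l) ≡
      selmerNumber (inertiaOffTwo K) (cyclo E) κ ρ' b' (stabD P) L' +
        ∑ l ∈ T.filter (Inert D), dimInertia ρ' (R l) [MOD 2]) := by
  -- the primes
  have hex : ∃ P' : ℕ → Ideal (𝓞 (AlgebraicClosure K)), P' 2 = P ∧ (∀ l ∈ T, P' l = R l) ∧
      ∀ l : ℕ, l.Prime → (P' l).IsPrime ∧ (l : 𝓞 (AlgebraicClosure K)) ∈ P' l := by
    have h1 : ∀ p : ℕ, ∃ Q : Ideal (𝓞 (AlgebraicClosure K)), p.Prime →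
        Q.IsPrime ∧ (p : 𝓞 (AlgebraicClosure K)) ∈ Q := by
      intro p
      by_cases hp : p.Prime
      · obtain ⟨Q, hQ⟩ := HP.prime_over_nat (Ω := AlgebraicClosure K) hp
        exact ⟨Q, fun _ => hQ⟩
      · exact ⟨⊥, fun h => absurd h hp⟩
    choose Q hQ using h1
    refine ⟨fun l => if l = 2 then P else if l ∈ T then R l else Q l, if_pos rfl, fun l hl => ?_,
      fun l hl => ?_⟩
    · show (if l = 2 then P else if l ∈ T then R l else Q l) = R l
      rw [if_neg (hT l hl).2, if_pos hl]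
    · show (if l = 2 then P else if l ∈ T then R l else Q l).IsPrime ∧
        (l : 𝓞 (AlgebraicClosure K)) ∈ (if l = 2 then P else if l ∈ T then R l else Q l)
      by_cases h2 : l = 2
      · rw [if_pos h2]
        subst h2
        exact ⟨hP, by exact_mod_cast hP2⟩
      · rw [if_neg h2]
        by_cases h3 : l ∈ T
        · rw [if_pos h3]
          exact hR l h3
        · rw [if_neg h3]
          exact hQ l hl
  obtain ⟨P', h2, hPR, hP'⟩ := hex
  subst h2
  let κ' : AbsGal K →* AbsGal K := MonoidHom.mk' κ fun g h => by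
    ext x
    rw [hκ, AlgEquiv.mul_apply, AlgEquiv.mul_apply, hκ, hκ, hc]
  have hK' : IsQ K D s := ⟨hK, hs, hD, hD8⟩
  have hc' : PA.IsConj s c := ⟨hc, hcs⟩
  obtain ⟨k1, k2, k3⟩ := core (κ := κ') hK' hc' hκ P' hP' hT hρ hρ' hΛ
    (fun l hl hlD => by
      rw [hPR l hl]
      exact hloc l hl hlD) hL hL'
  refine ⟨k1, k2, ?_⟩
  have e1 : ∑ l ∈ T.filter (Inert D), (dimInertia ρ (P' l) + dimInertia ρ' (P' l)) =
      ∑ l ∈ T.filter (Inert D), dimInertia ρ (R l) +
        ∑ l ∈ T.filter (Inert D), dimInertia ρ' (R l) := by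
    rw [← Finset.sum_add_distrib]
    refine Finset.sum_congr rfl fun l hl => ?_
    rw [hPR l (Finset.mem_filter.1 hl).1]
  have k4 : Even (selmerNumber (inertiaOffTwo K) (cyclo E) κ ρ b (stabD (P' 2)) L +
      selmerNumber (inertiaOffTwo K) (cyclo E) κ ρ' b' (stabD (P' 2)) L' +
        ∑ l ∈ T.filter (Inert D), (dimInertia ρ (P' l) + dimInertia ρ' (P' l))) := k3
  rw [e1, Nat.even_iff] at k4
  show _ % 2 = _ % 2
  omega

end Pool.Agent.Work.MP_787500_nt.CP
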